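import Pool.Agent.Helper21.CX.STD
import Pool.Agent.Helper39.CX.CER

/-!
The hypothesis `parse` of `zf_of_regions` from a scheme of superblocks.
-/

set_option autoImplicit false

namespace Pool.Agent.Helper21.SUP

open Pool.Agent.Helper6.MONO (nxD sD okD dw mm BPath Dist)

/-- PARSE: every canonical list of runs is the concatenation of the runs of a path of blocks. -/
theorem parse_of_sch {τ S B : Type} {src tgt : B → S} {runs : B → List ℕ} (Z : Sch τ)
    (p q r : ℕ) (D : GS → Prop) (hD : ∀ s m, D s → D (nx s m)) (st : GS → Bool → Option τ → S)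
    (hB : ∀ (o : Option τ) (f : Bool) (s : GS) (m : ℕ) (ms : List ℕ) (t : τ), D s →
      Z.Blk p q r o f s m ms t → ∃ b : B, src b = st s f o ∧
        tgt b = st (sD s (m :: ms)) (fD p q r f s (m :: ms)) (some t) ∧ runs b = m :: ms)
    (s : GS) (hs : D s) (ms : List ℕ) (hok : okD p q r false s ms) :
    ∃ (bs : List B) (s' : S), BPath src tgt (st s false none) bs s' ∧
      (bs.map runs).flatten = ms := by
  have hDs : ∀ (l : List ℕ) (s : GS), D s → D (sD s l) := by
    intro l
    induction l with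
    | nil => intro s h; rw [sD_nil]; exact h
    | cons m l ih => intro s h; rw [sD_cons]; exact ih _ (hD s m h)
  have key : ∀ (ls : List (List ℕ)) (o : Option τ) (f : Bool) (s : GS) (o' : Option τ),
      D s → Z.Path p q r o f s ls o' →
      ∃ (bs : List B) (s' : S), BPath src tgt (st s f o) bs s' ∧
        (bs.map runs).flatten = ls.flatten := by
    intro ls
    induction ls with
    | nil =>
      intro o f s o' _ hp
      exact ⟨[], _, BPath.nil _, rfl⟩
    | cons l ls ih =>
      intro o f s o' hs hp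
      obtain ⟨m, ms, t, rfl, hb, hp'⟩ := hp
      obtain ⟨b, h1, h2, h3⟩ := hB o f s m ms t hs hb
      obtain ⟨bs, s', i1, i2⟩ := ih _ _ _ o' (hDs _ _ hs) hp'
      refine ⟨b :: bs, s', ?_, ?_⟩
      · rw [← h1]
        rw [← h2] at i1
        exact BPath.cons b i1
      · rw [List.map_cons, List.flatten_cons, List.flatten_cons, i2, h3]
  obtain ⟨ls, o', e1, e2⟩ := Z.regroup p q r ms.length ms le_rfl none false s hok
    (by intro m ms' _ t ht; cases ht)
  obtain ⟨bs, s', i1, i2⟩ := key ls none false s o' hs e2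
  exact ⟨bs, s', i1, i2.trans e1⟩

/-- pairwise distinct -/
def DG (s : GS) : Prop := Dist s.1 s.2.1 s.2.2

theorem DG_nx (s : GS) (m : ℕ) (h : DG s) : DG (nx s m) := by
  obtain ⟨h1, h2, h3⟩ := h
  rcases Nat.mod_two_eq_zero_or_one m with hm | hm
  · rw [nx_even s m hm]
    exact ⟨h2, h3, h1⟩
  · rw [nx_odd s m hm]
    exact ⟨Ne.symm h3, Ne.symm h2, Ne.symm h1⟩

/-- PARSE for the canonical block type: states are quadruples (geometric state, flag, type of the
last block) as they are, blocks are all blocks of the scheme. -/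
structure SBlk {τ : Type} (Z : Sch τ) (p q r : ℕ) : Type where
  o : Option τ
  f : Bool
  s : GS
  m : ℕ
  ms : List ℕ
  t : τ
  hs : DG s
  hb : Z.Blk p q r o f s m ms t

/-- states of the certificate -/
abbrev SSt (τ : Type) : Type := GS × Bool × Option τ

def SBlk.src {τ : Type} {Z : Sch τ} {p q r : ℕ} (b : SBlk Z p q r) : SSt τ := (b.s, b.f, b.o)

def SBlk.runs {τ : Type} {Z : Sch τ} {p q r : ℕ} (b : SBlk Z p q r) : List ℕ := b.m :: b.ms

def SBlk.tgt {τ : Type} {Z : Sch τ} {p q r : ℕ} (b : SBlk Z p q r) : SSt τ :=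
  (sD b.s b.runs, fD p q r b.f b.s b.runs, some b.t)

theorem parse_sblk {τ : Type} (Z : Sch τ) (p q r : ℕ) (n a b : Fin 3) (h : Dist n a b)
    (ms : List ℕ) (hok : okD p q r false (n, a, b) ms) :
    ∃ (bs : List (SBlk Z p q r)) (s' : SSt τ),
      BPath SBlk.src SBlk.tgt ((n, a, b), false, none) bs s' ∧
      (bs.map SBlk.runs).flatten = ms :=
  parse_of_sch Z p q r DG DG_nx (fun s f o => (s, f, o))
    (fun o f s m ms t hs hb => ⟨⟨o, f, s, m, ms, t, hs, hb⟩, rfl, rfl, rfl⟩) (n, a, b) h ms hok

end Pool.Agent.Helper21.SUP
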