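import Pool.Agent.Helper21.CX.PWT
import Pool.Agent.Helper39.CX.CER

/-!
The class theorem: certificates at the points of the upper quarter of the critical line give `ZF`.
-/

set_option autoImplicit false
noncomputable section
namespace Pool.Agent.Helper6.MONO

open Polynomial Complex
open Pool.Agent.Helper39.C75
open Pool.Agent.Helper21.MIR

/-- the critical line in the `w` plane (contains the frontier of `Omg x0`) -/
def Frt (x0 : ℝ) : Set ℂ := {w | ‖((x0 + 2 : ℝ) : ℂ) * w ^ 2 - (x0 : ℂ)‖ = 2}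

theorem frt_neg {x0 : ℝ} {w : ℂ} (h : w ∈ Frt x0) : -w ∈ Frt x0 := by
  show ‖((x0 + 2 : ℝ) : ℂ) * (-w) ^ 2 - (x0 : ℂ)‖ = 2
  rw [neg_sq]
  exact h

theorem frt_conj {x0 : ℝ} {w : ℂ} (h : w ∈ Frt x0) : starRingEnd ℂ w ∈ Frt x0 := by
  show ‖((x0 + 2 : ℝ) : ℂ) * (starRingEnd ℂ w) ^ 2 - (x0 : ℂ)‖ = 2
  have h1 : ((x0 + 2 : ℝ) : ℂ) * (starRingEnd ℂ w) ^ 2 - (x0 : ℂ) =
      starRingEnd ℂ (((x0 + 2 : ℝ) : ℂ) * w ^ 2 - (x0 : ℂ)) := by
    rw [map_sub, map_mul, map_pow, Complex.conj_ofReal, Complex.conj_ofReal]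
  rw [h1, Complex.norm_conj]
  exact h

/-- compatibility with complex conjugation on the critical line -/
structure ConjOK {S B : Type} (M : B → ℂ → Mt) (Start : S → (ℂ → V) → Prop) (K : B → TR B)
    (x0 : ℝ) : Prop where
  mat : ∀ b, ∀ w ∈ Frt x0, ∀ i j, M b (starRingEnd ℂ w) i j = starRingEnd ℂ (M b w i j)
  tr : ∀ b, ∀ w ∈ Frt x0, (K b).conjOK w (starRingEnd ℂ w)
  st : ∀ s v, Start s v → ∀ w ∈ Frt x0, v (starRingEnd ℂ w) = cj (v w)

theorem ConjOK.pt {S B : Type} {src tgt : B → S} {M : B → ℂ → Mt} {Start : S → (ℂ → V) → Prop}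
    {K : B → TR B} {C x0 : ℝ} (h : ConjOK M Start K x0) {w : ℂ} (hw : w ∈ Frt x0)
    (hp : PT src tgt M Start K C w) : PT src tgt M Start K C (starRingEnd ℂ w) :=
  pt_conj (fun b i j => h.mat b w hw i j) (fun b => h.tr b w hw) (fun s v hv => h.st s v hv w hw)
    hp

/-- both arcs: from the outer upper arc of the class and of the mirrored class -/
theorem pt_upper {S B : Type} {src tgt : B → S} {M : B → ℂ → Mt} {Start : S → (ℂ → V) → Prop}
    {K : B → TR B} {C x0 : ℝ} (hc : ConjOK M Start K x0)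
    (h1 : ∀ w ∈ Frt x0, 0 ≤ w.im → 0 ≤ w.re → PT src tgt M Start K C w)
    (h2 : ∀ w ∈ Frt x0, 0 ≤ w.im → 0 ≤ w.re → PT src tgt M Start K C (-w)) :
    ∀ w ∈ Frt x0, 0 ≤ w.im → PT src tgt M Start K C w := by
  intro w hw hi
  rcases le_total 0 w.re with hr | hr
  · exact h1 w hw hi hr
  · have hw2 : starRingEnd ℂ (-w) ∈ Frt x0 := frt_conj (frt_neg hw)
    have h0 := h2 (starRingEnd ℂ (-w)) hw2 (by
        rw [Complex.conj_im, Complex.neg_im, neg_neg]
        exact hi) (by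
        rw [Complex.conj_re, Complex.neg_re]
        linarith)
    have h3 := hc.pt (frt_neg hw2) h0
    rw [map_neg, Complex.conj_conj, neg_neg] at h3
    exact h3

/-- THE CLASS THEOREM -/
theorem zf_of_pt {p q r : ℕ} {x0 : ℝ} (hx : -2 < x0) {S B : Type} {src tgt : B → S}
    {M : B → ℂ → Mt} {T : S → ℂ → Mt}
    {st : S → Fin 3 × Fin 3 × Fin 3} {runs : B → List ℕ}
    (L : Link p q r x0 src tgt M T st runs) (Start : S → (ℂ → V) → Prop)
    (hM : ∀ b i j, ContinuousOn (fun w => M b w i j) (closure (Omg x0)) ∧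
      DifferentiableOn ℂ (fun w => M b w i j) (Omg x0))
    (hstart : ∀ s v, Start s v → Reg (Omg x0) v ∧ ∀ w ∈ closure (Omg x0), v w 0 ≠ 0)
    (K : B → TR B) (rk : B → ℕ) (hK : ∀ b, (K b).ok src M (Omg x0) rk b)
    (hc : ConjOK M Start K x0) (C : ℝ)
    (hpt : ∀ w ∈ Frt x0, 0 ≤ w.im → PT src tgt M Start K C w)
    (s0 : (Fin 3 × Fin 3 × Fin 3) → S) (hs0 : ∀ t, st (s0 t) = t)
    (F : (Fin 3 × Fin 3 × Fin 3) → Fin 3 → Fin 3 → ℝ[X])
    (hLI : ∀ (n a b : Fin 3), Dist n a b → ∀ z : ℂ, ‖z‖ = 1 → x0 ≤ 2 * z.re →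
      LinearIndependent ℂ (fun i => evv (F (n, a, b) i) z))
    (hF : ∀ (n a b : Fin 3), Dist n a b → ∀ i : Fin 3, ∃ v, Start (s0 (n, a, b)) v ∧
      ∀ z, InX x0 z → ∃ f : ℂ, f ≠ 0 ∧
        v (zw z) = f • (T (s0 (n, a, b)) (zw z)).mulVec (evv (F (n, a, b) i) z))
    (parse : ∀ (n a b : Fin 3), Dist n a b → ∀ ms : List ℕ, okD p q r false (n, a, b) ms →
      ∃ (bs : List B) (s' : S), BPath src tgt (s0 (n, a, b)) bs s' ∧
        (bs.map runs).flatten = ms) : ZF p q r x0 := by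
  have hall : ∀ w ∈ frontier (Omg x0), PT src tgt M Start K C w := by
    intro w hw
    have hw' : w ∈ Frt x0 := omg_frontier hw
    rcases le_total 0 w.im with hi | hi
    · exact hpt w hw' hi
    · have h1 := hc.pt (frt_conj hw') (hpt (starRingEnd ℂ w) (frt_conj hw') (by
        rw [Complex.conj_im]
        linarith))
      rw [Complex.conj_conj] at h1
      exact h1
  obtain ⟨h1, h2⟩ := pt_all (omg_open x0) hK hall
  exact zf_of_regions L Start (omg_open x0) (omg_bounded hx) (fun z hz => zw_mem hx hz) hM hstart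
    rk h1 C h2 s0 hs0 F hLI hF parse

end Pool.Agent.Helper6.MONO
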