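import Pool.Agent.Helper21.C75.Words
import Pool.Agent.Helper6.MONO.Fin1
import Pool.Agent.Helper12.CX.Defs

/-!
Row CAN: every group element has a canonical word.
-/

set_option autoImplicit false

namespace Pool.Agent.Helper6.MONO

open Pool.Agent.Helper21.C75 (Cong bwD lst third third_ne third_lst lst_ne canonical)

theorem gact_app21 (G : Fin 3 → Fin 3 → ℂ) (u v : List (Fin 3)) (x : Fin 3 → ℂ) :
    gact G (u ++ v) x = gact G v (gact G u x) := by
  unfold gact
  rw [List.foldl_append]

/-- the relation `Eqv` contains the relations of the group -/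
theorem cong21 (p q r : ℕ) (hp : 3 ≤ p) (hq : 3 ≤ q) (hr : 3 ≤ r) :
    Cong (mm p q r) (Eqv p q r) where
  refl u := fun _ _ _ _ => rfl
  symm u v h := fun τ G hG x => (h τ G hG x).symm
  trans u v w h1 h2 := fun τ G hG x => (h1 τ G hG x).trans (h2 τ G hG x)
  app a u v b h := by
    intro τ G hG x
    rw [gact_app21, gact_app21, gact_app21, gact_app21, h τ G hG]
  inv i := st_INV p q r hp hq hr i
  brd i j hij := a_BRD p q r hp hq hr i j hij

theorem lst_mod21 (n a : Fin 3) (m : ℕ) (hm : 2 ≤ m) :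
    lst n a (m - 1) = if m % 2 = 0 then a else n := by
  unfold lst
  rcases Nat.mod_two_eq_zero_or_one m with h | h
  · have h1 : (m - 1) % 2 = 1 := by omega
    simp [h, h1]
  · have h1 : (m - 1) % 2 = 0 := by omega
    simp [h, h1]

theorem dist21 (n a : Fin 3) (h : n ≠ a) : Dist n a (third n a) := by
  have := third_ne n a h
  exact ⟨h, Ne.symm this.2, this.1⟩

theorem third21 : ∀ n a b : Fin 3, Dist n a b → third n a = b := by
  unfold Dist third
  decide

/-- the next state -/
theorem nx21 (n a b : Fin 3) (hD : Dist n a b) (m : ℕ) (hm : 2 ≤ m) :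
    ∃ c, nxD m n a b = (lst n a (m - 1), b, c) ∧ Dist (lst n a (m - 1)) b c := by
  rw [lst_mod21 n a m hm]
  obtain ⟨h1, h2, h3⟩ := hD
  by_cases h : m % 2 = 0
  · refine ⟨n, by simp [nxD, h], ?_⟩
    rw [if_pos h]
    exact ⟨h2, h3, h1⟩
  · refine ⟨a, by simp [nxD, h], ?_⟩
    rw [if_neg h]
    exact ⟨Ne.symm h3, Ne.symm h2, Ne.symm h1⟩


theorem conv21 (p q r : ℕ) : ∀ (ms : List ℕ) (f : Bool) (n a b : Fin 3), Dist n a b →
    Pool.Agent.Helper21.C75.okD (mm p q r) f n a ms →
    okD p q r f (n, a, b) ms ∧ dw (n, a, b) ms = bwD n a ms := by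
  intro ms
  induction ms with
  | nil => intro f n a b _ _; exact ⟨trivial, rfl⟩
  | cons m ms ih =>
    intro f n a b hD h
    obtain ⟨⟨h1, h2, h3⟩, h4⟩ := h
    obtain ⟨c, hc, hD'⟩ := nx21 n a b hD m h1
    rw [third21 n a b hD] at h4
    obtain ⟨i1, i2⟩ := ih _ _ _ c hD' h4
    constructor
    · refine ⟨h1, h2, h3, ?_⟩
      rw [hc]
      exact i1
    · change alt n a (m - 1) ++ dw (nxD m n a b) ms =
        alt n a (m - 1) ++ bwD (lst n a (m - 1)) (third n a) ms
      rw [hc, third21 n a b hD, i2]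

/-- **Row CAN.** -/
theorem st_CAN : ST_CAN := by
  intro p q r hp hq hr
  refine ⟨p + q + r, fun w => ?_⟩
  have hM : ∀ i j : Fin 3, i ≠ j → 2 ≤ mm p q r i j := by
    intro i j hij
    fin_cases i <;> fin_cases j <;> simp [mm] at hij ⊢ <;> omega
  have hs : ∀ i j : Fin 3, mm p q r i j = mm p q r j i := by
    intro i j
    fin_cases i <;> fin_cases j <;> simp [mm]
  obtain ⟨n, a, ms, i, j, k, hna, hij, hk, hok, he⟩ :=
    canonical (mm p q r) (Eqv p q r) (cong21 p q r hp hq hr) hM hs w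
  have hD := dist21 n a hna
  obtain ⟨h1, h2⟩ := conv21 p q r ms false n a _ hD hok
  refine ⟨[], alt i j k, n, a, third n a, ms, hD, by simp, ?_, h1, ?_⟩
  · rw [Pool.Agent.Helper21.C75.alt_length]
    have : mm p q r i j ≤ p + q + r := by
      revert hij
      fin_cases i <;> fin_cases j <;> simp [mm] <;> omega
    omega
  · rw [h2]
    simpa using he

end Pool.Agent.Helper6.MONO
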