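import Pool.Agent.Helper21.CX.REFC
import Pool.Agent.Helper12.CX.KAP
import Pool.Agent.Helper12.CX.Defs
import Pool.Agent.Helper6.CX.LNG

/-!
Row CLO: the first coordinate of a run applied to the reference vectors has no zero in the domain,
for all triangles, from `xA ≤ x0` alone.
-/

set_option autoImplicit false
noncomputable section
namespace Pool.Agent.Helper6.MONO.CLO

open Pool.Agent.Helper21.SUP (GS DG DG_nx gM)


/-! ### the real inequality -/

/-- the core inequality: affine in `u`, `v` on two triangles -/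
theorem clo_core {t u v l g c1 c2 X : ℝ} (hu : 0 < u) (hu4 : u ≤ 4) (hv : 0 < v)
    (hv4 : v ≤ 4) (hl : 0 < l) (hlv : l ^ 2 * v = t ^ 2 * u)
    (h1 : 2 * X * l * v ≤ 4 * v - t ^ 2 * (4 - u)) (h2 : 2 * X * l * v ≤ 4 * u - t ^ 2 * (4 - v))
    (hg : 0 ≤ g) (hc1 : 0 ≤ c1) (Y3 : 0 ≤ 8 * g + 2 * c1 + c2)
    (Y2 : 0 ≤ 2 * c1 ^ 2 + 4 * g * (t ^ 2 - 1) * (4 * g + c1) +
      c2 * (4 * g + c1 + 2 * g * (t ^ 2 - 1))) :
    2 * X * (4 * g * l ^ 2) * (4 * g + 2 * c1) ≤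
      l * (8 * g + 2 * c1 + c2) * (4 * g * l ^ 2 + (4 * g + 2 * c1)) := by
  set D : ℝ := 8 * g + 2 * c1 + c2 with hD
  have key : 4 * g * (4 * g + 2 * c1) * (2 * X * l * v) ≤
      D * (4 * g * t ^ 2 * u + v * (4 * g + 2 * c1)) := by
    have hk : 0 ≤ 4 * g * (4 * g + 2 * c1) := by positivity
    have ht2 : 0 ≤ t ^ 2 := sq_nonneg t
    have f00 : 0 ≤ 16 * g * (4 * g + 2 * c1) * t ^ 2 := by positivity
    have f44 : 0 ≤ 8 * (D * (2 * g * (t ^ 2 + 1) + c1) - 16 * g * (2 * g + c1)) := by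
      have e : D * (2 * g * (t ^ 2 + 1) + c1) - 16 * g * (2 * g + c1) =
          2 * c1 ^ 2 + 4 * g * (t ^ 2 - 1) * (4 * g + c1) +
            c2 * (4 * g + c1 + 2 * g * (t ^ 2 - 1)) := by
        rw [hD]; ring
      rw [e]
      linarith
    rcases le_total v u with h | h
    · refine (mul_le_mul_of_nonneg_left h1 hk).trans ?_
      have f40 : 0 ≤ 16 * g * t ^ 2 * D := by positivity
      have e : D * (4 * g * t ^ 2 * u + v * (4 * g + 2 * c1)) -
          4 * g * (4 * g + 2 * c1) * (4 * v - t ^ 2 * (4 - u)) =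
          (1 - u / 4) * (16 * g * (4 * g + 2 * c1) * t ^ 2) + (u - v) / 4 * (16 * g * t ^ 2 * D) +
          v / 4 * (8 * (D * (2 * g * (t ^ 2 + 1) + c1) - 16 * g * (2 * g + c1))) := by
        rw [hD]; ring
      have a1 : 0 ≤ (1 - u / 4) * (16 * g * (4 * g + 2 * c1) * t ^ 2) :=
        mul_nonneg (by linarith) f00
      have a2 : 0 ≤ (u - v) / 4 * (16 * g * t ^ 2 * D) := mul_nonneg (by linarith) f40
      have a3 : 0 ≤ v / 4 * (8 * (D * (2 * g * (t ^ 2 + 1) + c1) - 16 * g * (2 * g + c1))) :=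
        mul_nonneg (by linarith) f44
      linarith
    · refine (mul_le_mul_of_nonneg_left h2 hk).trans ?_
      have f04 : 0 ≤ 8 * D * (2 * g + c1) := by positivity
      have e : D * (4 * g * t ^ 2 * u + v * (4 * g + 2 * c1)) -
          4 * g * (4 * g + 2 * c1) * (4 * u - t ^ 2 * (4 - v)) =
          (1 - v / 4) * (16 * g * (4 * g + 2 * c1) * t ^ 2) + (v - u) / 4 * (8 * D * (2 * g + c1)) +
          u / 4 * (8 * (D * (2 * g * (t ^ 2 + 1) + c1) - 16 * g * (2 * g + c1))) := by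
        rw [hD]; ring
      have a1 : 0 ≤ (1 - v / 4) * (16 * g * (4 * g + 2 * c1) * t ^ 2) :=
        mul_nonneg (by linarith) f00
      have a2 : 0 ≤ (v - u) / 4 * (8 * D * (2 * g + c1)) := mul_nonneg (by linarith) f04
      have a3 : 0 ≤ u / 4 * (8 * (D * (2 * g * (t ^ 2 + 1) + c1) - 16 * g * (2 * g + c1))) :=
        mul_nonneg (by linarith) f44
      linarith
  have hk2 := mul_le_mul_of_nonneg_left key hl.le
  have e1 : l * (4 * g * (4 * g + 2 * c1) * (2 * X * l * v)) =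
      (2 * X * (4 * g * l ^ 2) * (4 * g + 2 * c1)) * v := by ring
  have e2 : l * (D * (4 * g * t ^ 2 * u + v * (4 * g + 2 * c1))) =
      (l * D * (4 * g * l ^ 2 + (4 * g + 2 * c1))) * v := by
    have : 4 * g * t ^ 2 * u = 4 * g * (l ^ 2 * v) := by rw [hlv]; ring
    rw [this]; ring
  rw [e1, e2] at hk2
  exact le_of_mul_le_mul_right hk2 hv

/-- even number of crossings -/
theorem clo_even {t R al be : ℝ} (ht : 1 ≤ t) (ht2 : t ≤ 2) (hR : t - 1 ≤ R) (ha : 0 ≤ al)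
    (hb : 0 ≤ be) (hb2 : be ≤ 3 / 2) :
    0 ≤ 8 * 1 + 2 * (2 * R * al) + (R ^ 2 - (t ^ 2 - 1)) * be ∧
    0 ≤ 2 * (2 * R * al) ^ 2 + 4 * 1 * (t ^ 2 - 1) * (4 * 1 + 2 * R * al) +
      (R ^ 2 - (t ^ 2 - 1)) * be * (4 * 1 + 2 * R * al + 2 * 1 * (t ^ 2 - 1)) := by
  have hR0 : 0 ≤ R := by linarith
  have hc : 0 ≤ 2 * R * al := by positivity
  set c : ℝ := 2 * R * al
  set s : ℝ := t ^ 2 - 1 with hs
  have hs0 : 0 ≤ s := by rw [hs]; nlinarith
  have hs3 : s ≤ 3 := by rw [hs]; nlinarith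
  have hRR : (t - 1) ^ 2 ≤ R ^ 2 := by nlinarith
  have hD : s - R ^ 2 ≤ 2 := by rw [hs]; nlinarith
  have hD' : s - R ^ 2 ≤ s := by nlinarith [sq_nonneg R]
  constructor
  · nlinarith
  · rcases le_total s (R ^ 2) with h | h
    · have : 0 ≤ (R ^ 2 - s) * be * (4 * 1 + c + 2 * 1 * s) := by
        have h1 : 0 ≤ R ^ 2 - s := by linarith
        positivity
      have h2 : 0 ≤ 4 * 1 * s * (4 * 1 + c) := by positivity
      have h3 : 0 ≤ 2 * c ^ 2 := by positivity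
      linarith
    · have h1 : 0 ≤ s - R ^ 2 := by linarith
      have h2 : (s - R ^ 2) * be ≤ s * (3 / 2) := by
        calc (s - R ^ 2) * be ≤ (s - R ^ 2) * (3 / 2) := mul_le_mul_of_nonneg_left hb2 h1
          _ ≤ s * (3 / 2) := mul_le_mul_of_nonneg_right hD' (by norm_num)
      have h3 : (s - R ^ 2) * be * (4 * 1 + c + 2 * 1 * s) ≤
          s * (3 / 2) * (4 * 1 + c + 2 * 1 * s) :=
        mul_le_mul_of_nonneg_right h2 (by positivity)
      have h4 : s * (3 / 2) * (4 * 1 + c + 2 * 1 * s) ≤ 4 * 1 * s * (4 * 1 + c) := by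
        have e : 4 * 1 * s * (4 * 1 + c) - s * (3 / 2) * (4 * 1 + c + 2 * 1 * s) =
            s * (10 + 5 / 2 * c - 3 * s) := by ring
        have : 0 ≤ s * (10 + 5 / 2 * c - 3 * s) := mul_nonneg hs0 (by linarith)
        linarith
      have h5 : 0 ≤ 2 * c ^ 2 := by positivity
      have e : (R ^ 2 - s) * be * (4 * 1 + c + 2 * 1 * s) =
          -((s - R ^ 2) * be * (4 * 1 + c + 2 * 1 * s)) := by ring
      rw [e]
      linarith

/-- odd number of crossings, order at least four -/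
theorem clo_odd {t R al be g c1 : ℝ} (ht : 1 ≤ t) (ht2 : t ^ 2 ≤ 2) (hR : t - 1 ≤ R)
    (hR2 : R ≤ t + 1) (ha : 0 ≤ al) (hb : 0 ≤ be) (hb2 : be ≤ 3 / 2)
    (hg : g * (2 * t * (t + 1)) = (t + 1) ^ 2 - R ^ 2)
    (hc : c1 = 2 * R * al + (R ^ 2 + (t ^ 2 - 1)) / t) :
    0 ≤ g ∧ 0 ≤ c1 ∧ 0 ≤ 8 * g + 2 * c1 + (R ^ 2 - (t ^ 2 - 1)) * be ∧
    0 ≤ 2 * c1 ^ 2 + 4 * g * (t ^ 2 - 1) * (4 * g + c1) +
      (R ^ 2 - (t ^ 2 - 1)) * be * (4 * g + c1 + 2 * g * (t ^ 2 - 1)) := by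
  have hR0 : 0 ≤ R := by linarith
  have ht0 : 0 < t := by linarith
  have htt : t ≤ 3 / 2 := by nlinarith
  set s : ℝ := t ^ 2 - 1 with hs
  have hs0 : 0 ≤ s := by rw [hs]; nlinarith
  have hs1 : s ≤ 1 := by rw [hs]; linarith
  have hN : 0 < 2 * t * (t + 1) := by positivity
  have hg0 : 0 ≤ g := by
    have h1 : 0 ≤ (t + 1) ^ 2 - R ^ 2 := by nlinarith
    by_contra hneg
    push Not at hneg
    have := mul_neg_of_neg_of_pos hneg hN
    linarith
  have hc0 : 0 ≤ c1 := by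
    rw [hc]
    have : 0 ≤ (R ^ 2 + s) / t := by positivity
    have h2 : 0 ≤ 2 * R * al := by positivity
    linarith
  refine ⟨hg0, hc0, ?_, ?_⟩
  · rcases le_total s (R ^ 2) with h | h
    · have : 0 ≤ (R ^ 2 - s) * be := mul_nonneg (by linarith) hb
      linarith
    · have hgl : 1 / 2 ≤ g := by
        have h1 : (t + 1) ^ 2 - R ^ 2 ≥ (t + 1) ^ 2 - s := by linarith
        have h2 : (t + 1) ^ 2 - s = 2 * t + 2 := by rw [hs]; ring
        have h3 : g * (2 * t * (t + 1)) ≥ 2 * t + 2 := by linarith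
        have h4 : g * t ≥ 1 := by
          have : (g * t - 1) * (2 * (t + 1)) ≥ 0 := by nlinarith
          by_contra hneg
          push Not at hneg
          have h5 : (g * t - 1) * (2 * (t + 1)) < 0 :=
            mul_neg_of_neg_of_pos (by linarith) (by positivity)
          linarith
        nlinarith
      have h1 : (s - R ^ 2) * be ≤ 1 * (3 / 2) :=
        mul_le_mul (by nlinarith [sq_nonneg R]) hb2 hb (by norm_num)
      have e : (R ^ 2 - s) * be = -((s - R ^ 2) * be) := by ring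
      rw [e]
      linarith
  · rcases le_total s (R ^ 2) with h | h
    · have : 0 ≤ (R ^ 2 - s) * be * (4 * g + c1 + 2 * g * s) := by
        have h1 : 0 ≤ R ^ 2 - s := by linarith
        positivity
      have h2 : 0 ≤ 4 * g * s * (4 * g + c1) := by positivity
      have h3 : 0 ≤ 2 * c1 ^ 2 := by positivity
      linarith
    · have hgt : g * t ≥ 1 := by
        have h1 : (t + 1) ^ 2 - R ^ 2 ≥ (t + 1) ^ 2 - s := by linarith
        have h2 : (t + 1) ^ 2 - s = 2 * t + 2 := by rw [hs]; ring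
        have h3 : g * (2 * t * (t + 1)) ≥ 2 * t + 2 := by linarith
        by_contra hneg
        push Not at hneg
        have h5 : (g * t - 1) * (2 * (t + 1)) < 0 :=
          mul_neg_of_neg_of_pos (by linarith) (by positivity)
        nlinarith
      have hgl : 9 / 16 ≤ g := by nlinarith
      have h1 : 0 ≤ s - R ^ 2 := by linarith
      have h2 : (s - R ^ 2) * be ≤ s * (3 / 2) :=
        mul_le_mul (by nlinarith [sq_nonneg R]) hb2 hb hs0
      have h3 : (s - R ^ 2) * be * (4 * g + c1 + 2 * g * s) ≤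
          s * (3 / 2) * (4 * g + c1 + 2 * g * s) :=
        mul_le_mul_of_nonneg_right h2 (by positivity)
      have h4 : s * (3 / 2) * (4 * g + c1 + 2 * g * s) ≤ 4 * g * s * (4 * g + c1) := by
        have e : 4 * g * s * (4 * g + c1) - s * (3 / 2) * (4 * g + c1 + 2 * g * s) =
            s * (g * (16 * g - 9) + g * 3 * (1 - s) + c1 * (4 * g - 3 / 2)) := by ring
        have : 0 ≤ s * (g * (16 * g - 9) + g * 3 * (1 - s) + c1 * (4 * g - 3 / 2)) := by
          refine mul_nonneg hs0 ?_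
          have a1 : 0 ≤ g * (16 * g - 9) := mul_nonneg hg0 (by linarith)
          have a2 : 0 ≤ g * 3 * (1 - s) := mul_nonneg (by positivity) (by linarith)
          have a3 : 0 ≤ c1 * (4 * g - 3 / 2) := mul_nonneg hc0 (by linarith)
          linarith
        linarith
      have h5 : 0 ≤ 2 * c1 ^ 2 := by positivity
      have e : (R ^ 2 - s) * be * (4 * g + c1 + 2 * g * s) =
          -((s - R ^ 2) * be * (4 * g + c1 + 2 * g * s)) := by ring
      rw [e]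
      linarith

/-! ### the run parameters -/

theorem Rb_full {M : ℕ} (hM : 3 ≤ M) : Rb M (M - 1) = 2 / Kp M - 1 := by
  have h1 := RJ_succ M (M - 1) hM (by omega) (by omega)
  have e : M - 1 + 1 = M := by omega
  rw [e] at h1
  have h0 : Rb M M = 0 := by
    have hM0 : (M : ℝ) ≠ 0 := by
      have : 0 < M := by omega
      exact_mod_cast this.ne'
    unfold Rb
    have : (M : ℝ) * (Real.pi / M) / 2 = Real.pi / 2 := by field_simp
    rw [this, Real.cos_pi_div_two, zero_div, mul_zero]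
  have p1 := (RJ_pos M 1 hM le_rfl (by omega)).2 (by omega)
  have p2 := (RJ_pos M (M - 1) hM (by omega) (by omega)).2 (by omega)
  rw [h0] at h1
  have h2 : Rb M 1 * Rb M (M - 1) - SbP (Kp M) = 0 := by
    have hne : Rb M 1 + Rb M (M - 1) ≠ 0 := by positivity
    have := h1.symm
    rw [div_eq_zero_iff] at this
    exact this.resolve_right hne
  have hk := (LNI_Kp hM).1
  rw [RJ_one M hM, SbP] at h2
  have h3 : (1 + 2 / Kp M) * (Rb M (M - 1) - (2 / Kp M - 1)) = 0 := by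
    have : (2 - Kp M) * (2 + Kp M) * (1 / (Kp M * Kp M)) = (1 + 2 / Kp M) * (2 / Kp M - 1) := by
      field_simp
      ring
    rw [this] at h2
    linarith
  rcases mul_eq_zero.1 h3 with h | h
  · have : 0 < 1 + 2 / Kp M := by positivity
    linarith
  · linarith

theorem Rb_le {M : ℕ} (hM : 3 ≤ M) : ∀ j : ℕ, 1 ≤ j → j < M → Rb M j ≤ 2 / Kp M + 1 := by
  intro j hj
  induction j, hj using Nat.le_induction with
  | base => intro _; rw [RJ_one M hM]; linarith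
  | succ j hj ih =>
    intro h
    exact (RJ_anti M j hM hj (by omega)).le.trans (ih (by omega))

theorem Rb_ge {M : ℕ} (hM : 3 ≤ M) (j : ℕ) (hj : 1 ≤ j) (hjM : j < M) :
    2 / Kp M - 1 ≤ Rb M j := by
  have key : ∀ i : ℕ, ∀ j : ℕ, 1 ≤ j → j + i = M - 1 → 2 / Kp M - 1 ≤ Rb M j := by
    intro i
    induction i with
    | zero =>
      intro j hj h
      have : j = M - 1 := by omega
      rw [this, Rb_full hM]
    | succ i ih =>
      intro j hj h
      exact (ih (j + 1) (by omega) (by omega)).trans (RJ_anti M j hM hj (by omega)).le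
  exact key (M - 1 - j) j hj (by omega)

/-! ### thresholds -/

/-- `x0` is at least the three thresholds of `W_A` -/
def HX (p q r : ℕ) (x0 : ℝ) : Prop := ∀ n a b : Fin 3, Dist n a b →
  4 - kk p q r n a ^ 2 - kk p q r n b ^ 2 * kk p q r a b ^ 2 ≤
    x0 * (kk p q r n a * kk p q r n b * kk p q r a b)

theorem HX_of_le {p q r : ℕ} (hp : 3 ≤ p) (hpq : p ≤ q) (hqr : q ≤ r) {x0 : ℝ}
    (hx : xA p q r ≤ x0) : HX p q r x0 := by
  have hq : 3 ≤ q := hp.trans hpq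
  have hr : 3 ≤ r := hq.trans hqr
  have k1 := LNI_Kp hp
  have k2 := LNI_Kp hq
  have k3 := LNI_Kp hr
  have m1 := kap_mono (by omega : 1 ≤ p) hpq
  have m2 := kap_mono (by omega : 1 ≤ q) hqr
  have g1 := Kp_ge1 hp
  have g2 := Kp_ge1 hq
  have g3 := Kp_ge1 hr
  have e01 : kk p q r 0 1 = Kp p := rfl
  have e12 : kk p q r 1 2 = Kp q := rfl
  have e20 : kk p q r 2 0 = Kp r := rfl
  have e10 : kk p q r 1 0 = Kp p := rfl
  have e21 : kk p q r 2 1 = Kp q := rfl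
  have e02 : kk p q r 0 2 = Kp r := rfl
  have hA : 4 - Kp r ^ 2 - Kp p ^ 2 * Kp q ^ 2 ≤ x0 * (Kp p * Kp q * Kp r) := by
    unfold xA at hx
    rw [e01, e12, e20, div_le_iff₀ (mul_pos (mul_pos k1.1 k2.1) k3.1)] at hx
    exact hx
  have b1 : Kp r ^ 2 + Kp p ^ 2 * Kp q ^ 2 ≤ Kp p ^ 2 + Kp r ^ 2 * Kp q ^ 2 := by
    have a1 : 0 ≤ Kp r ^ 2 - Kp p ^ 2 := by nlinarith
    have a2 : 0 ≤ Kp q ^ 2 - 1 := by nlinarith
    nlinarith [mul_nonneg a1 a2]
  have b2 : Kp r ^ 2 + Kp p ^ 2 * Kp q ^ 2 ≤ Kp q ^ 2 + Kp r ^ 2 * Kp p ^ 2 := by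
    have a1 : 0 ≤ Kp r ^ 2 - Kp q ^ 2 := by nlinarith
    have a2 : 0 ≤ Kp p ^ 2 - 1 := by nlinarith
    nlinarith [mul_nonneg a1 a2]
  intro n a b h
  obtain ⟨h1, h2, h3⟩ := h
  fin_cases n <;> fin_cases a <;> fin_cases b <;>
    first
    | exact absurd rfl h1
    | exact absurd rfl h2
    | exact absurd rfl h3
    | (simp only [Fin.zero_eta, Fin.mk_one, Fin.reduceFinMk, e01, e12, e20, e10, e21, e02]
       nlinarith [hA, b1, b2])

theorem HX.one {p q r : ℕ} {x0 : ℝ} (h : HX p q r x0) {n a b : Fin 3} (hd : Dist n a b) :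
    4 - kk p q r a b ^ 2 - kk p q r n a ^ 2 * kk p q r n b ^ 2 ≤
      x0 * (kk p q r n a * kk p q r a b * kk p q r n b) := by
  have h1 := h a b n ⟨hd.2.1, hd.2.2, hd.1⟩
  rw [LNI_kk_symm p q r a n, LNI_kk_symm p q r b n] at h1
  linarith

theorem HX.two {p q r : ℕ} {x0 : ℝ} (h : HX p q r x0) {n a b : Fin 3} (hd : Dist n a b) :
    4 - kk p q r n b ^ 2 - kk p q r n a ^ 2 * kk p q r a b ^ 2 ≤
      x0 * (kk p q r n a * kk p q r a b * kk p q r n b) := by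
  have h1 := h n b a ⟨Ne.symm hd.2.2, Ne.symm hd.2.1, Ne.symm hd.1⟩
  rw [LNI_kk_symm p q r b a] at h1
  linarith

/-- bounds for the core inequality -/
theorem HX.core {p q r : ℕ} (hp : 3 ≤ p) (hq : 3 ≤ q) (hr : 3 ≤ r) {x0 : ℝ} (h : HX p q r x0)
    {s : GS} (hs : DG s) {g c1 c2 : ℝ} (hg : 0 ≤ g) (hc1 : 0 ≤ c1)
    (Y3 : 0 ≤ 8 * g + 2 * c1 + c2)
    (Y2 : 0 ≤ 2 * c1 ^ 2 + 4 * g * ((2 / kk p q r s.1 s.2.1) ^ 2 - 1) * (4 * g + c1) +
      c2 * (4 * g + c1 + 2 * g * ((2 / kk p q r s.1 s.2.1) ^ 2 - 1))) :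
    -2 * x0 * (4 * g * lamS p q r s ^ 2) * (4 * g + 2 * c1) ≤
      lamS p q r s * (8 * g + 2 * c1 + c2) * (4 * g * lamS p q r s ^ 2 + (4 * g + 2 * c1)) := by
  have hl := LNI_lam_pos hp hq hr hs
  obtain ⟨n, a, b⟩ := s
  have hd : Dist n a b := hs
  have k1 := LNI_kk hp hq hr n a hd.1
  have k2 := LNI_kk hp hq hr a b hd.2.1
  have k3 := LNI_kk hp hq hr n b (Ne.symm hd.2.2)
  have x1 := h.one hd
  have x2 := h.two hd
  simp only at Y2
  have hlam : lamS p q r (n, a, b) = 2 * kk p q r a b / (kk p q r n a * kk p q r n b) := rfl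
  rw [hlam] at hl ⊢
  set k := kk p q r n a
  set hh := kk p q r a b
  set h' := kk p q r n b
  have hk0 := k1.1.ne'
  have hh0 := k3.1.ne'
  have e := clo_core (t := 2 / k) (u := hh ^ 2) (v := h' ^ 2) (l := 2 * hh / (k * h')) (X := -x0)
    (g := g) (c1 := c1) (c2 := c2) (by nlinarith) (by nlinarith) (by nlinarith) (by nlinarith) hl
    (by field_simp) (by
      have e1 : 2 * -x0 * (2 * hh / (k * h')) * h' ^ 2 =
          (4 / k ^ 2) * (-(x0 * (k * hh * h'))) := by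
        field_simp
        ring
      have e2 : 4 * h' ^ 2 - (2 / k) ^ 2 * (4 - hh ^ 2) =
          (4 / k ^ 2) * (hh ^ 2 + k ^ 2 * h' ^ 2 - 4) := by
        field_simp
        ring
      rw [e1, e2]
      exact mul_le_mul_of_nonneg_left (by linarith) (by positivity)) (by
      have e1 : 2 * -x0 * (2 * hh / (k * h')) * h' ^ 2 =
          (4 / k ^ 2) * (-(x0 * (k * hh * h'))) := by
        field_simp
        ring
      have e2 : 4 * hh ^ 2 - (2 / k) ^ 2 * (4 - h' ^ 2) =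
          (4 / k ^ 2) * (h' ^ 2 + k ^ 2 * hh ^ 2 - 4) := by
        field_simp
        ring
      rw [e1, e2]
      exact mul_le_mul_of_nonneg_left (by linarith) (by positivity)) hg hc1 Y3 Y2
  have e3 : 2 * -x0 * (4 * g * (2 * hh / (k * h')) ^ 2) * (4 * g + 2 * c1) =
      -2 * x0 * (4 * g * (2 * hh / (k * h')) ^ 2) * (4 * g + 2 * c1) := by ring
  rw [← e3]
  exact e

/-! ### first coordinates of runs -/

theorem RMb_first_odd (p q r : ℕ) (s : GS) {m : ℕ} (hm : m % 2 = 1) (w : ℂ) (v : V3) :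
    (RMb p q r s m w).mulVec v 0 =
      v 0 + 2 * (Rb (mm p q r s.1 s.2.1) (m - 1) : ℂ) * v 1 +
        ((Rb (mm p q r s.1 s.2.1) (m - 1) : ℂ) ^ 2 - (SbP (kk p q r s.1 s.2.1) : ℂ)) * v 2 := by
  unfold RMb
  rw [← Matrix.mulVec_mulVec, Bm_mulVec, show (decide (m % 2 = 1)) = true by simp [hm]]
  simp [Cm, BRv, Matrix.mulVec, dotProduct, Fin.sum_univ_three]

theorem RMb_first_even (p q r : ℕ) (s : GS) {m : ℕ} (hm : m % 2 = 0) (w : ℂ) (v : V3) :
    (RMb p q r s m w).mulVec v 0 =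
      v 0 + 2 * (Rb (mm p q r s.1 s.2.1) (m - 1) : ℂ) * v 1 +
        ((Rb (mm p q r s.1 s.2.1) (m - 1) : ℂ) ^ 2 - (SbP (kk p q r s.1 s.2.1) : ℂ)) * v 2 +
      ((kk p q r s.1 s.2.1 : ℂ) * omS p q r s w / 2 -
        (kk p q r s.1 s.2.1 : ℂ) ^ 2 / (4 * (2 + (kk p q r s.1 s.2.1 : ℂ)))) *
        (((Rb (mm p q r s.1 s.2.1) (m - 1) : ℂ) ^ 2 + (SbP (kk p q r s.1 s.2.1) : ℂ)) * v 0) := by
  unfold RMb
  rw [← Matrix.mulVec_mulVec, Bm_mulVec, show (decide (m % 2 = 1)) = false by simp [hm]]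
  simp [Cm, BRv, Matrix.mulVec, dotProduct, Fin.sum_univ_three]

/-- the phase of a state and its `om` -/
theorem om_rel {p q r : ℕ} (hp : 3 ≤ p) (hq : 3 ≤ q) (hr : 3 ≤ r) {x0 : ℝ} (hx : -2 < x0) {z : ℂ}
    (hz : InX x0 z) {s : GS} (hs : DG s) : ∃ z' : ℂ, InX x0 z' ∧
      (∀ lam : ℝ, 0 < lam → 1 + (lam : ℂ) * z' ≠ 0) ∧
      2 * (1 + (lamS p q r s : ℂ) * z') * omS p q r s (zw z) = 1 := by
  refine ⟨if oriZ s then z else z⁻¹, ?_, fun lam hl => (LNI_om hx hz (oriZ s) lam hl).1, ?_⟩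
  · split_ifs
    · exact hz
    · exact inX_inv hz
  · obtain ⟨h1, h2⟩ := LNI_om hx hz (oriZ s) (lamS p q r s) (LNI_lam_pos hp hq hr hs)
    have h3 : omS p q r s (zw z) = 1 / (2 * (1 + (lamS p q r s : ℂ) *
      (if oriZ s then z else z⁻¹))) := h2
    rw [h3, mul_one_div, div_self (mul_ne_zero two_ne_zero h1)]

/-- facts about the star -/
theorem star_facts {p q r : ℕ} (hp : 3 ≤ p) (hq : 3 ≤ q) (hr : 3 ≤ r) {s : GS} (hs : DG s) {m : ℕ}
    (hm : 2 ≤ m) (hm' : m ≤ mm p q r s.1 s.2.1) :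
    1 ≤ 2 / kk p q r s.1 s.2.1 ∧ 2 / kk p q r s.1 s.2.1 ≤ 2 ∧
    2 / kk p q r s.1 s.2.1 - 1 ≤ Rb (mm p q r s.1 s.2.1) (m - 1) ∧
    Rb (mm p q r s.1 s.2.1) (m - 1) ≤ 2 / kk p q r s.1 s.2.1 + 1 ∧
    0 < Rb (mm p q r s.1 s.2.1) (m - 1) ∧
    SbP (kk p q r s.1 s.2.1) = (2 / kk p q r s.1 s.2.1) ^ 2 - 1 := by
  have hM := LNI_mm hp hq hr s.1 s.2.1 hs.1
  have hk := LNI_kk hp hq hr s.1 s.2.1 hs.1
  have hk1 : 1 ≤ kk p q r s.1 s.2.1 := Kp_ge1 hM
  refine ⟨?_, ?_, Rb_ge hM (m - 1) (by omega) (by omega), Rb_le hM (m - 1) (by omega) (by omega),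
    (RJ_pos _ (m - 1) hM (by omega) (by omega)).2 (by omega), ?_⟩
  · rw [le_div_iff₀ hk.1]; linarith
  · rw [div_le_iff₀ hk.1]; linarith
  · have := hk.1.ne'
    rw [SbP]
    field_simp
    ring

/-- CLOSURE, `Y` chart: the first coordinate of a run applied to `(1, al om, be om (1/2 - om))` -/
theorem clo_Y {p q r : ℕ} (hp : 3 ≤ p) (hq : 3 ≤ q) (hr : 3 ≤ r) {x0 : ℝ} (hx : -2 < x0)
    (h : HX p q r x0) {s : GS} (hs : DG s) {m : ℕ} (hm : 2 ≤ m) (hm' : m ≤ mm p q r s.1 s.2.1)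
    {al be : ℝ} (ha : 0 ≤ al) (hb : 0 ≤ be) (hb2 : be ≤ 3 / 2) {z : ℂ} (hz : InX x0 z) :
    (RMb p q r s m (zw z)).mulVec (rvY al be (omS p q r s (zw z))) 0 ≠ 0 := by
  have hl := LNI_lam_pos hp hq hr hs
  obtain ⟨z', hz', -, hom⟩ := om_rel hp hq hr hx hz hs
  obtain ⟨t1, t2, R1, R2, R0, hS⟩ := star_facts hp hq hr hs hm hm'
  have hk := LNI_kk hp hq hr s.1 s.2.1 hs.1
  rcases Nat.mod_two_eq_zero_or_one m with hpar | hpar
  · -- odd number of crossings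
    have hcore := fun (g c1 : ℝ) => HX.core hp hq hr h hs (g := g) (c1 := c1)
      (c2 := (Rb (mm p q r s.1 s.2.1) (m - 1) ^ 2 - ((2 / kk p q r s.1 s.2.1) ^ 2 - 1)) * be)
    rw [RMb_first_even p q r s hpar, hS]
    set k := kk p q r s.1 s.2.1 with hkd
    set R := Rb (mm p q r s.1 s.2.1) (m - 1) with hRd
    have hk0 := hk.1.ne'
    have ht0 : 0 < 2 / k := by linarith
    have hc1 : 0 < 2 * R * al + (R ^ 2 + ((2 / k) ^ 2 - 1)) / (2 / k) := by
      have : 0 ≤ (2 / k) ^ 2 - 1 := by nlinarith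
      have h1 : 0 < (R ^ 2 + ((2 / k) ^ 2 - 1)) / (2 / k) := by positivity
      have h2 : 0 ≤ 2 * R * al := by positivity
      linarith
    have hgg : (1 - k ^ 2 * (R ^ 2 + ((2 / k) ^ 2 - 1)) / (4 * (2 + k))) *
        (2 * (2 / k) * (2 / k + 1)) = (2 / k + 1) ^ 2 - R ^ 2 := by
      have : 2 + k ≠ 0 := by linarith [hk.1]
      field_simp
      ring
    have hcond : 0 ≤ 1 - k ^ 2 * (R ^ 2 + ((2 / k) ^ 2 - 1)) / (4 * (2 + k)) ∧
        0 ≤ 8 * (1 - k ^ 2 * (R ^ 2 + ((2 / k) ^ 2 - 1)) / (4 * (2 + k))) +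
          2 * (2 * R * al + (R ^ 2 + ((2 / k) ^ 2 - 1)) / (2 / k)) +
          (R ^ 2 - ((2 / k) ^ 2 - 1)) * be ∧
        0 ≤ 2 * (2 * R * al + (R ^ 2 + ((2 / k) ^ 2 - 1)) / (2 / k)) ^ 2 +
          4 * (1 - k ^ 2 * (R ^ 2 + ((2 / k) ^ 2 - 1)) / (4 * (2 + k))) * ((2 / k) ^ 2 - 1) *
            (4 * (1 - k ^ 2 * (R ^ 2 + ((2 / k) ^ 2 - 1)) / (4 * (2 + k))) +
              (2 * R * al + (R ^ 2 + ((2 / k) ^ 2 - 1)) / (2 / k))) +
          (R ^ 2 - ((2 / k) ^ 2 - 1)) * be *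
            (4 * (1 - k ^ 2 * (R ^ 2 + ((2 / k) ^ 2 - 1)) / (4 * (2 + k))) +
              (2 * R * al + (R ^ 2 + ((2 / k) ^ 2 - 1)) / (2 / k)) +
              2 * (1 - k ^ 2 * (R ^ 2 + ((2 / k) ^ 2 - 1)) / (4 * (2 + k))) *
                ((2 / k) ^ 2 - 1)) := by
      rcases Nat.lt_or_ge m 4 with h4 | h4
      · -- `m = 2`
        have hm2 : m = 2 := by omega
        have hR1 : R = 2 / k + 1 := by
          rw [hRd, hm2]
          have := RJ_one (mm p q r s.1 s.2.1) (LNI_mm hp hq hr s.1 s.2.1 hs.1)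
          rw [show (2 - 1 : ℕ) = 1 from rfl, this]
          have : kk p q r s.1 s.2.1 = Kp (mm p q r s.1 s.2.1) := rfl
          rw [hkd, this]
          ring
        have hg0 : 1 - k ^ 2 * (R ^ 2 + ((2 / k) ^ 2 - 1)) / (4 * (2 + k)) = 0 := by
          have hN : (2 * (2 / k) * (2 / k + 1)) ≠ 0 := by positivity
          rw [hR1] at hgg
          rw [hR1]
          have := hgg
          rw [sub_self] at this
          exact (mul_eq_zero.1 this).resolve_right hN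
        have hc2 : 0 ≤ (R ^ 2 - ((2 / k) ^ 2 - 1)) * be := by
          refine mul_nonneg ?_ hb
          rw [hR1]; nlinarith
        rw [hg0]
        refine ⟨le_rfl, by linarith, ?_⟩
        have := mul_nonneg hc2 hc1.le
        have h3 := sq_nonneg (2 * R * al + (R ^ 2 + ((2 / k) ^ 2 - 1)) / (2 / k))
        nlinarith
      · -- order at least four
        have hM4 : 4 ≤ mm p q r s.1 s.2.1 := h4.trans hm'
        have hk4 : 2 ≤ k ^ 2 := by
          have h5 := kap_mono (by norm_num : 1 ≤ 4) hM4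
          have h6 := Kp4_sq
          have h7 := (LNI_Kp (M := 4) (by norm_num)).1
          have h8 : k = Kp (mm p q r s.1 s.2.1) := rfl
          rw [h8]
          nlinarith
        have ht2 : (2 / k) ^ 2 ≤ 2 := by
          rw [div_pow, div_le_iff₀ (by positivity)]
          linarith
        obtain ⟨a1, a2, a3, a4⟩ := clo_odd t1 ht2 R1 R2 ha hb hb2 hgg rfl
        exact ⟨a1, a3, a4⟩
    obtain ⟨g0, Y3, Y2⟩ := hcond
    have hfin := hcore _ _ g0 hc1.le Y3 Y2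
    have hP := refc_poly hl g0 (by linarith) Y3 hx hfin hz' hom
    intro h0
    apply hP
    have k2 : (2 : ℂ) + (k : ℂ) ≠ 0 := by
      have : (0 : ℝ) < 2 + k := by linarith [hk.1]
      exact_mod_cast this.ne'
    have k3 : (k : ℂ) ≠ 0 := by exact_mod_cast hk0
    rw [← h0]
    simp only [rvY, Matrix.cons_val_zero, Matrix.cons_val_one, Matrix.cons_val]
    push_cast
    field_simp
    ring
  · -- even number of crossings
    obtain ⟨Y3, Y2⟩ := clo_even t1 t2 R1 ha hb hb2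
    have hfin := HX.core hp hq hr h hs (g := 1) zero_le_one
      (c1 := 2 * Rb (mm p q r s.1 s.2.1) (m - 1) * al) (by positivity) Y3 Y2
    have hP := refc_poly hl zero_le_one (by positivity) Y3 hx hfin hz' hom
    rw [RMb_first_odd p q r s hpar, hS]
    intro h0
    apply hP
    rw [← h0]
    simp only [rvY, Matrix.cons_val_zero, Matrix.cons_val_one, Matrix.cons_val]
    push_cast
    ring

/-- reference vector which is constant in the `L` chart -/
def rvL (c d : ℝ) (om : ℂ) : V3 :=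
  ![1, (1 / 2 - om) * (c : ℂ) + om * (d : ℂ), (1 / 2 - om) * (c : ℂ)]

theorem rvY_eq (al be : ℝ) (om : ℂ) :
    rvY al be om = (DYm om).mulVec ![1, (al : ℂ), (be : ℂ)] := by
  ext i
  fin_cases i <;> simp [rvY, DYm, Matrix.mulVec, dotProduct, Fin.sum_univ_three] <;> ring

theorem rvL_eq (c d : ℝ) (om : ℂ) :
    rvL c d om = (DLm om).mulVec ![1, (c : ℂ), (d : ℂ)] := by
  ext i
  fin_cases i <;> simp [rvL, DLm, Matrix.mulVec, dotProduct, Fin.sum_univ_three]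

/-- linear functions of `om` -/
theorem clo_lin {x0 : ℝ} {z' om : ℂ} {l b0 b1 : ℝ} (hl : 0 < l)
    (hz : ∀ lam : ℝ, 0 < lam → 1 + (lam : ℂ) * z' ≠ 0) (hom : 2 * (1 + (l : ℂ) * z') * om = 1)
    (h0 : 0 ≤ b0) (h1 : 0 < 2 * b0 + b1) : (b0 : ℂ) + (b1 : ℂ) * om ≠ 0 := by
  intro hP
  have ht := hz l hl
  have key : ((2 * b0 + b1 : ℝ) : ℂ) + ((2 * b0 * l : ℝ) : ℂ) * z' = 0 := by
    have e : ((2 * b0 + b1 : ℝ) : ℂ) + ((2 * b0 * l : ℝ) : ℂ) * z' =
        2 * (1 + (l : ℂ) * z') * ((b0 : ℂ) + (b1 : ℂ) * om) := by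
      push_cast
      linear_combination (-(b1 : ℂ)) * hom
    rw [e, hP, mul_zero]
  rcases h0.lt_or_eq with h | h
  · have h2 := hz (2 * b0 * l / (2 * b0 + b1)) (by positivity)
    apply h2
    have hne : ((2 * b0 + b1 : ℝ) : ℂ) ≠ 0 := by exact_mod_cast h1.ne'
    have e : (1 : ℂ) + ((2 * b0 * l / (2 * b0 + b1) : ℝ) : ℂ) * z' =
        (((2 * b0 + b1 : ℝ) : ℂ) + ((2 * b0 * l : ℝ) : ℂ) * z') / ((2 * b0 + b1 : ℝ) : ℂ) := by
      rw [Complex.ofReal_div, add_div, div_self hne]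
      ring
    rw [e, key, zero_div]
  · rw [← h] at key
    simp only [mul_zero, zero_mul, zero_add, Complex.ofReal_zero, add_zero] at key
    have hne : ((2 * b0 + b1 : ℝ) : ℂ) ≠ 0 := by exact_mod_cast h1.ne'
    apply hne
    rw [← h, mul_zero, zero_add]
    exact key

/-- CLOSURE, `L` chart: no condition -/
theorem clo_L {p q r : ℕ} (hp : 3 ≤ p) (hq : 3 ≤ q) (hr : 3 ≤ r) {x0 : ℝ} (hx : -2 < x0)
    {s : GS} (hs : DG s) {m : ℕ} (hm : 2 ≤ m) (hm' : m ≤ mm p q r s.1 s.2.1)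
    {c d : ℝ} (hc : 0 ≤ c) (hd : 0 ≤ d) {z : ℂ} (hz : InX x0 z) :
    (RMb p q r s m (zw z)).mulVec (rvL c d (omS p q r s (zw z))) 0 ≠ 0 := by
  have hl := LNI_lam_pos hp hq hr hs
  obtain ⟨z', hz', hzl, hom⟩ := om_rel hp hq hr hx hz hs
  obtain ⟨t1, t2, R1, R2, R0, hS⟩ := star_facts hp hq hr hs hm hm'
  have hk := LNI_kk hp hq hr s.1 s.2.1 hs.1
  have hb0 : ∀ R t : ℝ, 1 ≤ t → t - 1 ≤ R → 0 ≤ R + (R ^ 2 - (t ^ 2 - 1)) / 2 := by
    intro R t h1 h2
    nlinarith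
  rcases Nat.mod_two_eq_zero_or_one m with hpar | hpar
  · -- odd number of crossings
    rw [RMb_first_even p q r s hpar, hS]
    set k := kk p q r s.1 s.2.1 with hkd
    set R := Rb (mm p q r s.1 s.2.1) (m - 1) with hRd
    have hk0 := hk.1.ne'
    have hk1 := hk.1
    have ht0 : 0 < 2 / k := by linarith
    have hs0 : 0 ≤ (2 / k) ^ 2 - 1 := by nlinarith
    have hg0 : 0 ≤ 1 - k ^ 2 * (R ^ 2 + ((2 / k) ^ 2 - 1)) / (4 * (2 + k)) := by
      have hgg : (1 - k ^ 2 * (R ^ 2 + ((2 / k) ^ 2 - 1)) / (4 * (2 + k))) *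
          (2 * (2 / k) * (2 / k + 1)) = (2 / k + 1) ^ 2 - R ^ 2 := by
        have : 2 + k ≠ 0 := by linarith
        field_simp
        ring
      have h1 : 0 ≤ (2 / k + 1) ^ 2 - R ^ 2 := by nlinarith
      have hN : 0 < 2 * (2 / k) * (2 / k + 1) := by positivity
      by_contra hneg
      push Not at hneg
      have := mul_neg_of_neg_of_pos hneg hN
      linarith
    have hc0 : 0 ≤ c * (R + (R ^ 2 - ((2 / k) ^ 2 - 1)) / 2) := mul_nonneg hc (hb0 R _ t1 R1)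
    have hW : 0 < k * (R ^ 2 + ((2 / k) ^ 2 - 1)) / 2 := by positivity
    have hRd' : 0 ≤ R * d := by positivity
    have h3 := clo_lin (x0 := x0) (b0 := 1 - k ^ 2 * (R ^ 2 + ((2 / k) ^ 2 - 1)) / (4 * (2 + k)) +
      c * (R + (R ^ 2 - ((2 / k) ^ 2 - 1)) / 2))
      (b1 := 2 * R * (d - c) - (R ^ 2 - ((2 / k) ^ 2 - 1)) * c +
        k * (R ^ 2 + ((2 / k) ^ 2 - 1)) / 2) hl hzl hom (by linarith) (by
        have e : 2 * (1 - k ^ 2 * (R ^ 2 + ((2 / k) ^ 2 - 1)) / (4 * (2 + k)) +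
          c * (R + (R ^ 2 - ((2 / k) ^ 2 - 1)) / 2)) + (2 * R * (d - c) -
          (R ^ 2 - ((2 / k) ^ 2 - 1)) * c + k * (R ^ 2 + ((2 / k) ^ 2 - 1)) / 2) =
          2 * (1 - k ^ 2 * (R ^ 2 + ((2 / k) ^ 2 - 1)) / (4 * (2 + k))) + 2 * (R * d) +
            k * (R ^ 2 + ((2 / k) ^ 2 - 1)) / 2 := by ring
        rw [e]
        linarith)
    intro h0
    apply h3
    have k2 : (2 : ℂ) + (k : ℂ) ≠ 0 := by
      have : (0 : ℝ) < 2 + k := by linarith
      exact_mod_cast this.ne'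
    have k3 : (k : ℂ) ≠ 0 := by exact_mod_cast hk0
    rw [← h0]
    simp only [rvL, Matrix.cons_val_zero, Matrix.cons_val_one, Matrix.cons_val]
    push_cast
    field_simp
    ring
  · rw [RMb_first_odd p q r s hpar, hS]
    set k := kk p q r s.1 s.2.1 with hkd
    set R := Rb (mm p q r s.1 s.2.1) (m - 1) with hRd
    have hc0 : 0 ≤ c * (R + (R ^ 2 - ((2 / k) ^ 2 - 1)) / 2) := mul_nonneg hc (hb0 R _ t1 R1)
    have hRd' : 0 ≤ R * d := by positivity
    have h3 := clo_lin (x0 := x0) (b0 := 1 + c * (R + (R ^ 2 - ((2 / k) ^ 2 - 1)) / 2))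
      (b1 := 2 * R * (d - c) - (R ^ 2 - ((2 / k) ^ 2 - 1)) * c) hl hzl hom (by linarith) (by
        have e : 2 * (1 + c * (R + (R ^ 2 - ((2 / k) ^ 2 - 1)) / 2)) + (2 * R * (d - c) -
          (R ^ 2 - ((2 / k) ^ 2 - 1)) * c) = 2 + 2 * (R * d) := by ring
        rw [e]
        linarith)
    intro h0
    apply h3
    rw [← h0]
    simp only [rvL, Matrix.cons_val_zero, Matrix.cons_val_one, Matrix.cons_val]
    push_cast
    ring

/-- two runs of two letters and one run of three letters have the same pivot -/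
theorem pivot_22 {p q r : ℕ} (hp : 3 ≤ p) (hq : 3 ≤ q) (hr : 3 ≤ r) {s : GS} (hs : DG s) (w : ℂ) :
    ∃ c : ℂ, c ≠ 0 ∧ ∀ v : V3, (RMb p q r (Pool.Agent.Helper21.SUP.nx s 2) 2 w * RMb p q r s 2 w).mulVec v 0 =
      c * omS p q r (Pool.Agent.Helper21.SUP.nx s 2) w * (RMb p q r s 3 w).mulVec v 0 := by
  obtain ⟨R, hR, e⟩ := RMb_two hp hq hr hs w
  obtain ⟨R', hR', e'⟩ := RMb_two hp hq hr (DG_nx s 2 hs) w
  refine ⟨4 * R * R', mul_ne_zero (mul_ne_zero (by norm_num) hR) hR', fun v => ?_⟩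
  rw [RMb_first_odd p q r s (by norm_num : 3 % 2 = 1), show (3 - 1 : ℕ) = 2 from rfl,
    RJ_two _ (LNI_mm hp hq hr s.1 s.2.1 hs.1), e, e', Matrix.smul_mul, Matrix.mul_smul, smul_smul,
    Matrix.smul_mulVec, ← Matrix.mulVec_mulVec]
  simp only [Pi.smul_apply, smul_eq_mul, SS, teS, Matrix.mulVec, dotProduct, Fin.sum_univ_three,
    Matrix.cons_val_zero, Matrix.cons_val_one, Matrix.cons_val, Matrix.of_apply,
    Matrix.cons_val', Matrix.cons_val_fin_one]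
  push_cast
  ring

/-- CLOSURE of `2 2` -/
theorem clo_B2 {p q r : ℕ} (hp : 3 ≤ p) (hq : 3 ≤ q) (hr : 3 ≤ r) {x0 : ℝ} (hx : -2 < x0)
    (h : HX p q r x0) {s : GS} (hs : DG s) {al be : ℝ} (ha : 0 ≤ al) (hb : 0 ≤ be)
    (hb2 : be ≤ 3 / 2) {z : ℂ} (hz : InX x0 z) :
    (gM (RMb p q r) s [2, 2] (zw z)).mulVec (rvY al be (omS p q r s (zw z))) 0 ≠ 0 := by
  have e : gM (RMb p q r) s [2, 2] (zw z) =
      RMb p q r (Pool.Agent.Helper21.SUP.nx s 2) 2 (zw z) * RMb p q r s 2 (zw z) := by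
    show (1 * RMb p q r (Pool.Agent.Helper21.SUP.nx s 2) 2 (zw z)) * RMb p q r s 2 (zw z) = _
    rw [Matrix.one_mul]
  obtain ⟨c, hc, hv⟩ := pivot_22 hp hq hr hs (zw z)
  rw [e, hv]
  refine mul_ne_zero (mul_ne_zero hc ?_) ?_
  · exact (denS_zw hp hq hr hx hz _ (DG_nx s 2 hs)).2.1
  · exact clo_Y hp hq hr hx h hs (by norm_num) (LNI_mm hp hq hr s.1 s.2.1 hs.1) ha hb hb2 hz

/-- every point of the open domain comes from `z` -/
theorem omg_zw {x0 : ℝ} (hx : -2 < x0) {w : ℂ} (hw : w ∈ Omg x0) :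
    ∃ z : ℂ, InX x0 z ∧ zw z = w := by
  have hw' : ‖((x0 + 2 : ℝ) : ℂ) * w ^ 2 - (x0 : ℂ)‖ < 2 := hw
  have h1 : 1 - w ≠ 0 := by
    intro h
    have : w = 1 := by linear_combination -h
    rw [this] at hw'
    have e : ((x0 + 2 : ℝ) : ℂ) * (1 : ℂ) ^ 2 - (x0 : ℂ) = 2 := by push_cast; ring
    rw [e] at hw'
    simp at hw'
  have h2 : 1 + w ≠ 0 := by
    intro h
    have : w = -1 := by linear_combination h
    rw [this] at hw'
    have e : ((x0 + 2 : ℝ) : ℂ) * (-1 : ℂ) ^ 2 - (x0 : ℂ) = 2 := by push_cast; ring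
    rw [e] at hw'
    simp at hw'
  refine ⟨wz w, ⟨div_ne_zero h2 h1, ?_⟩, ?_⟩
  · have h3 := omg_re hx h1 h2
    have h4 : 0 < (x0 + 2) * ((4 - ‖((x0 + 2 : ℝ) : ℂ) * w ^ 2 - (x0 : ℂ)‖ ^ 2) /
        ‖2 - (((x0 + 2 : ℝ) : ℂ) * w ^ 2 - (x0 : ℂ))‖ ^ 2) := by
      have h5 : 0 < ‖2 - (((x0 + 2 : ℝ) : ℂ) * w ^ 2 - (x0 : ℂ))‖ := by
        rw [norm_pos_iff]
        intro h
        have : ((x0 + 2 : ℝ) : ℂ) * w ^ 2 - (x0 : ℂ) = 2 := by linear_combination -h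
        rw [this] at hw'
        simp at hw'
      have h6 : 0 < 4 - ‖((x0 + 2 : ℝ) : ℂ) * w ^ 2 - (x0 : ℂ)‖ ^ 2 := by
        nlinarith [norm_nonneg (((x0 + 2 : ℝ) : ℂ) * w ^ 2 - (x0 : ℂ))]
      have h7 : 0 < x0 + 2 := by linarith
      positivity
    linarith
  · rw [zw, wz]
    have h3 : (1 + w) / (1 - w) + 1 ≠ 0 := by
      have : (1 + w) / (1 - w) + 1 = 2 / (1 - w) := by field_simp; ring
      rw [this]
      exact div_ne_zero two_ne_zero h1
    rw [div_eq_iff h3]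
    field_simp
    ring

end Pool.Agent.Helper6.MONO.CLO
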