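import Pool.Agent.Helper21.CX.REL
import Pool.Agent.Helper21.CX.CLS
import Pool.Agent.Helper6.CX.LNI

/-!
Row MIRI: the mirror symmetry, the cyclic rotation and complex conjugation for the run matrices
`RMb`, and the transport of the certificates `PT` between the labellings of one triangle.
-/

set_option autoImplicit false
noncomputable section
namespace Pool.Agent.Helper21.MIRI

open Complex
open Pool.Agent.Helper6.MONO
open Pool.Agent.Helper21.SUP (GS Sch gM SBlk SSt DG DG_nx rl MmOK nx_rl sD_rl fD_rl okD_rl DG_rl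
  srl gM_rl mmOK_02 mmOK_rot okD_cons sD_cons sD_nil)
open Pool.Agent.Helper21.MIR


/-! ### schemes of two labellings -/

/-- two schemes which correspond to each other -/
structure SRel {τ : Type} (Z Z' : Sch τ) (σ : Equiv.Perm (Fin 3)) : Prop where
  start : ∀ s m, DG s → Z'.start (rl σ s) m = Z.start s m
  cont : ∀ t s m, DG s → Z'.cont t (rl σ s) m = Z.cont t s m

theorem SRel.seg {τ : Type} {Z Z' : Sch τ} {σ : Equiv.Perm (Fin 3)} (hZ : SRel Z Z' σ) :
    ∀ (ms : List ℕ) (t : τ) (s : GS), DG s → Z'.seg t (rl σ s) ms = Z.seg t s ms := by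
  intro ms
  induction ms with
  | nil => intro t s _; rfl
  | cons m ms ih =>
    intro t s hs
    show (match Z'.cont t (rl σ s) m with
      | none => none
      | some t' => Z'.seg t' (Pool.Agent.Helper21.SUP.nx (rl σ s) m) ms) =
      (match Z.cont t s m with
      | none => none
      | some t' => Z.seg t' (Pool.Agent.Helper21.SUP.nx s m) ms)
    rw [hZ.cont t s m hs]
    cases Z.cont t s m with
    | none => rfl
    | some t' =>
      show Z'.seg t' (Pool.Agent.Helper21.SUP.nx (rl σ s) m) ms = Z.seg t' (Pool.Agent.Helper21.SUP.nx s m) ms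
      rw [nx_rl, ih _ _ (DG_nx s m hs)]

theorem SRel.blk {τ : Type} {Z Z' : Sch τ} {σ : Equiv.Perm (Fin 3)} (hZ : SRel Z Z' σ)
    {p q r p' q' r' : ℕ} (hM : MmOK σ p q r p' q' r') {o : Option τ} {f : Bool} {s : GS} {m : ℕ}
    {ms : List ℕ} {t : τ} (hs : DG s) (h : Z.Blk p q r o f s m ms t) :
    Z'.Blk p' q' r' o f (rl σ s) m ms t := by
  obtain ⟨h1, h2, h3⟩ := h
  refine ⟨?_, okD_rl hM _ _ _ h2, ?_⟩
  · intro t₀ ht
    rw [hZ.cont _ _ _ hs]
    exact h1 t₀ ht
  · rw [hZ.start _ _ hs, nx_rl, hZ.seg _ _ _ (DG_nx s m hs)]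
    exact h3

/-- relabelled block -/
def rlB {τ : Type} {Z Z' : Sch τ} {σ : Equiv.Perm (Fin 3)} (hZ : SRel Z Z' σ)
    {p q r p' q' r' : ℕ} (hM : MmOK σ p q r p' q' r') (b : SBlk Z p q r) : SBlk Z' p' q' r' :=
  ⟨b.o, b.f, rl σ b.s, b.m, b.ms, b.t, DG_rl σ b.s b.hs, hZ.blk hM b.hs b.hb⟩

theorem src_rlB {τ : Type} {Z Z' : Sch τ} {σ : Equiv.Perm (Fin 3)} (hZ : SRel Z Z' σ)
    {p q r p' q' r' : ℕ} (hM : MmOK σ p q r p' q' r') (b : SBlk Z p q r) :
    (rlB hZ hM b).src = srl σ b.src := rfl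

theorem runs_rlB {τ : Type} {Z Z' : Sch τ} {σ : Equiv.Perm (Fin 3)} (hZ : SRel Z Z' σ)
    {p q r p' q' r' : ℕ} (hM : MmOK σ p q r p' q' r') (b : SBlk Z p q r) :
    (rlB hZ hM b).runs = b.runs := rfl

theorem tgt_rlB {τ : Type} {Z Z' : Sch τ} {σ : Equiv.Perm (Fin 3)} (hZ : SRel Z Z' σ)
    {p q r p' q' r' : ℕ} (hM : MmOK σ p q r p' q' r') (b : SBlk Z p q r) :
    (rlB hZ hM b).tgt = srl σ b.tgt := by
  show (sD (rl σ b.s) b.runs, Pool.Agent.Helper21.SUP.fD p' q' r' b.f (rl σ b.s) b.runs,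
    some b.t) =
    (rl σ (sD b.s b.runs), Pool.Agent.Helper21.SUP.fD p q r b.f b.s b.runs, some b.t)
  rw [sD_rl, fD_rl hM]

/-! ### transport of the certificates -/

/-- treatments which correspond to each other, from the point `w` to the point `w'` -/
def TRel {B B' : Type} (ψ : B' → B) (w w' : ℂ) : TR B → TR B' → Prop
  | TR.ref r, TR.ref r' => r' w' = r w
  | TR.self g, TR.self g' => g' w' = g w
  | TR.comp c g, TR.comp c' g' => c = ψ c' ∧ g' w' = g w
  | _, _ => False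

/-- TRANSPORT BY RELABELLING: the certificate of the class `(p', q', r')` at `w` gives the
certificate of the class `(p, q, r)` at `w'`. -/
theorem pt_rl {τ : Type} {Z Z' : Sch τ} {σ : Equiv.Perm (Fin 3)} (hZ : SRel Z Z' σ)
    {p q r p' q' r' : ℕ} (hM : MmOK σ p q r p' q' r')
    {RM RM' : GS → ℕ → ℂ → Matrix (Fin 3) (Fin 3) ℂ} {w w' : ℂ}
    (hR : ∀ s m, DG s → RM s m w' = RM' (rl σ s) m w)
    {Start Start' : SSt τ → (ℂ → Fin 3 → ℂ) → Prop}
    (hS : ∀ s v, Start s v → ∃ v', Start' (srl σ s) v' ∧ v w' = v' w)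
    {K : SBlk Z p q r → TR (SBlk Z p q r)} {K' : SBlk Z' p' q' r' → TR (SBlk Z' p' q' r')}
    (hK : ∀ b, TRel (rlB hZ hM) w w' (K' (rlB hZ hM b)) (K b)) {C : ℝ}
    (h : PT SBlk.src SBlk.tgt (fun b w => gM RM' b.s b.runs w) Start' K' C w) :
    PT SBlk.src SBlk.tgt (fun b w => gM RM b.s b.runs w) Start K C w' := by
  refine pt_pull (C := C) (srl σ) (rlB hZ hM) (fun b => src_rlB hZ hM b)
    (fun b => tgt_rlB hZ hM b) (fun _ => 1) (fun _ => 1) (fun _ => one_ne_zero) ?_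
    (fun _ => 1) (fun _ => one_ne_zero) ?_ ?_ ?_ ?_ h
  · intro s v
    rw [Matrix.one_mulVec, one_mul]
  · intro b
    rw [Matrix.one_mul, one_smul, Matrix.mul_one]
    exact gM_rl (RM := RM') (RM' := RM) DG DG_nx hR b.runs b.s b.hs
  · intro s v hv
    obtain ⟨v₀, h1, h2⟩ := hS s v hv
    exact ⟨v₀, h1, 1, one_ne_zero, by rw [Matrix.one_mulVec, one_smul, h2]⟩
  · intro b
    have hb := hK b
    revert hb
    cases hk : K' (rlB hZ hM b) with
    | ref r =>
      cases hk' : K b with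
      | ref r' =>
        intro hb
        have hb' : r' w' = r w := hb
        exact ⟨1, one_ne_zero, by rw [Matrix.one_mulVec, one_smul, hb']⟩
      | self g' => exact fun hb => absurd hb id
      | comp c' g' => exact fun hb => absurd hb id
    | self g =>
      cases hk' : K b with
      | ref r' => exact fun hb => absurd hb id
      | self g' =>
        intro hb
        have hb' : g' w' = g w := hb
        show g' w' * 1 = 1 * 1 * g w
        rw [hb']
        ring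
      | comp c' g' => exact fun hb => absurd hb id
    | comp c g =>
      cases hk' : K b with
      | ref r' => exact fun hb => absurd hb id
      | self g' => exact fun hb => absurd hb id
      | comp c' g' =>
        rintro ⟨h1, h2⟩
        refine ⟨h1, rfl, ?_⟩
        show g' w' * 1 * 1 = 1 * 1 * g w
        rw [h2]
        ring
  · intro s v hv j
    have := hv j
    rw [Matrix.one_mulVec] at this
    exact this

/-! ### the run matrices -/

theorem omW_neg (o : Bool) (lam : ℝ) (w : ℂ) : omW o lam (-w) = omW (!o) lam w := by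
  cases o
  · simp only [omW, Bool.false_eq_true, if_false, Bool.not_false, if_true, sub_neg_eq_add]
    rw [← sub_eq_add_neg]
  · simp only [omW, Bool.not_true, Bool.false_eq_true, if_false, if_true, sub_neg_eq_add]
    rw [← sub_eq_add_neg]

theorem omW_conj (o : Bool) (lam : ℝ) (w : ℂ) :
    omW o lam (starRingEnd ℂ w) = starRingEnd ℂ (omW o lam w) := by
  cases o <;> simp [omW, map_ofNat]

theorem kk_rl {σ : Equiv.Perm (Fin 3)} {p q r p' q' r' : ℕ} (hM : MmOK σ p q r p' q' r')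
    (i j : Fin 3) : kk p' q' r' (σ i) (σ j) = kk p q r i j := by
  show Kp (mm p' q' r' (σ i) (σ j)) = Kp (mm p q r i j)
  rw [hM]

theorem lamS_rl {σ : Equiv.Perm (Fin 3)} {p q r p' q' r' : ℕ} (hM : MmOK σ p q r p' q' r')
    (s : GS) : lamS p' q' r' (rl σ s) = lamS p q r s := by
  show 2 * kk p' q' r' (σ s.2.1) (σ s.2.2) /
    (kk p' q' r' (σ s.1) (σ s.2.1) * kk p' q' r' (σ s.1) (σ s.2.2)) = _
  rw [kk_rl hM, kk_rl hM, kk_rl hM]
  rfl

theorem oriZ_02 (s : GS) (h : DG s) : oriZ (rl (Equiv.swap 0 2) s) = !oriZ s := by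
  obtain ⟨n, a, b⟩ := s
  obtain ⟨h1, h2, h3⟩ := h
  simp only at h1 h2 h3
  revert n a b
  decide

theorem oriZ_r (s : GS) : oriZ (rl (Equiv.addRight (1 : Fin 3)) s) = oriZ s := by
  obtain ⟨n, a, b⟩ := s
  revert n a b
  decide

theorem omS_02 (p q r : ℕ) (s : GS) (h : DG s) (w : ℂ) :
    omS p q r s (-w) = omS q p r (rl (Equiv.swap 0 2) s) w := by
  unfold omS
  rw [omW_neg, oriZ_02 s h, lamS_rl (mmOK_02 p q r)]

theorem omS_rot (p q r : ℕ) (s : GS) (w : ℂ) :
    omS p q r s w = omS r p q (rl (Equiv.addRight (1 : Fin 3)) s) w := by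
  unfold omS
  rw [oriZ_r s, lamS_rl (mmOK_rot p q r)]

/-- MIRROR SYMMETRY of the run matrices -/
theorem RMb_02 (p q r : ℕ) (s : GS) (m : ℕ) (h : DG s) (w : ℂ) :
    RMb p q r s m (-w) = RMb q p r (rl (Equiv.swap 0 2) s) m w := by
  unfold RMb
  rw [omS_02 p q r s h, omS_02 p q r _ (DG_nx s m h), ← nx_rl]
  have h1 : kk q p r (rl (Equiv.swap 0 2) s).1 (rl (Equiv.swap 0 2) s).2.1 =
      kk p q r s.1 s.2.1 := kk_rl (mmOK_02 p q r) _ _
  have h2 : mm q p r (rl (Equiv.swap 0 2) s).1 (rl (Equiv.swap 0 2) s).2.1 =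
      mm p q r s.1 s.2.1 := mmOK_02 p q r _ _
  rw [h1, h2]

/-- CYCLIC ROTATION of the run matrices -/
theorem RMb_rot (p q r : ℕ) (s : GS) (m : ℕ) (w : ℂ) :
    RMb p q r s m w = RMb r p q (rl (Equiv.addRight (1 : Fin 3)) s) m w := by
  unfold RMb
  rw [omS_rot p q r s, omS_rot p q r (Pool.Agent.Helper21.SUP.nx s m), ← nx_rl]
  have h1 : kk r p q (rl (Equiv.addRight (1 : Fin 3)) s).1
      (rl (Equiv.addRight (1 : Fin 3)) s).2.1 = kk p q r s.1 s.2.1 := kk_rl (mmOK_rot p q r) _ _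
  have h2 : mm r p q (rl (Equiv.addRight (1 : Fin 3)) s).1
      (rl (Equiv.addRight (1 : Fin 3)) s).2.1 = mm p q r s.1 s.2.1 := mmOK_rot p q r _ _
  rw [h1, h2]

/-- entries conjugate -/
def CM (A A' : Matrix (Fin 3) (Fin 3) ℂ) : Prop := ∀ i j, A' i j = starRingEnd ℂ (A i j)

theorem CM.mul {A A' B B' : Matrix (Fin 3) (Fin 3) ℂ} (hA : CM A A') (hB : CM B B') :
    CM (A * B) (A' * B') := by
  intro i j
  simp only [Matrix.mul_apply, map_sum, map_mul]
  exact Finset.sum_congr rfl fun k _ => by rw [hA, hB]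

theorem CM.one : CM 1 1 := by
  intro i j
  by_cases h : i = j
  · subst h; simp
  · simp [Matrix.one_apply_ne h]

theorem CM_Bm (k R : ℝ) : CM (Bm k R) (Bm k R) := by
  intro i j
  fin_cases i <;> fin_cases j <;> simp [Bm, map_ofNat]

theorem CM_Cm (od : Bool) (k : ℝ) (om om' : ℂ) :
    CM (Cm od k om om') (Cm od k (starRingEnd ℂ om) (starRingEnd ℂ om')) := by
  intro i j
  cases od <;> fin_cases i <;> fin_cases j <;> simp [Cm, map_ofNat]

theorem RMb_conj (p q r : ℕ) (s : GS) (m : ℕ) (w : ℂ) :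
    CM (RMb p q r s m w) (RMb p q r s m (starRingEnd ℂ w)) := by
  unfold RMb omS
  rw [omW_conj, omW_conj]
  exact (CM_Cm _ _ _ _).mul (CM_Bm _ _)

theorem gM_conj {RM : GS → ℕ → ℂ → Matrix (Fin 3) (Fin 3) ℂ} {w w' : ℂ}
    (h : ∀ s m, CM (RM s m w) (RM s m w')) :
    ∀ (ms : List ℕ) (s : GS), CM (gM RM s ms w) (gM RM s ms w') := by
  intro ms
  induction ms with
  | nil => intro s; exact CM.one
  | cons m ms ih =>
    intro s
    show CM (gM RM (Pool.Agent.Helper21.SUP.nx s m) ms w * RM s m w) (gM RM (Pool.Agent.Helper21.SUP.nx s m) ms w' * RM s m w')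
    exact (ih _).mul (h s m)

/-- the matrices of the superblocks are compatible with conjugation -/
theorem gM_RMb_conj (p q r : ℕ) (s : GS) (ms : List ℕ) (w : ℂ) (i j : Fin 3) :
    gM (RMb p q r) s ms (starRingEnd ℂ w) i j = starRingEnd ℂ (gM (RMb p q r) s ms w i j) :=
  gM_conj (fun s m => RMb_conj p q r s m w) ms s i j

/-! ### both halves of the upper arc -/

/-- the upper half of the critical line for the class `(p, q, r)`, from the quarters `re ≥ 0` of the
classes `(p, q, r)` and `(q, p, r)` -/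
theorem pt_two {τ : Type} {Z Z' : Sch τ} (hZ : SRel Z Z' (Equiv.swap 0 2)) {p q r : ℕ}
    {RM RM' : GS → ℕ → ℂ → Matrix (Fin 3) (Fin 3) ℂ} {x0 : ℝ}
    (hR : ∀ s m, DG s → ∀ w ∈ Frt x0, RM s m (-w) = RM' (rl (Equiv.swap 0 2) s) m w)
    {Start Start' : SSt τ → (ℂ → Fin 3 → ℂ) → Prop}
    (hS : ∀ s v, Start s v → ∃ v', Start' (srl (Equiv.swap 0 2) s) v' ∧
      ∀ w ∈ Frt x0, v (-w) = v' w)
    {K : SBlk Z p q r → TR (SBlk Z p q r)} {K' : SBlk Z' q p r → TR (SBlk Z' q p r)}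
    (hK : ∀ b, ∀ w ∈ Frt x0, TRel (rlB hZ (mmOK_02 p q r)) w (-w)
      (K' (rlB hZ (mmOK_02 p q r) b)) (K b)) {C : ℝ}
    (hc : ConjOK (fun (b : SBlk Z p q r) w => gM RM b.s b.runs w) Start K x0)
    (h1 : ∀ w ∈ Frt x0, 0 ≤ w.im → 0 ≤ w.re →
      PT SBlk.src SBlk.tgt (fun (b : SBlk Z p q r) w => gM RM b.s b.runs w) Start K C w)
    (h2 : ∀ w ∈ Frt x0, 0 ≤ w.im → 0 ≤ w.re →
      PT SBlk.src SBlk.tgt (fun (b : SBlk Z' q p r) w => gM RM' b.s b.runs w) Start' K' C w) :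
    ∀ w ∈ Frt x0, 0 ≤ w.im →
      PT SBlk.src SBlk.tgt (fun (b : SBlk Z p q r) w => gM RM b.s b.runs w) Start K C w := by
  refine pt_upper hc h1 fun w hw hi hr => ?_
  refine pt_rl hZ (mmOK_02 p q r) (fun s m hs => hR s m hs w hw) ?_ (fun b => hK b w hw)
    (h2 w hw hi hr)
  intro s v hv
  obtain ⟨v', h3, h4⟩ := hS s v hv
  exact ⟨v', h3, h4 w hw⟩

end Pool.Agent.Helper21.MIRI
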