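import Pool.Agent.Helper17.C75.Kp3
import Pool.Agent.Helper90.CX.KM1

/-!
Row KCE, part A: the congruences `FE`, `FO`, `fin4`, `finc` of the kernel checker compute, modulo
`2 ^ 2304`, integer forms; with `rng9` and an a priori bound they are these integer forms.
-/

set_option autoImplicit false
noncomputable section
namespace Pool.Agent.Helper21.KCE

open Pool.Agent.Helper86.CX
open Pool.Agent.Helper86.C75 (Z)
open Pool.Agent.Helper17.PAK (EncP Rep Bd kz k9_enc rep_NG)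
open Pool.Agent.Helper90.KMO (zv)

/-! ### residues -/

/-- `x` represents the integer `i` modulo `2 ^ 2304` -/
abbrev Rp (x : ℕ) (i : ℤ) : Prop := Rep MM x i

theorem Rp.add {x y : ℕ} {i j : ℤ} (hx : Rp x i) (hy : Rp y j) : Rp (Nat.add x y) (i + j) :=
  Rep.add hx hy

theorem Rp.mul {x y : ℕ} {i j : ℤ} (hx : Rp x i) (hy : Rp y j) : Rp (Nat.mul x y) (i * j) :=
  Rep.mul hx hy

theorem Rp.neg {x : ℕ} {i : ℤ} (hx : Rp x i) : Rp (Nat.mul NG x) (-i) := by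
  have h := Rp.mul rep_NG hx
  have e : (-1 : ℤ) * i = -i := by ring
  rw [e] at h
  exact h

theorem Rp.nat (x : ℕ) : Rp x (x : ℤ) := Rep.nat MM x

theorem Rp.md {x : ℕ} {i : ℤ} (hx : Rp x i) : Rp (Helper86.CX.md x) i := Rep.mod hx

theorem toM_rep (x : Z) : Rp (toM x) (zv x) := by
  cases x with
  | p n => exact Rp.nat n
  | m n => exact (Rp.nat n).neg

/-- all nine numbers represent the integers -/
structure RepP (P : P9) (I : Hm ℤ) : Prop where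
  a : Rp P.a I.a
  b : Rp P.b I.b
  c : Rp P.c I.c
  d : Rp P.d I.d
  e : Rp P.e I.e
  f : Rp P.f I.f
  g : Rp P.g I.g
  h : Rp P.h I.h
  i : Rp P.i I.i

theorem RepP.enc {P : P9} {I : Hm ℤ} (h : RepP P I) : EncP P I :=
  ⟨h.a, h.b, h.c, h.d, h.e, h.f, h.g, h.h, h.i⟩

theorem k9_rep (K : ℕ) : RepP (k9 K) (kz K) := by
  obtain ⟨a, b, c, d, e, f, g, h, i⟩ := k9_enc K
  exact ⟨a, b, c, d, e, f, g, h, i⟩

/-! ### operations on forms -/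

def addI (I J : Hm ℤ) : Hm ℤ :=
  ⟨I.a + J.a, I.b + J.b, I.c + J.c, I.d + J.d, I.e + J.e, I.f + J.f, I.g + J.g, I.h + J.h,
    I.i + J.i⟩

def subI (I J : Hm ℤ) : Hm ℤ :=
  ⟨I.a - J.a, I.b - J.b, I.c - J.c, I.d - J.d, I.e - J.e, I.f - J.f, I.g - J.g, I.h - J.h,
    I.i - J.i⟩

theorem padd_rep {P Q : P9} {I J : Hm ℤ} (hP : RepP P I) (hQ : RepP Q J) :
    RepP (padd P Q) (addI I J) :=
  ⟨hP.a.add hQ.a, hP.b.add hQ.b, hP.c.add hQ.c, hP.d.add hQ.d, hP.e.add hQ.e, hP.f.add hQ.f,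
    hP.g.add hQ.g, hP.h.add hQ.h, hP.i.add hQ.i⟩

theorem psub_rep {P Q : P9} {I J : Hm ℤ} (hP : RepP P I) (hQ : RepP Q J) :
    RepP (psub P Q) (subI I J) :=
  ⟨hP.a.add hQ.a.neg, hP.b.add hQ.b.neg, hP.c.add hQ.c.neg, hP.d.add hQ.d.neg,
    hP.e.add hQ.e.neg, hP.f.add hQ.f.neg, hP.g.add hQ.g.neg, hP.h.add hQ.h.neg,
    hP.i.add hQ.i.neg⟩

/-- integer coefficients of the congruence -/
structure CI where
  w : ℤ
  c2r : ℤ
  c2i : ℤ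
  c3r : ℤ
  c3i : ℤ
  er : ℤ
  ei : ℤ
  n22 : ℤ
  n33 : ℤ
  nee : ℤ
  mr : ℤ
  mi : ℤ
  pr : ℤ
  pi : ℤ
  qr : ℤ
  qi : ℤ

structure RepC (c : CV) (I : CI) : Prop where
  w : Rp c.w I.w
  c2r : Rp c.c2r I.c2r
  c2i : Rp c.c2i I.c2i
  c3r : Rp c.c3r I.c3r
  c3i : Rp c.c3i I.c3i
  er : Rp c.er I.er
  ei : Rp c.ei I.ei
  n22 : Rp c.n22 I.n22
  n33 : Rp c.n33 I.n33
  nee : Rp c.nee I.nee
  mr : Rp c.mr I.mr
  mi : Rp c.mi I.mi
  pr : Rp c.pr I.pr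
  pi : Rp c.pi I.pi
  qr : Rp c.qr I.qr
  qi : Rp c.qi I.qi

/-- even congruence, integers -/
def FEi (c : CI) (K : Hm ℤ) : Hm ℤ :=
  ⟨c.w * K.a, c.n22 * K.b, c.n33 * K.c,
    c.c2r * K.d + -(c.c2i * K.e), c.c2r * K.e + c.c2i * K.d,
    c.c3r * K.f + -(c.c3i * K.g), c.c3r * K.g + c.c3i * K.f,
    c.mr * K.h + -(c.mi * K.i), c.mr * K.i + c.mi * K.h⟩

/-- odd congruence, integers -/
def FOi (c : CI) (K : Hm ℤ) : Hm ℤ :=
  ⟨c.w * K.a, c.n22 * K.b,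
    c.nee * K.a + c.n33 * K.c + 2 * (c.qr * K.f + -(c.qi * K.g)),
    c.c2r * K.d + -(c.c2i * K.e), c.c2r * K.e + c.c2i * K.d,
    c.er * K.a + c.c3r * K.f + -(c.c3i * K.g),
    c.ei * K.a + c.c3r * K.g + c.c3i * K.f,
    c.pr * K.d + c.pi * K.e + c.mr * K.h + -(c.mi * K.i),
    c.pi * K.d + -(c.pr * K.e) + c.mr * K.i + c.mi * K.h⟩

theorem FE_rep {c : CV} {I : CI} {P : P9} {K : Hm ℤ} (hc : RepC c I) (hP : RepP P K) :
    RepP (FE c P) (FEi I K) := by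
  refine ⟨hc.w.mul hP.a, hc.n22.mul hP.b, hc.n33.mul hP.c, ?_, ?_, ?_, ?_, ?_, ?_⟩
  · exact (hc.c2r.mul hP.d).add (hc.c2i.mul hP.e).neg
  · exact (hc.c2r.mul hP.e).add (hc.c2i.mul hP.d)
  · exact (hc.c3r.mul hP.f).add (hc.c3i.mul hP.g).neg
  · exact (hc.c3r.mul hP.g).add (hc.c3i.mul hP.f)
  · exact (hc.mr.mul hP.h).add (hc.mi.mul hP.i).neg
  · exact (hc.mr.mul hP.i).add (hc.mi.mul hP.h)

theorem FO_rep {c : CV} {I : CI} {P : P9} {K : Hm ℤ} (hc : RepC c I) (hP : RepP P K) :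
    RepP (FO c P) (FOi I K) := by
  refine ⟨hc.w.mul hP.a, hc.n22.mul hP.b, ?_, ?_, ?_, ?_, ?_, ?_, ?_⟩
  · exact ((hc.nee.mul hP.a).add (hc.n33.mul hP.c)).add
      ((Rp.nat 2).mul ((hc.qr.mul hP.f).add (hc.qi.mul hP.g).neg))
  · exact (hc.c2r.mul hP.d).add (hc.c2i.mul hP.e).neg
  · exact (hc.c2r.mul hP.e).add (hc.c2i.mul hP.d)
  · exact ((hc.er.mul hP.a).add (hc.c3r.mul hP.f)).add (hc.c3i.mul hP.g).neg
  · exact ((hc.ei.mul hP.a).add (hc.c3r.mul hP.g)).add (hc.c3i.mul hP.f)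
  · exact (((hc.pr.mul hP.d).add (hc.pi.mul hP.e)).add (hc.mr.mul hP.h)).add
      (hc.mi.mul hP.i).neg
  · exact (((hc.pi.mul hP.d).add (hc.pr.mul hP.e).neg).add (hc.mr.mul hP.i)).add
      (hc.mi.mul hP.h)

/-- `4 P - E` -/
def fin4i (E : E3) (P : Hm ℤ) : Hm ℤ :=
  ⟨4 * P.a + -(E.x : ℤ), 4 * P.b + -(E.y : ℤ), 4 * P.c + -(E.z : ℤ), 4 * P.d, 4 * P.e, 4 * P.f,
    4 * P.g, 4 * P.h, 4 * P.i⟩

/-- `2 P - Q - E` -/
def finci (E : E3) (P Q : Hm ℤ) : Hm ℤ :=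
  ⟨2 * P.a + -(Q.a + E.x), 2 * P.b + -(Q.b + E.y), 2 * P.c + -(Q.c + E.z), 2 * P.d + -Q.d,
    2 * P.e + -Q.e, 2 * P.f + -Q.f, 2 * P.g + -Q.g, 2 * P.h + -Q.h, 2 * P.i + -Q.i⟩

theorem fin4_rep {E : E3} {P : P9} {K : Hm ℤ} (hP : RepP P K) :
    RepP (fin4 E P) (fin4i E K) :=
  ⟨(((Rp.nat 4).mul hP.a).add (Rp.nat _).neg).md, (((Rp.nat 4).mul hP.b).add (Rp.nat _).neg).md,
    (((Rp.nat 4).mul hP.c).add (Rp.nat _).neg).md, ((Rp.nat 4).mul hP.d).md,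
    ((Rp.nat 4).mul hP.e).md, ((Rp.nat 4).mul hP.f).md, ((Rp.nat 4).mul hP.g).md,
    ((Rp.nat 4).mul hP.h).md, ((Rp.nat 4).mul hP.i).md⟩

theorem finc_rep {E : E3} {P Q : P9} {K L : Hm ℤ} (hP : RepP P K) (hQ : RepP Q L) :
    RepP (finc E P Q) (finci E K L) :=
  ⟨(((Rp.nat 2).mul hP.a).add (hQ.a.add (Rp.nat _)).neg).md,
    (((Rp.nat 2).mul hP.b).add (hQ.b.add (Rp.nat _)).neg).md,
    (((Rp.nat 2).mul hP.c).add (hQ.c.add (Rp.nat _)).neg).md,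
    (((Rp.nat 2).mul hP.d).add hQ.d.neg).md, (((Rp.nat 2).mul hP.e).add hQ.e.neg).md,
    (((Rp.nat 2).mul hP.f).add hQ.f.neg).md, (((Rp.nat 2).mul hP.g).add hQ.g.neg).md,
    (((Rp.nat 2).mul hP.h).add hQ.h.neg).md, (((Rp.nat 2).mul hP.i).add hQ.i.neg).md⟩

/-! ### from residues to integers -/

theorem MM_big : (2 : ℤ) ^ 201 + 1 ≤ MM := by
  have h : Nat.ble (2 ^ 201 + 1) MM = true := rfl
  have h2 := Nat.le_of_ble_eq_true h
  exact_mod_cast h2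

theorem Rp.small {x : ℕ} {i : ℤ} (hx : Rp x i) (hi : |i| ≤ 2 ^ 200)
    (hr : rng x = true) : |i| ≤ 2 ^ 76 := by
  have hr' : Nat.ble (Helper86.CX.md (Nat.add x (nat_lit 75557863725914323419136)))
    (nat_lit 151115727451828646838272) = true := hr
  have h1 := Nat.le_of_ble_eq_true hr'
  have h2 : Rp (Helper86.CX.md (Nat.add x (nat_lit 75557863725914323419136)))
      (i + 75557863725914323419136) := (hx.add (Rp.nat _)).md
  generalize Helper86.CX.md (Nat.add x (nat_lit 75557863725914323419136)) = y at h1 h2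
  have h3 : ((y : ℤ)) ≡ (i + 75557863725914323419136) [ZMOD (MM : ℤ)] := h2
  obtain ⟨k, hk⟩ := h3.dvd
  have hMM := MM_big
  have hi' := abs_le.1 hi
  have h5 : (y : ℤ) ≤ 151115727451828646838272 := by exact_mod_cast h1
  have h6 : (0 : ℤ) ≤ y := Int.natCast_nonneg y
  have hk0 : k = 0 := by
    by_contra hne
    rcases lt_or_gt_of_ne hne with h | h
    · have h4 : (MM : ℤ) * k ≤ MM * (-1) :=
        mul_le_mul_of_nonneg_left (by omega) (by linarith [pow_pos (two_pos : (0:ℤ) < 2) 201])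
      rw [← hk] at h4
      norm_num at hMM hi' h4
      linarith [hi'.1]
    · have h4 : (MM : ℤ) * 1 ≤ MM * k :=
        mul_le_mul_of_nonneg_left (by omega) (by linarith [pow_pos (two_pos : (0:ℤ) < 2) 201])
      rw [← hk] at h4
      norm_num at hMM hi' h4
      linarith [hi'.2]
  rw [hk0, mul_zero] at hk
  rw [abs_le]
  norm_num
  constructor <;> linarith

end Pool.Agent.Helper21.KCE
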