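import Pool.Agent.Helper21.CX.KCD

/-!
Row KCE, part F: the control forms computed by the checker (with the diagonal errors) are below
`4 UU C^* K C`, for the even and for the odd congruence.
-/

set_option autoImplicit false
noncomputable section
namespace Pool.Agent.Helper21.KCE

open Pool.Agent.Helper86.CX
open Pool.Agent.Helper86.C75 (Z)
open Pool.Agent.Helper90.C75 (Wts avg wq pq avg_re avg_im avg_smul avg_add)
open Pool.Agent.Helper90.KMO
open Pool.Agent.Helper17.PAK (EncP Rep Bd kz k9_enc sc nrm ev_lin)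
open Complex ComplexConjugate

variable {n : ℕ} {wc : Fin n → ℝ} {t : ℝ}

/-- the form of the table at a vertex, integer units -/
def Kt (n : ℕ) (L : List K2) (v : Fin n × Fin 3) : Hm ℝ :=
  ⟨Gr n L 0 v, Gr n L 32 v, Gr n L 64 v, Gr n L 96 v, Gr n L 128 v, Gr n L 160 v, Gr n L 192 v,
    Gr n L 224 v, Gr n L 256 v⟩

/-- the form of the table at the point -/
def KP (n : ℕ) (wc : Fin n → ℝ) (t : ℝ) (L : List K2) : Hm ℝ := avH (wq wc t) (Kt n L)

theorem avg_GR (w : Fin n × Fin 3 → ℝ) (L : List K2) (j : ℕ) :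
    avg w (GR n L j) = ((∑ v, w v * Gr n L j v : ℝ) : ℂ) := by
  unfold avg GR
  push_cast
  rfl

theorem avg_Gc (w : Fin n × Fin 3 → ℝ) (L : List K2) (j j' : ℕ) :
    avg w (Gc n L j j') = ((∑ v, w v * Gr n L j v : ℝ) : ℂ) +
      ((∑ v, w v * Gr n L j' v : ℝ) : ℂ) * I := by
  apply Complex.ext
  · rw [avg_re]
    simp [Gc]
  · rw [avg_im]
    simp [Gc]

theorem ev_mkH (a b c : ℝ) (x y w : ℂ) (v : Fin 3 → ℂ) :
    ev (mkH a b c x y w) v = a * normSq (v 0) + b * normSq (v 1) + c * normSq (v 2) +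
      2 * (conj (v 0) * x * v 1).re + 2 * (conj (v 0) * y * v 2).re +
      2 * (conj (v 1) * w * v 2).re := by
  have key : ∀ z : ℂ, ((z.re : ℝ) : ℂ) + ((z.im : ℝ) : ℂ) * I = z := fun z => Complex.re_add_im z
  simp only [ev, mkH, key]

theorem ev_mkH_smul (r : ℝ) (a b c : ℝ) (x y w : ℂ) (v : Fin 3 → ℂ) :
    r * ev (mkH a b c x y w) v =
      ev (mkH (r * a) (r * b) (r * c) ((r : ℂ) * x) ((r : ℂ) * y) ((r : ℂ) * w)) v := by
  rw [ev_mkH, ev_mkH]
  have e : ∀ p q s : ℂ, (conj p * ((r : ℂ) * q) * s).re = r * (conj p * q * s).re := by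
    intro p q s
    have : conj p * ((r : ℂ) * q) * s = (r : ℂ) * (conj p * q * s) := by ring
    rw [this, Complex.re_ofReal_mul]
  rw [e, e, e]
  ring

/-- GENERAL COMPARISON -/
theorem hat_gen {w : Fin n × Fin 3 → ℝ} (hw : ∑ v, w v = 1) {Q : Fin n × Fin 3 → Hm ℤ} {E : E3}
    {Ga : Fin n × Fin 3 → ℝ} {Hb Hc Hx Hy Hw : Fin n × Fin 3 → ℂ}
    (ha : ∀ v, (((Q v).a : ℤ) : ℝ) = 4 * UU * Ga v - E.x)
    (hb : ∀ v, (((Q v).b : ℤ) : ℝ) = (Hb v).re - E.y)
    (hc : ∀ v, (((Q v).c : ℤ) : ℝ) = (Hc v).re - E.z)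
    (hx : ∀ v, cx (Q v).d (Q v).e = Hx v) (hy : ∀ v, cx (Q v).f (Q v).g = Hy v)
    (hww : ∀ v, cx (Q v).h (Q v).i = Hw v)
    {b c : ℝ} {x y u : ℂ} {r1 r2 s1 s2 s3 : ℝ}
    (eb : |b - (avg w Hb).re| ≤ r1) (ec : |c - (avg w Hc).re| ≤ r2) (ex : ‖x - avg w Hx‖ ≤ s1)
    (ey : ‖y - avg w Hy‖ ≤ s2) (eu : ‖u - avg w Hw‖ ≤ s3)
    (Ex : s1 + s2 ≤ E.x) (Ey : s1 + r1 + s3 ≤ E.y) (Ez : s2 + s3 + r2 ≤ E.z) (z : Fin 3 → ℂ) :
    ∑ v, w v * ev (sc 1 (Q v)) z ≤ ev (mkH (4 * UU * ∑ v, w v * Ga v) b c x y u) z := by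
  rw [← ev_avH]
  have e1 : avH w (fun v => sc 1 (Q v)) = mkH (4 * UU * (∑ v, w v * Ga v) - E.x)
      ((avg w Hb).re - E.y) ((avg w Hc).re - E.z) (avg w Hx) (avg w Hy) (avg w Hw) := by
    have f1 : ∀ (g : Fin n × Fin 3 → ℝ) (c : ℝ), ∑ v, w v * (g v - c) = (∑ v, w v * g v) - c := by
      intro g c
      simp only [mul_sub, Finset.sum_sub_distrib]
      rw [← Finset.sum_mul, hw, one_mul]
    have f2 : ∑ v, w v * (4 * UU * Ga v) = 4 * UU * ∑ v, w v * Ga v := by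
      rw [Finset.mul_sum]
      exact Finset.sum_congr rfl fun v _ => by ring
    simp only [avH, mkH, sc, div_one, Hm.mk.injEq, avg_re, avg_im]
    refine ⟨?_, ?_, ?_, ?_, ?_, ?_, ?_, ?_, ?_⟩
    · rw [← f2, ← f1]
      exact Finset.sum_congr rfl fun v _ => by rw [ha]
    · rw [← f1]
      exact Finset.sum_congr rfl fun v _ => by rw [hb]
    · rw [← f1]
      exact Finset.sum_congr rfl fun v _ => by rw [hc]
    · exact Finset.sum_congr rfl fun v _ => by rw [← hx]; rfl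
    · exact Finset.sum_congr rfl fun v _ => by rw [← hx]; rfl
    · exact Finset.sum_congr rfl fun v _ => by rw [← hy]; rfl
    · exact Finset.sum_congr rfl fun v _ => by rw [← hy]; rfl
    · exact Finset.sum_congr rfl fun v _ => by rw [← hww]; rfl
    · exact Finset.sum_congr rfl fun v _ => by rw [← hww]; rfl
  rw [e1]
  refine le_trans ?_ (ev_close (a := 4 * UU * ∑ v, w v * Ga v) eb ec ex ey eu z)
  rw [ev_mkH, ev_mkH]
  have n0 := Complex.normSq_nonneg (z 0)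
  have n1 := Complex.normSq_nonneg (z 1)
  have n2 := Complex.normSq_nonneg (z 2)
  nlinarith [mul_le_mul_of_nonneg_right Ex n0, mul_le_mul_of_nonneg_right Ey n1,
    mul_le_mul_of_nonneg_right Ez n2]

section odd

variable (hn : 0 < n) (hw : Wts wc) (h0 : 0 ≤ t) (h1 : t ≤ 1)
include hn hw h0 h1

/-- real part of an error -/
theorem rr_re {f : ℂ} {M : Mo} {S : S3} {G : Fin n × Fin 3 → ℂ} (hf : MOK n wc t f M)
    (hS : SOK n S G) :
    |(4 * ((UU : ℂ) * f * avg (wq wc t) G)).re - (avg (wq wc t) (fun v => 4 * pq (Fv n M.v) G v)).re|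
      ≤ rr (r3 M) S := by
  have h := rr_err hw h0 h1 hf hS
  rw [← Complex.sub_re]
  exact (Complex.abs_re_le_norm _).trans h

theorem star_avg_Gc (L : List K2) (j j' : ℕ) :
    avg (wq wc t) (fun v => star (Gc n L j j' v)) = conj (avg (wq wc t) (Gc n L j j')) :=
  Pool.Agent.Helper90.C75.avg_star _ _

theorem hat_odd {x y e : ℂ} {c2 c3 ce c22 c33 cee m p q : Mo}
    (h : OOK n wc t x y e c2 c3 ce c22 c33 cee m p q) {L : List K2} (hL : L.length = n)
    (z : Fin 3 → ℂ) :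
    ∑ v, wq wc t v * ev (sc 1 (QV n (EO ⟨r3 c2, r3 c3, r3 ce, r3 c22, r3 c33, r3 cee, r3 m, r3 p,
      r3 q⟩ (mkRK n L)) ⟨c2.v, c3.v, ce.v, c22.v, c33.v, cee.v, m.v, p.v, q.v⟩ L v)) z ≤
      4 * UU * ev (CK (KP n wc t L) e x y) z := by
  have Ra := stR_ok hn 0 hL
  have Rb := stR_ok hn 32 hL
  have Rc := stR_ok hn 64 hL
  have Rx := stC_ok hn 96 128 hL
  have Ry := stC_ok hn 160 192 hL
  have Rw := stC_ok hn 224 256 hL
  have Ax := avg_Gc (wq wc t) L 96 128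
  have Ay := avg_Gc (wq wc t) L 160 192
  have Aw := avg_Gc (wq wc t) L 224 256
  have Aa := avg_GR (wq wc t) L 0
  have Ab := avg_GR (wq wc t) L 32
  have Ac := avg_GR (wq wc t) L 64
  have eKx : (KP n wc t L).x = avg (wq wc t) (Gc n L 96 128) := Ax.symm
  have eKy : (KP n wc t L).y = avg (wq wc t) (Gc n L 160 192) := Ay.symm
  have eKw : (KP n wc t L).w = avg (wq wc t) (Gc n L 224 256) := Aw.symm
  have eKa : (((KP n wc t L).a : ℝ) : ℂ) = avg (wq wc t) (GR n L 0) := Aa.symm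
  have eKb : (((KP n wc t L).b : ℝ) : ℂ) = avg (wq wc t) (GR n L 32) := Ab.symm
  have eKc : (((KP n wc t L).c : ℝ) : ℂ) = avg (wq wc t) (GR n L 64) := Ac.symm
  have eCK : 4 * UU * ev (CK (KP n wc t L) e x y) z = ev (mkH (4 * UU * ∑ v, wq wc t v * Gr n L 0 v)
      (4 * UU * ((KP n wc t L).b * normSq x)) (4 * UU * ((KP n wc t L).a * normSq e +
        (KP n wc t L).c * normSq y + 2 * (conj e * (KP n wc t L).y * y).re))
      (((4 * UU : ℝ) : ℂ) * ((KP n wc t L).x * x))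
      (((4 * UU : ℝ) : ℂ) * ((KP n wc t L).a * e + (KP n wc t L).y * y))
      (((4 * UU : ℝ) : ℂ) * (conj (KP n wc t L).x * e * conj x + (KP n wc t L).w * conj x * y))) z := by
    unfold CK
    rw [ev_mkH_smul]
    rfl
  rw [eCK]
  have b1 := rr_re hn hw h0 h1 h.n22 Rb
  have b2 := rr_re hn hw h0 h1 h.n33 Rc
  have b3 := rr_re hn hw h0 h1 h.nee Ra
  have b4 := rr_re hn hw h0 h1 h.q Ry
  have b5 := rr_err hw h0 h1 h.c2 Rx
  have b6 := rr_err hw h0 h1 h.c3 Ry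
  have b7 := rr_err hw h0 h1 h.fe Ra
  have b8 := rr_err hw h0 h1 h.m Rw
  have b9 := rr_err hw h0 h1 h.p Rx.conj
  set E := EO ⟨r3 c2, r3 c3, r3 ce, r3 c22, r3 c33, r3 cee, r3 m, r3 p, r3 q⟩ (mkRK n L) with hE
  set l : L9 := ⟨c2.v, c3.v, ce.v, c22.v, c33.v, cee.v, m.v, p.v, q.v⟩ with hl
  have pax : ∀ v : Fin n × Fin 3, PP (gv l.x v.1) gx (g2 L v.1) v.2 =
      4 * pq (Fv n c2.v) (Gc n L 96 128) v := fun v =>
    PP_eq l.x L adv_x (Gc_mid n L 96 128) (fun i => rfl) (fun i => rfl) v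
  have pay : ∀ v : Fin n × Fin 3, PP (gv l.y v.1) gy (g2 L v.1) v.2 =
      4 * pq (Fv n c3.v) (Gc n L 160 192) v := fun v =>
    PP_eq l.y L adv_y (Gc_mid n L 160 192) (fun i => rfl) (fun i => rfl) v
  have pae : ∀ v : Fin n × Fin 3, PP (gv l.e v.1) ga (g2 L v.1) v.2 =
      4 * pq (Fv n ce.v) (GR n L 0) v := fun v =>
    PP_eq l.e L adv_a (GR_mid L 0) (fun i => (GR_0 L 0 i).symm) (fun i => (GR_2 L 0 i).symm) v
  have pac : ∀ v : Fin n × Fin 3, PP (gv l.c v.1) gw (g2 L v.1) v.2 =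
      4 * pq (Fv n m.v) (Gc n L 224 256) v := fun v =>
    PP_eq l.c L adv_w (Gc_mid n L 224 256) (fun i => rfl) (fun i => rfl) v
  have pag : ∀ v : Fin n × Fin 3, PP (gv l.g v.1) gx' (g2 L v.1) v.2 =
      4 * pq (Fv n p.v) (fun v => star (Gc n L 96 128 v)) v := fun v => by
    refine PP_eq l.g L adv_x' (fun i => ?_) (fun i => ?_) (fun i => ?_) v
    · rw [Gc_mid]
      simp
    · rw [Gc_0]
      apply Complex.ext
      · rfl
      · simp only [gx', cx]
        push_cast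
        rfl
    · rw [Gc_2]
      apply Complex.ext
      · rfl
      · simp only [gx', cx]
        push_cast
        rfl
  have pah : ∀ v : Fin n × Fin 3, PP (gv l.h v.1) gy (g2 L v.1) v.2 =
      4 * pq (Fv n q.v) (Gc n L 160 192) v := fun v =>
    PP_eq l.h L adv_y (Gc_mid n L 160 192) (fun i => rfl) (fun i => rfl) v
  have paa : ∀ v : Fin n × Fin 3, PP (gv l.a v.1) gb (g2 L v.1) v.2 =
      4 * pq (Fv n c22.v) (GR n L 32) v := fun v =>
    PP_eq l.a L adv_b (GR_mid L 32) (fun i => (GR_0 L 32 i).symm) (fun i => (GR_2 L 32 i).symm) v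
  have pab : ∀ v : Fin n × Fin 3, PP (gv l.b v.1) gc (g2 L v.1) v.2 =
      4 * pq (Fv n c33.v) (GR n L 64) v := fun v =>
    PP_eq l.b L adv_c (GR_mid L 64) (fun i => (GR_0 L 64 i).symm) (fun i => (GR_2 L 64 i).symm) v
  have pad : ∀ v : Fin n × Fin 3, PP (gv l.d v.1) ga (g2 L v.1) v.2 =
      4 * pq (Fv n cee.v) (GR n L 0) v := fun v =>
    PP_eq l.d L adv_a (GR_mid L 0) (fun i => (GR_0 L 0 i).symm) (fun i => (GR_2 L 0 i).symm) v
  refine hat_gen (hw.q h0 h1).sum (Q := fun v => QV n E l L v) (E := E)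
    (Ga := Gr n L 0)
    (Hb := fun v => 4 * pq (Fv n c22.v) (GR n L 32) v)
    (Hc := fun v => 4 * pq (Fv n c33.v) (GR n L 64) v + 4 * pq (Fv n cee.v) (GR n L 0) v +
      2 * (4 * pq (Fv n q.v) (Gc n L 160 192) v))
    (Hx := fun v => 4 * pq (Fv n c2.v) (Gc n L 96 128) v)
    (Hy := fun v => 4 * pq (Fv n ce.v) (GR n L 0) v + 4 * pq (Fv n c3.v) (Gc n L 160 192) v)
    (Hw := fun v => 4 * pq (Fv n p.v) (fun v => star (Gc n L 96 128 v)) v +
      4 * pq (Fv n m.v) (Gc n L 224 256) v)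
    (fun v => QV_a E l L v) (fun v => ?_) (fun v => ?_) (fun v => ?_) (fun v => ?_) (fun v => ?_)
    (r1 := rr (r3 c22) (stR n 32 L))
    (r2 := rr (r3 c33) (stR n 64 L) + rr (r3 cee) (stR n 0 L) + 2 * rr (r3 q) (stC n 160 192 L))
    (s1 := rr (r3 c2) (stC n 96 128 L))
    (s2 := rr (r3 ce) (stR n 0 L) + rr (r3 c3) (stC n 160 192 L))
    (s3 := rr (r3 p) (stC n 96 128 L) + rr (r3 m) (stC n 224 256 L)) ?_ ?_ ?_ ?_ ?_ ?_ ?_ ?_ z
  · rw [← paa]; exact Q3_b E _ _ _ _ _ _ _ _ _ _ _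
  · rw [← pab, ← pad, ← pah]; exact Q3_c E _ _ _ _ _ _ _ _ _ _ _
  · rw [← pax]; exact Q3_x E _ _ _ _ _ _ _ _ _ _ _
  · rw [← pae, ← pay]; exact Q3_y E _ _ _ _ _ _ _ _ _ _ _
  · rw [← pag, ← pac]; exact Q3_w E _ _ _ _ _ _ _ _ _ _ _
  · -- b
    have e : (4 * ((UU : ℂ) * (x * star x) * avg (wq wc t) (fun v => ((Gr n L 32 v : ℝ) : ℂ)))).re =
        4 * UU * ((KP n wc t L).b * normSq x) := by
      have e1 : (4 * ((UU : ℂ) * (x * star x) * avg (wq wc t) (fun v => ((Gr n L 32 v : ℝ) : ℂ)))) =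
          ((4 * UU * ((KP n wc t L).b * normSq x) : ℝ) : ℂ) := by
        have e2 : avg (wq wc t) (fun v => ((Gr n L 32 v : ℝ) : ℂ)) = avg (wq wc t) (GR n L 32) := rfl
        rw [e2, ← eKb]
        have e3 : x * star x = ((normSq x : ℝ) : ℂ) := Complex.mul_conj x
        rw [e3]
        push_cast
        ring
      rw [e1, Complex.ofReal_re]
    rw [← e]
    exact b1
  · -- c
    have e : (4 * ((UU : ℂ) * (y * star y) * avg (wq wc t) (fun v => ((Gr n L 64 v : ℝ) : ℂ)))).re +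
        (4 * ((UU : ℂ) * (e * star e) * avg (wq wc t) (fun v => ((Gr n L 0 v : ℝ) : ℂ)))).re +
        2 * (4 * ((UU : ℂ) * (star e * y) * avg (wq wc t) (Gc n L 160 192))).re =
        4 * UU * ((KP n wc t L).a * normSq e + (KP n wc t L).c * normSq y +
          2 * (conj e * (KP n wc t L).y * y).re) := by
      have e2 : avg (wq wc t) (fun v => ((Gr n L 64 v : ℝ) : ℂ)) = avg (wq wc t) (GR n L 64) := rfl
      have e2' : avg (wq wc t) (fun v => ((Gr n L 0 v : ℝ) : ℂ)) = avg (wq wc t) (GR n L 0) := rfl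
      have e3 : y * star y = ((normSq y : ℝ) : ℂ) := Complex.mul_conj y
      have e3' : e * star e = ((normSq e : ℝ) : ℂ) := Complex.mul_conj e
      rw [e2, e2', ← eKc, ← eKa, e3, e3', ← eKy]
      have f1 : (4 * ((UU : ℂ) * ((normSq y : ℝ) : ℂ) * (((KP n wc t L).c : ℝ) : ℂ))).re =
          4 * (UU * normSq y * (KP n wc t L).c) := by
        have : (4 * ((UU : ℂ) * ((normSq y : ℝ) : ℂ) * (((KP n wc t L).c : ℝ) : ℂ))) =
          ((4 * (UU * normSq y * (KP n wc t L).c) : ℝ) : ℂ) := by push_cast; ring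
        rw [this, Complex.ofReal_re]
      have f2 : (4 * ((UU : ℂ) * ((normSq e : ℝ) : ℂ) * (((KP n wc t L).a : ℝ) : ℂ))).re =
          4 * (UU * normSq e * (KP n wc t L).a) := by
        have : (4 * ((UU : ℂ) * ((normSq e : ℝ) : ℂ) * (((KP n wc t L).a : ℝ) : ℂ))) =
          ((4 * (UU * normSq e * (KP n wc t L).a) : ℝ) : ℂ) := by push_cast; ring
        rw [this, Complex.ofReal_re]
      have f3 : (4 * ((UU : ℂ) * (star e * y) * (KP n wc t L).y)).re =
          4 * UU * (conj e * (KP n wc t L).y * y).re := by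
        have : (4 * ((UU : ℂ) * (star e * y) * (KP n wc t L).y)) =
          ((4 * UU : ℝ) : ℂ) * (conj e * (KP n wc t L).y * y) := by
          push_cast
          rw [Complex.star_def]
          ring
        rw [this, Complex.re_ofReal_mul]
      rw [f1, f2, f3]
      ring
    rw [← e]
    have f4 : (avg (wq wc t) (fun v => 4 * pq (Fv n c33.v) (GR n L 64) v +
        4 * pq (Fv n cee.v) (GR n L 0) v + 2 * (4 * pq (Fv n q.v) (Gc n L 160 192) v))).re =
        (avg (wq wc t) (fun v => 4 * pq (Fv n c33.v) (GR n L 64) v)).re +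
        (avg (wq wc t) (fun v => 4 * pq (Fv n cee.v) (GR n L 0) v)).re +
        2 * (avg (wq wc t) (fun v => 4 * pq (Fv n q.v) (Gc n L 160 192) v)).re := by
      have g0 := avg_smul (wq wc t) 2 (fun v => 4 * pq (Fv n q.v) (Gc n L 160 192) v)
      rw [avg_add, avg_add, g0]
      simp
    rw [f4]
    have c2' := abs_le.1 b2
    have c3' := abs_le.1 b3
    have c4' := abs_le.1 b4
    have g1 : avg (wq wc t) (fun v => 4 * pq (Fv n c33.v) (fun v => ((Gr n L 64 v : ℝ) : ℂ)) v) =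
      avg (wq wc t) (fun v => 4 * pq (Fv n c33.v) (GR n L 64) v) := rfl
    have g2 : avg (wq wc t) (fun v => 4 * pq (Fv n cee.v) (fun v => ((Gr n L 0 v : ℝ) : ℂ)) v) =
      avg (wq wc t) (fun v => 4 * pq (Fv n cee.v) (GR n L 0) v) := rfl
    rw [g1] at c2'
    rw [g2] at c3'
    rw [abs_le]
    constructor
    · linarith [c2'.1, c3'.1, c4'.1]
    · linarith [c2'.2, c3'.2, c4'.2]
  · -- x
    have e : ((4 * UU : ℝ) : ℂ) * ((KP n wc t L).x * x) =
        4 * ((UU : ℂ) * x * avg (wq wc t) (Gc n L 96 128)) := by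
      rw [eKx]
      push_cast
      ring
    rw [e]
    exact b5
  · -- y
    have e : ((4 * UU : ℝ) : ℂ) * ((KP n wc t L).a * e + (KP n wc t L).y * y) =
        4 * ((UU : ℂ) * e * avg (wq wc t) (GR n L 0)) +
        4 * ((UU : ℂ) * y * avg (wq wc t) (Gc n L 160 192)) := by
      rw [eKy, eKa]
      push_cast
      ring
    rw [e, avg_add, add_sub_add_comm]
    exact (norm_add_le _ _).trans (add_le_add b7 b6)
  · -- w
    have e : ((4 * UU : ℝ) : ℂ) * (conj (KP n wc t L).x * e * conj x +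
        (KP n wc t L).w * conj x * y) =
        4 * ((UU : ℂ) * (star x * e) * avg (wq wc t) (fun v => star (Gc n L 96 128 v))) +
        4 * ((UU : ℂ) * (star x * y) * avg (wq wc t) (Gc n L 224 256)) := by
      rw [star_avg_Gc hn hw h0 h1, eKw, eKx, Complex.star_def]
      push_cast
      ring
    rw [e, avg_add, add_sub_add_comm]
    exact (norm_add_le _ _).trans (add_le_add b9 b8)
  · -- Ex
    have e : ((E.x : ℕ) : ℝ) = rr (r3 c2) (stC n 96 128 L) +
        (rr (r3 c3) (stC n 160 192 L) + rr (r3 ce) (stR n 0 L)) := by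
      show ((Nat.add _ (Nat.add _ _) : ℕ) : ℝ) = _
      rw [c_add, c_add]
      rfl
    rw [e]
    linarith
  · have e : ((E.y : ℕ) : ℝ) = rr (r3 c2) (stC n 96 128 L) + rr (r3 c22) (stR n 32 L) +
        (rr (r3 m) (stC n 224 256 L) + rr (r3 p) (stC n 96 128 L)) := by
      show ((Nat.add (Nat.add _ _) (Nat.add _ _) : ℕ) : ℝ) = _
      rw [c_add, c_add, c_add]
      rfl
    rw [e]
    linarith
  · have e : ((E.z : ℕ) : ℝ) = (rr (r3 c3) (stC n 160 192 L) + rr (r3 ce) (stR n 0 L)) +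
        (rr (r3 m) (stC n 224 256 L) + rr (r3 p) (stC n 96 128 L)) + rr (r3 c33) (stR n 64 L) +
        rr (r3 cee) (stR n 0 L) + 2 * rr (r3 q) (stC n 160 192 L) := by
      show ((Nat.add (Nat.add (Nat.add (Nat.add (Nat.add _ _) (Nat.add _ _)) _) _)
        (Nat.mul (nat_lit 2) _) : ℕ) : ℝ) = _
      rw [c_add, c_add, c_add, c_add, c_add, c_add, c_mul]
      rfl
    rw [e]
    linarith

theorem cz_zero3 : cz zero3.a = 0 ∧ cz zero3.c = 0 ∧ cz (csub zero3.b zero3.a) = 0 ∧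
    cz zero3.b = 0 := by
  have h : cz ⟨Z.p (nat_lit 0), Z.p (nat_lit 0)⟩ = 0 := by
    apply Complex.ext <;> simp [cz, zv]
  refine ⟨h, h, ?_, h⟩
  rw [cz_sub]
  have h1 : cz zero3.b = 0 := h
  have h2 : cz zero3.a = 0 := h
  rw [h1, h2, sub_zero]

omit hn hw h0 h1 in
theorem PP_zero (g : Hm ℤ → ℂ) (T : K2) (j : Fin 3) : PP zero3 g T j = 0 := by
  have ha : cz zero3.a = 0 := by apply Complex.ext <;> simp [cz, zv, zero3]
  have hc : cz zero3.c = 0 := by apply Complex.ext <;> simp [cz, zv, zero3]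
  have hb : cz zero3.b = 0 := by apply Complex.ext <;> simp [cz, zv, zero3]
  fin_cases j
  · show 4 * (cz zero3.a * g (kz T.s)) = 0
    rw [ha]; ring
  · show 2 * (cz zero3.c * g _) - cz (csub zero3.b zero3.a) * g _ = 0
    rw [cz_sub, ha, hb, hc]; ring
  · show 4 * (cz zero3.b * g (kz T.t)) = 0
    rw [hb]; ring

theorem hat_even {x y : ℂ} {c2 c3 c22 c33 m : Mo}
    (h : EOK n wc t x y c2 c3 c22 c33 m) {L : List K2} (hL : L.length = n)
    (z : Fin 3 → ℂ) :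
    ∑ v, wq wc t v * ev (sc 1 (QV n (EE ⟨r3 c2, r3 c3, z3, r3 c22, r3 c33, z3, r3 m, z3,
      z3⟩ (mkRK n L)) ⟨c2.v, c3.v, [], c22.v, c33.v, [], m.v, [], []⟩ L v)) z ≤
      4 * UU * ev (CK (KP n wc t L) 0 x y) z := by
  have Rb := stR_ok hn 32 hL
  have Rc := stR_ok hn 64 hL
  have Rx := stC_ok hn 96 128 hL
  have Ry := stC_ok hn 160 192 hL
  have Rw := stC_ok hn 224 256 hL
  have Ax := avg_Gc (wq wc t) L 96 128
  have Ay := avg_Gc (wq wc t) L 160 192
  have Aw := avg_Gc (wq wc t) L 224 256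
  have Ab := avg_GR (wq wc t) L 32
  have Ac := avg_GR (wq wc t) L 64
  have eKx : (KP n wc t L).x = avg (wq wc t) (Gc n L 96 128) := Ax.symm
  have eKy : (KP n wc t L).y = avg (wq wc t) (Gc n L 160 192) := Ay.symm
  have eKw : (KP n wc t L).w = avg (wq wc t) (Gc n L 224 256) := Aw.symm
  have eKb : (((KP n wc t L).b : ℝ) : ℂ) = avg (wq wc t) (GR n L 32) := Ab.symm
  have eKc : (((KP n wc t L).c : ℝ) : ℂ) = avg (wq wc t) (GR n L 64) := Ac.symm
  have eCK : 4 * UU * ev (CK (KP n wc t L) 0 x y) z = ev (mkH (4 * UU * ∑ v, wq wc t v * Gr n L 0 v)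
      (4 * UU * ((KP n wc t L).b * normSq x)) (4 * UU * ((KP n wc t L).c * normSq y))
      (((4 * UU : ℝ) : ℂ) * ((KP n wc t L).x * x))
      (((4 * UU : ℝ) : ℂ) * ((KP n wc t L).y * y))
      (((4 * UU : ℝ) : ℂ) * ((KP n wc t L).w * conj x * y))) z := by
    unfold CK
    rw [ev_mkH_smul]
    simp only [map_zero, mul_zero, zero_mul, zero_add, add_zero, Complex.zero_re]
    rfl
  rw [eCK]
  have b1 := rr_re hn hw h0 h1 h.n22 Rb
  have b2 := rr_re hn hw h0 h1 h.n33 Rc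
  have b5 := rr_err hw h0 h1 h.c2 Rx
  have b6 := rr_err hw h0 h1 h.c3 Ry
  have b8 := rr_err hw h0 h1 h.m Rw
  set E := EE ⟨r3 c2, r3 c3, z3, r3 c22, r3 c33, z3, r3 m, z3, z3⟩ (mkRK n L) with hE
  set l : L9 := ⟨c2.v, c3.v, [], c22.v, c33.v, [], m.v, [], []⟩ with hl
  have pz : ∀ (g : Hm ℤ → ℂ) (v : Fin n × Fin 3), PP (gv [] v.1) g (g2 L v.1) v.2 = 0 :=
    fun g v => PP_zero g _ _
  have pax : ∀ v : Fin n × Fin 3, PP (gv l.x v.1) gx (g2 L v.1) v.2 =
      4 * pq (Fv n c2.v) (Gc n L 96 128) v := fun v =>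
    PP_eq l.x L adv_x (Gc_mid n L 96 128) (fun i => rfl) (fun i => rfl) v
  have pay : ∀ v : Fin n × Fin 3, PP (gv l.y v.1) gy (g2 L v.1) v.2 =
      4 * pq (Fv n c3.v) (Gc n L 160 192) v := fun v =>
    PP_eq l.y L adv_y (Gc_mid n L 160 192) (fun i => rfl) (fun i => rfl) v
  have pac : ∀ v : Fin n × Fin 3, PP (gv l.c v.1) gw (g2 L v.1) v.2 =
      4 * pq (Fv n m.v) (Gc n L 224 256) v := fun v =>
    PP_eq l.c L adv_w (Gc_mid n L 224 256) (fun i => rfl) (fun i => rfl) v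
  have paa : ∀ v : Fin n × Fin 3, PP (gv l.a v.1) gb (g2 L v.1) v.2 =
      4 * pq (Fv n c22.v) (GR n L 32) v := fun v =>
    PP_eq l.a L adv_b (GR_mid L 32) (fun i => (GR_0 L 32 i).symm) (fun i => (GR_2 L 32 i).symm) v
  have pab : ∀ v : Fin n × Fin 3, PP (gv l.b v.1) gc (g2 L v.1) v.2 =
      4 * pq (Fv n c33.v) (GR n L 64) v := fun v =>
    PP_eq l.b L adv_c (GR_mid L 64) (fun i => (GR_0 L 64 i).symm) (fun i => (GR_2 L 64 i).symm) v
  refine hat_gen (hw.q h0 h1).sum (Q := fun v => QV n E l L v) (E := E)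
    (Ga := Gr n L 0)
    (Hb := fun v => 4 * pq (Fv n c22.v) (GR n L 32) v)
    (Hc := fun v => 4 * pq (Fv n c33.v) (GR n L 64) v)
    (Hx := fun v => 4 * pq (Fv n c2.v) (Gc n L 96 128) v)
    (Hy := fun v => 4 * pq (Fv n c3.v) (Gc n L 160 192) v)
    (Hw := fun v => 4 * pq (Fv n m.v) (Gc n L 224 256) v)
    (fun v => QV_a E l L v) (fun v => ?_) (fun v => ?_) (fun v => ?_) (fun v => ?_) (fun v => ?_)
    (r1 := rr (r3 c22) (stR n 32 L)) (r2 := rr (r3 c33) (stR n 64 L))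
    (s1 := rr (r3 c2) (stC n 96 128 L)) (s2 := rr (r3 c3) (stC n 160 192 L))
    (s3 := rr (r3 m) (stC n 224 256 L)) ?_ ?_ ?_ ?_ ?_ ?_ ?_ ?_ z
  · rw [← paa]; exact Q3_b E _ _ _ _ _ _ _ _ _ _ _
  · have e := Q3_c E (gv l.x v.1) (gv l.y v.1) (gv l.e v.1) (gv l.a v.1) (gv l.b v.1) (gv l.d v.1)
      (gv l.c v.1) (gv l.g v.1) (gv l.h v.1) (g2 L v.1) v.2
    have e2 := pz ga v
    have e3 := pz gy v
    rw [← pab]
    rw [show PP (gv l.d v.1) ga (g2 L v.1) v.2 = 0 from e2,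
      show PP (gv l.h v.1) gy (g2 L v.1) v.2 = 0 from e3, mul_zero, add_zero, add_zero] at e
    exact e
  · rw [← pax]; exact Q3_x E _ _ _ _ _ _ _ _ _ _ _
  · have e := Q3_y E (gv l.x v.1) (gv l.y v.1) (gv l.e v.1) (gv l.a v.1) (gv l.b v.1) (gv l.d v.1)
      (gv l.c v.1) (gv l.g v.1) (gv l.h v.1) (g2 L v.1) v.2
    rw [← pay]
    rw [show PP (gv l.e v.1) ga (g2 L v.1) v.2 = 0 from pz ga v, zero_add] at e
    exact e
  · have e := Q3_w E (gv l.x v.1) (gv l.y v.1) (gv l.e v.1) (gv l.a v.1) (gv l.b v.1) (gv l.d v.1)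
      (gv l.c v.1) (gv l.g v.1) (gv l.h v.1) (g2 L v.1) v.2
    rw [← pac]
    rw [show PP (gv l.g v.1) gx' (g2 L v.1) v.2 = 0 from pz gx' v, zero_add] at e
    exact e
  · -- b
    have e : (4 * ((UU : ℂ) * (x * star x) * avg (wq wc t) (fun v => ((Gr n L 32 v : ℝ) : ℂ)))).re =
        4 * UU * ((KP n wc t L).b * normSq x) := by
      have e1 : (4 * ((UU : ℂ) * (x * star x) * avg (wq wc t) (fun v => ((Gr n L 32 v : ℝ) : ℂ)))) =
          ((4 * UU * ((KP n wc t L).b * normSq x) : ℝ) : ℂ) := by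
        have e2 : avg (wq wc t) (fun v => ((Gr n L 32 v : ℝ) : ℂ)) = avg (wq wc t) (GR n L 32) := rfl
        rw [e2, ← eKb]
        have e3 : x * star x = ((normSq x : ℝ) : ℂ) := Complex.mul_conj x
        rw [e3]
        push_cast
        ring
      rw [e1, Complex.ofReal_re]
    rw [← e]
    exact b1
  · -- c
    have e : (4 * ((UU : ℂ) * (y * star y) * avg (wq wc t) (fun v => ((Gr n L 64 v : ℝ) : ℂ)))).re =
        4 * UU * ((KP n wc t L).c * normSq y) := by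
      have e1 : (4 * ((UU : ℂ) * (y * star y) * avg (wq wc t) (fun v => ((Gr n L 64 v : ℝ) : ℂ)))) =
          ((4 * UU * ((KP n wc t L).c * normSq y) : ℝ) : ℂ) := by
        have e2 : avg (wq wc t) (fun v => ((Gr n L 64 v : ℝ) : ℂ)) = avg (wq wc t) (GR n L 64) := rfl
        rw [e2, ← eKc]
        have e3 : y * star y = ((normSq y : ℝ) : ℂ) := Complex.mul_conj y
        rw [e3]
        push_cast
        ring
      rw [e1, Complex.ofReal_re]
    rw [← e]
    exact b2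
  · -- x
    have e : ((4 * UU : ℝ) : ℂ) * ((KP n wc t L).x * x) =
        4 * ((UU : ℂ) * x * avg (wq wc t) (Gc n L 96 128)) := by
      rw [eKx]
      push_cast
      ring
    rw [e]
    exact b5
  · -- y
    have e : ((4 * UU : ℝ) : ℂ) * ((KP n wc t L).y * y) =
        4 * ((UU : ℂ) * y * avg (wq wc t) (Gc n L 160 192)) := by
      rw [eKy]
      push_cast
      ring
    rw [e]
    exact b6
  · -- w
    have e : ((4 * UU : ℝ) : ℂ) * ((KP n wc t L).w * conj x * y) =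
        4 * ((UU : ℂ) * (star x * y) * avg (wq wc t) (Gc n L 224 256)) := by
      rw [eKw, Complex.star_def]
      push_cast
      ring
    rw [e]
    exact b8
  · -- Ex
    have e : ((E.x : ℕ) : ℝ) = rr (r3 c2) (stC n 96 128 L) + rr (r3 c3) (stC n 160 192 L) := by
      show ((Nat.add _ _ : ℕ) : ℝ) = _
      rw [c_add]
      rfl
    rw [e]
  · have e : ((E.y : ℕ) : ℝ) = rr (r3 c2) (stC n 96 128 L) + rr (r3 c22) (stR n 32 L) +
        rr (r3 m) (stC n 224 256 L) := by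
      show ((Nat.add (Nat.add _ _) _ : ℕ) : ℝ) = _
      rw [c_add, c_add]
      rfl
    rw [e]
  · have e : ((E.z : ℕ) : ℝ) = rr (r3 c3) (stC n 160 192 L) + rr (r3 m) (stC n 224 256 L) +
        rr (r3 c33) (stR n 64 L) := by
      show ((Nat.add (Nat.add _ _) _ : ℕ) : ℝ) = _
      rw [c_add, c_add]
      rfl
    rw [e]

end odd

end Pool.Agent.Helper21.KCE
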