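import Pool.Agent.Helper21.CX.KCI
import Pool.Agent.Helper17.C75.Kp6

/-!
Row KCE, part J: THE BLOCK INEQUALITIES of the kernel checker at every point of a cell.
-/

set_option autoImplicit false
set_option exponentiation.threshold 4000
noncomputable section
namespace Pool.Agent.Helper21.KCE

open Pool.Agent.Helper86.CX
open Pool.Agent.Helper86.C75 (Z)
open Pool.Agent.Helper90.C75 (Wts avg wq bt pq avg_re avg_im avg_smul avg_add)
open Pool.Agent.Helper90.KMO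
open Pool.Agent.Helper17.PAK (EncP EncV Rep Bd kz k9_enc sc nrm nrm_nonneg ev_lin andB_iff u32_lt
  combH lineH ev_combH ev_lineH BIneq rng9_sound chkP_sound encV_vrec)
open Pool.Agent.Helper6.MONO (Kp SbP Rb LNI_Kp Kp_ge1 VV vv_ok VRin)
open Pool.Agent.Helper6.MONO.CLO (Rb_le Rb_ge)
open Complex ComplexConjugate

/-! ### the run parameters -/

theorem SbP_range {k : ℝ} (h1 : 1 ≤ k) (h2 : k < 2) : 0 ≤ SbP k ∧ SbP k ≤ 3 := by
  have h0 : 0 < k := by linarith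
  have e : SbP k = (4 - k ^ 2) / k ^ 2 := by
    unfold SbP
    field_simp
    ring
  have hk : 1 ≤ k ^ 2 := by nlinarith
  rw [e]
  constructor
  · apply div_nonneg _ (by positivity)
    nlinarith
  · rw [div_le_iff₀ (by positivity)]
    nlinarith

/-- THE RUN CONSTANTS -/
theorem near_run {M j : ℕ} (h3 : 3 ≤ M) (h9 : M ≤ 9) (hj : 1 ≤ j) (hjM : j < M) :
    ∃ R A W T : ℤ, EncV (VV M j) (2 ^ 48) R A W T ∧ |R| ≤ 2 ^ 56 ∧ |A| ≤ 2 ^ 56 ∧
      |W| ≤ 2 ^ 56 ∧ |T| ≤ 2 ^ 56 ∧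
      Near (Rb M j) (Rb M j ^ 2 - SbP (Kp M)) (Rb M j ^ 2 + SbP (Kp M))
        (2 * SbP (Kp M) * Rb M j) (R / 2 ^ 48) (A / 2 ^ 48) (W / 2 ^ 48) (T / 2 ^ 48)
        (1 / 2 ^ 48) := by
  obtain ⟨R, A, W, T, hV, hin, bR, bA, bW, bT⟩ := vv_ok M j h3 h9 hj hjM
  have c : (2 : ℤ) ^ 53 ≤ 2 ^ 56 := by norm_num
  have hk1 := Kp_ge1 h3
  have hk2 := (LNI_Kp h3).2
  obtain ⟨s0, s1⟩ := SbP_range hk1 hk2
  have hk0 : 0 < Kp M := by linarith
  have r0 : 0 ≤ Rb M j := by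
    have h := Rb_ge h3 j hj hjM
    have : 1 ≤ 2 / Kp M := by rw [le_div_iff₀ hk0]; linarith
    linarith
  have r1 : Rb M j ≤ 3 := by
    have h := Rb_le h3 j hj hjM
    have : 2 / Kp M ≤ 2 := by rw [div_le_iff₀ hk0]; linarith
    linarith
  have q1 : Rb M j ^ 2 ≤ 9 := by nlinarith
  have q0 : 0 ≤ Rb M j ^ 2 := sq_nonneg _
  have q2 : 0 ≤ 2 * SbP (Kp M) * Rb M j := by positivity
  have q3 : 2 * SbP (Kp M) * Rb M j ≤ 18 := by nlinarith
  have aR : |Rb M j| ≤ 3 := by rw [abs_of_nonneg r0]; exact r1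
  have aA : |Rb M j ^ 2 - SbP (Kp M)| ≤ 9 := by rw [abs_le]; constructor <;> linarith
  have aW : |Rb M j ^ 2 + SbP (Kp M)| ≤ 12 := by rw [abs_le]; constructor <;> linarith
  have aT : |2 * SbP (Kp M) * Rb M j| ≤ 18 := by rw [abs_of_nonneg q2]; exact q3
  have key : ∀ x y a : ℝ, |x - y| ≤ 1 / 2 ^ 48 → |y| ≤ a → |y - x| ≤ 1 / 2 ^ 48 ∧ |x| ≤ a + 1 := by
    intro x y a h1 h2
    refine ⟨by rw [abs_sub_comm]; exact h1, ?_⟩
    have h3 : x = (x - y) + y := by ring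
    rw [h3]
    refine (abs_add_le _ _).trans ?_
    have : (1 : ℝ) / 2 ^ 48 ≤ 1 := by norm_num
    linarith
  obtain ⟨u1, u2⟩ := key _ _ _ hin.R aR
  obtain ⟨u3, u4⟩ := key _ _ _ hin.A aA
  obtain ⟨u5, u6⟩ := key _ _ _ hin.W aW
  obtain ⟨u7, u8⟩ := key _ _ _ hin.T aT
  refine ⟨R, A, W, T, ?_, bR.le.trans c, bA.le.trans c, bW.le.trans c, bT.le.trans c, ?_⟩
  · rw [hV]
    exact encV_vrec R A W T
  · exact ⟨u1, u3, u5, u7, aR, aA, aW, aT, u2.trans (by norm_num), u4.trans (by norm_num),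
      u6.trans (by norm_num), u8.trans (by norm_num)⟩

/-! ### forms at the point -/

variable {n : ℕ} {wc : Fin n → ℝ} {t : ℝ}

/-- scaling -/
def scR (s : ℝ) (N : Hm ℝ) : Hm ℝ :=
  ⟨N.a / s, N.b / s, N.c / s, N.d / s, N.e / s, N.f / s, N.g / s, N.h / s, N.i / s⟩

theorem ev_scR (s : ℝ) (N : Hm ℝ) (v : Fin 3 → ℂ) : ev (scR s N) v = ev N v / s := by
  rw [ev_lin, ev_lin]
  simp only [scR]
  ring

/-- THE FORM number `k` at the point `(wc, t)` -/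
def frm (n : ℕ) (wc : Fin n → ℝ) (t : ℝ) (KTs : List K2) (k : ℕ) : Hm ℝ :=
  scR (2 ^ 20) (KP n wc t (kfs KTs k))

/-- the multiplier number `l` at the parameter `t` -/
def lamT (LT l : ℕ) (t : ℝ) : ℝ :=
  (1 - t) * (u32 LT (64 * l) / 2 ^ 24) + t * (u32 LT (64 * l + 32) / 2 ^ 24)

theorem lamT_nonneg (LT l : ℕ) {t : ℝ} (h0 : 0 ≤ t) (h1 : t ≤ 1) : 0 ≤ lamT LT l t := by
  unfold lamT
  have : 0 ≤ 1 - t := by linarith
  positivity

theorem ev_sc (s : ℝ) (N : Hm ℤ) (v : Fin 3 → ℂ) : ev (sc s N) v = ev (sc 1 N) v / s := by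
  rw [ev_lin, ev_lin]
  simp only [sc]
  ring

theorem sum_wq (f : Fin n × Fin 3 → ℝ) : ∑ v, wq wc t v * f v =
    ∑ i, wc i * ((1 - t) ^ 2 * f (i, 0) + 2 * t * (1 - t) * f (i, 1) + t ^ 2 * f (i, 2)) := by
  rw [Fintype.sum_prod_type]
  refine Finset.sum_congr rfl fun i _ => ?_
  rw [Fin.sum_univ_three]
  simp only [wq, bt, Matrix.cons_val_zero, Matrix.cons_val_one, Matrix.cons_val]
  ring

theorem Kt_0 (L : List K2) (i : Fin n) : Kt n L (i, 0) = sc 1 (kz (g2 L i).s) := by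
  simp only [Kt, sc, Gr, kt, kz, div_one, Matrix.cons_val_zero]
  rfl

theorem Kt_2 (L : List K2) (i : Fin n) : Kt n L (i, 2) = sc 1 (kz (g2 L i).t) := by
  simp only [Kt, sc, Gr, kt, kz, div_one, Matrix.cons_val]
  rfl

theorem Kt_1 (L : List K2) (i : Fin n) (v : Fin 3 → ℂ) :
    ev (Kt n L (i, 1)) v = (ev (Kt n L (i, 0)) v + ev (Kt n L (i, 2)) v) / 2 := by
  have e : ∀ j, Gr n L j (i, 1) = (Gr n L j (i, 0) + Gr n L j (i, 2)) / 2 := by
    intro j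
    show kt _ _ 1 = (kt _ _ 0 + kt _ _ 2) / 2
    simp [kt]
  rw [ev_lin, ev_lin, ev_lin]
  simp only [Kt, e]
  ring

/-- the form at the point is the average of the corner lines -/
theorem ev_frm {KTs : List K2} (hK : KTs.length = n) (k : ℕ) (v : Fin 3 → ℂ) :
    ev (frm n wc t KTs k) v = ∑ i : Fin n, wc i *
      ev (lineH t (sc (2 ^ 20) (kz (kf (g2 KTs i).s k))) (sc (2 ^ 20) (kz (kf (g2 KTs i).t k)))) v := by
  unfold frm KP
  rw [ev_scR, ev_avH, sum_wq, Finset.sum_div]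
  refine Finset.sum_congr rfl fun i _ => ?_
  have hg := g2_kfs KTs k i (by rw [hK]; exact i.2)
  rw [Kt_1, Kt_0, Kt_2, hg, ev_lineH, ev_sc (2 ^ 20), ev_sc (2 ^ 20)]
  ring

/-! ### the blocks -/

theorem block_gen (hw : Wts wc) (h0 : 0 ≤ t) (h1 : t ≤ 1) {KTs : List K2}
    (hK : KTs.length = n) {LT k k' l : ℕ} {e x y : ℂ} {Q : Fin n × Fin 3 → Hm ℤ}
    (hat : ∀ z, ∑ v, wq wc t v * ev (sc 1 (Q v)) z ≤
      4 * UU * ev (CK (KP n wc t (kfs KTs k)) e x y) z)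
    (h76 : ∀ v, Bd (2 ^ 76) (Q v)) {R A W T : ℤ} {r a w τ : ℝ}
    (hB : ∀ i : Fin n, BIneq (Q (i, 0)) (Q (i, 1)) (Q (i, 2)) R A W T (u32 LT (64 * l))
      (u32 LT (64 * l + 32)) (kf (g2 KTs i).s k') (kf (g2 KTs i).t k'))
    (hN : Near r a w τ (R / 2 ^ 48) (A / 2 ^ 48) (W / 2 ^ 48) (T / 2 ^ 48) (1 / 2 ^ 48))
    (v : Fin 3 → ℂ) :
    lamT LT l t * ev (frm n wc t KTs k') v + (1 / 2 ^ 31) * nrm v ≤
      ev (frm n wc t KTs k) ((CM e x y).mulVec ((BA r a w τ).mulVec v)) := by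
  set P : Hm ℝ := avH (wq wc t) (fun v => sc (2 ^ 70) (Q v)) with hP
  set u' := (BA (R / 2 ^ 48) (A / 2 ^ 48) (W / 2 ^ 48) (T / 2 ^ 48)).mulVec v with hu'
  set u := (BA r a w τ).mulVec v with hu
  have hq := hw.q h0 h1
  -- step 1: the average of the corner inequalities
  have s1 : lamT LT l t * ev (frm n wc t KTs k') v + (1 / 2 ^ 30) * nrm v ≤ ev P u' := by
    have e1 : ev P u' = ∑ i : Fin n, wc i * ev (combH t (sc (2 ^ 70) (Q (i, 0)))
        (sc (2 ^ 70) (Q (i, 1))) (sc (2 ^ 70) (Q (i, 2)))) u' := by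
      rw [hP, ev_avH, sum_wq]
      refine Finset.sum_congr rfl fun i _ => ?_
      rw [ev_combH]
    have e2 : lamT LT l t * ev (frm n wc t KTs k') v + (1 / 2 ^ 30) * nrm v =
        ∑ i : Fin n, wc i * (lamT LT l t * ev (lineH t (sc (2 ^ 20) (kz (kf (g2 KTs i).s k')))
          (sc (2 ^ 20) (kz (kf (g2 KTs i).t k')))) v + (1 / 2 ^ 30) * nrm v) := by
      rw [ev_frm hK, Finset.mul_sum]
      simp only [mul_add, Finset.sum_add_distrib]
      congr 1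
      · refine Finset.sum_congr rfl fun i _ => ?_
        ring
      · rw [← Finset.sum_mul, hw.sum, one_mul]
    rw [e1, e2]
    refine Finset.sum_le_sum fun i _ => mul_le_mul_of_nonneg_left ?_ (hw.nonneg i)
    have h2 := hB i t h0 h1 v
    rw [← ev_NB] at h2
    exact h2
  -- step 2: rounding
  have bd : BdR 64 P := by
    have key : ∀ f : Fin n × Fin 3 → ℤ, (∀ v, |f v| ≤ 2 ^ 76) →
        |∑ v, wq wc t v * ((f v : ℝ) / 2 ^ 70)| ≤ 64 := by
      intro f hf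
      refine (Finset.abs_sum_le_sum_abs _ _).trans ?_
      calc ∑ v, |wq wc t v * ((f v : ℝ) / 2 ^ 70)| ≤ ∑ v, wq wc t v * 64 := by
            refine Finset.sum_le_sum fun v _ => ?_
            rw [abs_mul, abs_of_nonneg (hq.nonneg v)]
            refine mul_le_mul_of_nonneg_left ?_ (hq.nonneg v)
            rw [abs_div, abs_of_pos (by positivity : (0 : ℝ) < 2 ^ 70), div_le_iff₀ (by positivity)]
            have h3 : ((|f v| : ℤ) : ℝ) ≤ ((2 ^ 76 : ℤ) : ℝ) := by exact_mod_cast hf v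
            rw [Int.cast_abs] at h3
            refine h3.trans ?_
            push_cast
            norm_num
        _ = 64 := by rw [← Finset.sum_mul, hq.sum, one_mul]
    exact ⟨key _ fun v => (h76 v).1, key _ fun v => (h76 v).2.1, key _ fun v => (h76 v).2.2.1,
      key _ fun v => (h76 v).2.2.2.1, key _ fun v => (h76 v).2.2.2.2.1,
      key _ fun v => (h76 v).2.2.2.2.2.1, key _ fun v => (h76 v).2.2.2.2.2.2.1,
      key _ fun v => (h76 v).2.2.2.2.2.2.2.1, key _ fun v => (h76 v).2.2.2.2.2.2.2.2⟩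
  have s2 : ev P u' - (1 / 2 ^ 31) * nrm v ≤ ev P u := by
    have h2 := ev_round bd hN v
    rw [← ev_NB] at h2
    exact h2
  -- step 3: the comparison with the exact form
  have s3 : ev P u ≤ ev (frm n wc t KTs k) ((CM e x y).mulVec u) := by
    have h2 := hat u
    unfold frm
    rw [ev_scR, ev_CK, hP, ev_avH]
    have e3 : ∑ v, wq wc t v * ev (sc (2 ^ 70) (Q v)) u =
        (∑ v, wq wc t v * ev (sc 1 (Q v)) u) / 2 ^ 70 := by
      rw [Finset.sum_div]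
      refine Finset.sum_congr rfl fun v _ => ?_
      rw [ev_sc]
      ring
    rw [e3, div_le_div_iff₀ (by positivity) (by positivity)]
    unfold UU at h2
    have : (4 * 281474976710656 * ev (CK (KP n wc t (kfs KTs k)) e x y) u) * 2 ^ 20 =
        ev (CK (KP n wc t (kfs KTs k)) e x y) u * 2 ^ 70 := by
      norm_num
      ring
    rw [← this]
    exact mul_le_mul_of_nonneg_right h2 (by positivity)
  have e30 : (1 / 2 ^ 30 : ℝ) * nrm v = (1 / 2 ^ 31) * nrm v + (1 / 2 ^ 31) * nrm v := by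
    ring
  rw [e30] at s1
  linarith

/-! ### from the checker -/

theorem CRb_odd {c2 c3 ce c22 c33 cee m p q : Mo}
    (h : (mkO3 c2 c3 ce c22 c33 cee m p q).ok = true) :
    CRb ⟨r3 c2, r3 c3, r3 ce, r3 c22, r3 c33, r3 cee, r3 m, r3 p, r3 q⟩ ∧
    (mok c2 = true ∧ mok c3 = true ∧ mok ce = true ∧ mok c22 = true ∧ mok c33 = true ∧
      mok cee = true ∧ mok m = true ∧ mok p = true ∧ mok q = true) := by
  have h' : andB (mok c2) (andB (mok c3) (andB (mok ce) (andB (mok c22) (andB (mok c33)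
    (andB (mok cee) (andB (mok m) (andB (mok p) (mok q)))))))) = true := h
  simp only [andB_iff] at h'
  obtain ⟨a1, a2, a3, a4, a5, a6, a7, a8, a9⟩ := h'
  exact ⟨⟨r3_b a1, r3_b a2, r3_b a3, r3_b a4, r3_b a5, r3_b a6, r3_b a7, r3_b a8, r3_b a9⟩,
    a1, a2, a3, a4, a5, a6, a7, a8, a9⟩

theorem CRb_even {c2 c3 c22 c33 m : Mo}
    (h : (mkE3 c2 c3 c22 c33 m).ok = true) :
    CRb ⟨r3 c2, r3 c3, z3, r3 c22, r3 c33, z3, r3 m, z3, z3⟩ ∧
    (mok c2 = true ∧ mok c3 = true ∧ mok c22 = true ∧ mok c33 = true ∧ mok m = true) := by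
  have h' : andB (mok c2) (andB (mok c3) (andB (mok c22) (andB (mok c33)
    (mok m)))) = true := h
  simp only [andB_iff] at h'
  obtain ⟨a1, a2, a4, a5, a7⟩ := h'
  exact ⟨⟨r3_b a1, r3_b a2, z3_b, r3_b a4, r3_b a5, z3_b, r3_b a7, z3_b, z3_b⟩,
    a1, a2, a4, a5, a7⟩

/-- the block inequality for the runs of a target entry -/
def BlkOK (n : ℕ) (wc : Fin n → ℝ) (t : ℝ) (KTs : List K2) (LT : ℕ) (e x y : ℂ) (P : PE) : Prop :=
  ∀ b ∈ P.b, ∀ s ∈ b.s, ∀ (R A W T : ℤ) (r a w τ : ℝ), EncV b.V (2 ^ 48) R A W T →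
    |R| ≤ 2 ^ 56 → |A| ≤ 2 ^ 56 → |W| ≤ 2 ^ 56 → |T| ≤ 2 ^ 56 →
    Near r a w τ (R / 2 ^ 48) (A / 2 ^ 48) (W / 2 ^ 48) (T / 2 ^ 48) (1 / 2 ^ 48) →
    ∀ v : Fin 3 → ℂ, lamT LT s.l t * ev (frm n wc t KTs s.k) v + (1 / 2 ^ 31) * nrm v ≤
      ev (frm n wc t KTs P.k) ((CM e x y).mulVec ((BA r a w τ).mulVec v))

theorem bd_mono {b c : ℤ} {Q : Hm ℤ} (h : Bd b Q) (hbc : b ≤ c) : Bd c Q :=
  Pool.Agent.Helper17.PAK.Bd.mono h hbc

/-- ODD SETS -/
theorem chk_odd (hn : 0 < n) (hw : Wts wc) (h0 : 0 ≤ t) (h1 : t ≤ 1) {KTs : List K2}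
    (hK : KTs.length = n) {LT : ℕ} {x y e : ℂ} {c2 c3 ce c22 c33 cee m p q : Mo}
    (h : OOK n wc t x y e c2 c3 ce c22 c33 cee m p q) {ps : List PE}
    (H : chkPE chkP FO EO n KTs LT (mkO3 c2 c3 ce c22 c33 cee m p q) ps = true) :
    ∀ P ∈ ps, BlkOK n wc t KTs LT e x y P := by
  obtain ⟨hok, H2⟩ := chkPE_mem H
  obtain ⟨hcr, k2, k3, ke, k22, k33, kee, km, kp, kq⟩ := CRb_odd hok
  intro P hP b hb s hs R A W T r a w τ hV bR bA bW bT hN v
  have H3 := H2 P hP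
  set L := kfs KTs P.k with hL
  have hLn : L.length = n := by rw [hL, kfs_len, hK]
  set E := EO ⟨r3 c2, r3 c3, r3 ce, r3 c22, r3 c33, r3 cee, r3 m, r3 p, r3 q⟩ (mkRK n L) with hE
  have hEb : E3b E := EO_b hcr (mkRK_b hn hLn)
  set l : L9 := ⟨c2.v, c3.v, ce.v, c22.v, c33.v, cee.v, m.v, p.v, q.v⟩ with hl
  have hlb : L9b n l := ⟨f64_of k2 h.c2.val, f64_of k3 h.c3.val, f64_of ke h.fe.val,
    f64_of k22 h.n22.val, f64_of k33 h.n33.val, f64_of kee h.nee.val, f64_of km h.m.val,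
    f64_of kp h.p.val, f64_of kq h.q.val⟩
  have corner : ∀ i : Fin n, BIneq (QV n E l L (i, 0)) (QV n E l L (i, 1)) (QV n E l L (i, 2))
      R A W T (u32 LT (64 * s.l)) (u32 LT (64 * s.l + 32)) (kf (g2 KTs i).s s.k)
      (kf (g2 KTs i).t s.k) ∧ (∀ j : Fin 3, Bd (2 ^ 76) (QV n E l L (i, j))) := by
    intro i
    have hc := chkV_odd n c2.v c3.v ce.v c22.v c33.v cee.v m.v p.v q.v KTs h.c2.val.len
      h.c3.val.len h.fe.val.len h.n22.val.len h.n33.val.len h.nee.val.len h.m.val.len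
      h.p.val.len h.q.val.len hK H3 i i.2
    have hg := g2_kfs KTs P.k i (by rw [hK]; exact i.2)
    obtain ⟨ea, ec, eb⟩ := encO E (gv c2.v i) (gv c3.v i) (gv ce.v i) (gv c22.v i) (gv c33.v i)
      (gv cee.v i) (gv m.v i) (gv p.v i) (gv q.v i) (g2 L i) (kf (g2 KTs i).s P.k)
      (kf (g2 KTs i).t P.k) hg
    have q0 := QV_bd hn hEb hlb hLn (i, 0)
    have q1 := QV_bd hn hEb hlb hLn (i, 1)
    have q2 := QV_bd hn hEb hlb hLn (i, 2)
    have c1 : (2 : ℤ) ^ 200 ≤ 2 ^ 2302 := by norm_num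
    have hc' : chkP (g2 KTs i) LT P.b _ _ _ = true := hc
    refine ⟨chkP_sound ea ec eb (bd_mono q0 c1) (bd_mono q1 c1) (bd_mono q2 c1) hc' b hb s hs
      R A W T hV bR bA bW bT, ?_⟩
    unfold chkP at hc'
    simp only [andB_iff] at hc'
    obtain ⟨r1, r2, r3, -⟩ := hc'
    intro j
    fin_cases j
    · exact rng9_sound ea (bd_mono q0 c1) r1
    · exact rng9_sound ec (bd_mono q1 c1) r2
    · exact rng9_sound eb (bd_mono q2 c1) r3
  exact block_gen hw h0 h1 hK (hat_odd hn hw h0 h1 h hLn) (fun v => (corner v.1).2 v.2)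
    (fun i => (corner i).1) hN v

/-- EVEN SETS -/
theorem chk_even (hn : 0 < n) (hw : Wts wc) (h0 : 0 ≤ t) (h1 : t ≤ 1) {KTs : List K2}
    (hK : KTs.length = n) {LT : ℕ} {x y : ℂ} {c2 c3 c22 c33 m : Mo}
    (h : EOK n wc t x y c2 c3 c22 c33 m) {ps : List PE}
    (H : chkPE chkP FE EE n KTs LT (mkE3 c2 c3 c22 c33 m) ps = true) :
    ∀ P ∈ ps, BlkOK n wc t KTs LT 0 x y P := by
  obtain ⟨hok, H2⟩ := chkPE_mem H
  obtain ⟨hcr, k2, k3, k22, k33, km⟩ := CRb_even hok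
  intro P hP b hb s hs R A W T r a w τ hV bR bA bW bT hN v
  have H3 := H2 P hP
  set L := kfs KTs P.k with hL
  have hLn : L.length = n := by rw [hL, kfs_len, hK]
  set E := EE ⟨r3 c2, r3 c3, z3, r3 c22, r3 c33, z3, r3 m, z3, z3⟩ (mkRK n L) with hE
  have hEb : E3b E := EE_b hcr (mkRK_b hn hLn)
  set l : L9 := ⟨c2.v, c3.v, [], c22.v, c33.v, [], m.v, [], []⟩ with hl
  have hlb : L9b n l := ⟨f64_of k2 h.c2.val, f64_of k3 h.c3.val, f64_nil n,
    f64_of k22 h.n22.val, f64_of k33 h.n33.val, f64_nil n, f64_of km h.m.val,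
    f64_nil n, f64_nil n⟩
  have corner : ∀ i : Fin n, BIneq (QV n E l L (i, 0)) (QV n E l L (i, 1)) (QV n E l L (i, 2))
      R A W T (u32 LT (64 * s.l)) (u32 LT (64 * s.l + 32)) (kf (g2 KTs i).s s.k)
      (kf (g2 KTs i).t s.k) ∧ (∀ j : Fin 3, Bd (2 ^ 76) (QV n E l L (i, j))) := by
    intro i
    have hc := chkV_even n c2.v c3.v c22.v c33.v m.v KTs h.c2.val.len
      h.c3.val.len h.n22.val.len h.n33.val.len h.m.val.len hK H3 i i.2
    have hg := g2_kfs KTs P.k i (by rw [hK]; exact i.2)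
    obtain ⟨ea, ec, eb⟩ := encE E (gv c2.v i) (gv c3.v i) (gv c22.v i) (gv c33.v i)
      (gv m.v i) (g2 L i) (kf (g2 KTs i).s P.k)
      (kf (g2 KTs i).t P.k) hg
    have q0 := QV_bd hn hEb hlb hLn (i, 0)
    have q1 := QV_bd hn hEb hlb hLn (i, 1)
    have q2 := QV_bd hn hEb hlb hLn (i, 2)
    have c1 : (2 : ℤ) ^ 200 ≤ 2 ^ 2302 := by norm_num
    have hc' : chkP (g2 KTs i) LT P.b _ _ _ = true := hc
    refine ⟨chkP_sound ea ec eb (bd_mono q0 c1) (bd_mono q1 c1) (bd_mono q2 c1) hc' b hb s hs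
      R A W T hV bR bA bW bT, ?_⟩
    unfold chkP at hc'
    simp only [andB_iff] at hc'
    obtain ⟨r1, r2, r3, -⟩ := hc'
    intro j
    fin_cases j
    · exact rng9_sound ea (bd_mono q0 c1) r1
    · exact rng9_sound ec (bd_mono q1 c1) r2
    · exact rng9_sound eb (bd_mono q2 c1) r3
  exact block_gen hw h0 h1 hK (hat_even hn hw h0 h1 h hLn) (fun v => (corner v.1).2 v.2)
    (fun i => (corner i).1) hN v

end Pool.Agent.Helper21.KCE
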