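import Pool.Agent.Helper17.C75.Kp5
import Pool.Agent.Helper90.CX.KM5
import Pool.Agent.Helper21.CX.KCA

/-!
Row KCE, part B: statistics of the entries of the table, product errors, comparison of forms.
-/

set_option autoImplicit false
noncomputable section
namespace Pool.Agent.Helper21.KCE

open Pool.Agent.Helper86.CX
open Pool.Agent.Helper86.C75 (Z)
open Pool.Agent.Helper90.C75
open Pool.Agent.Helper90.KMO
open Pool.Agent.Helper17.PAK (EncP Rep Bd kz k9_enc sc nrm)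
open Complex ComplexConjugate

/-! ### entries of the table -/

/-- entry of the table -/
def gz (K j : ℕ) : ℤ := (u32 K j : ℤ) - 2 ^ 31

/-- control values of an entry at a corner -/
def kt (x : K2) (j : ℕ) : Fin 3 → ℝ :=
  ![(gz x.s j : ℝ), ((gz x.s j : ℝ) + gz x.t j) / 2, (gz x.t j : ℝ)]

def z2 : K2 := ⟨0, 0⟩

def g2 (L : List K2) (i : ℕ) : K2 := L.getD i z2

theorem g2_mem {l : List K2} {i : ℕ} (h : i < l.length) : g2 l i ∈ l := by
  unfold g2
  rw [List.getD_eq_getElem _ _ h]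
  exact List.getElem_mem h

/-- a real entry, at the vertices -/
def Gr (n : ℕ) (L : List K2) (j : ℕ) : Fin n × Fin 3 → ℝ := fun v => kt (g2 L v.1) j v.2

/-- a complex entry, at the vertices -/
def Gc (n : ℕ) (L : List K2) (j j' : ℕ) : Fin n × Fin 3 → ℂ := fun v => ⟨Gr n L j v, Gr n L j' v⟩

theorem absd_eq (a b : ℕ) : ((absd a b : ℕ) : ℝ) = |(a : ℝ) - b| := by
  have h : absd a b = (a - b) + (b - a) := rfl
  rw [h]
  rcases le_total a b with h1 | h1
  · have h2 : (a : ℝ) ≤ b := by exact_mod_cast h1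
    rw [Nat.sub_eq_zero_of_le h1, abs_of_nonpos (by linarith)]
    push_cast [h1]
    ring
  · have h2 : (b : ℝ) ≤ a := by exact_mod_cast h1
    rw [Nat.sub_eq_zero_of_le h1, abs_of_nonneg (by linarith)]
    push_cast [h1]
    ring

theorem foldK_le (f : K2 → ℕ) (l : List K2) : ∀ x ∈ l, f x ≤ foldK f l := by
  induction l with
  | nil => intro x hx; cases hx
  | cons y l ih =>
    intro x hx
    have e : foldK f (y :: l) = mx (f y) (foldK f l) := rfl
    rw [e, mx_eq]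
    rcases List.mem_cons.1 hx with h | h
    · subst h
      exact le_max_left _ _
    · exact (ih x h).trans (le_max_right _ _)

theorem foldK_leR (f : K2 → ℕ) {l : List K2} {x : K2} (h : x ∈ l) :
    (f x : ℝ) ≤ (foldK f l : ℕ) := by
  exact_mod_cast foldK_le f l x h

/-! ### statistics -/

/-- `S` bounds an entry: size, deviation between the corners, difference between the ends -/
structure SOK (n : ℕ) (S : S3) (G : Fin n × Fin 3 → ℂ) : Prop where
  bd : ∀ v, ‖G v‖ ≤ S.B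
  dev : ∃ c : Fin 3 → ℂ, ∀ v, ‖G v - c v.2‖ ≤ S.k
  dif : ∀ c, ‖G (c, 2) - G (c, 0)‖ ≤ S.d
  mid : ∀ c, G (c, 1) = (G (c, 0) + G (c, 2)) / 2

theorem Gc_mid (n : ℕ) (L : List K2) (j j' : ℕ) (c : Fin n) :
    Gc n L j j' (c, 1) = (Gc n L j j' (c, 0) + Gc n L j j' (c, 2)) / 2 := by
  have e2 : (2 : ℂ) = ((2 : ℝ) : ℂ) := by norm_num
  apply Complex.ext
  · rw [e2, Complex.div_ofReal_re]
    show kt _ _ 1 = (kt _ _ 0 + kt _ _ 2) / 2
    simp [kt]
  · rw [e2, Complex.div_ofReal_im]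
    show kt _ _ 1 = (kt _ _ 0 + kt _ _ 2) / 2
    simp [kt]

/-- from the ends to the middle -/
theorem SOK.of_ends {n : ℕ} {S : S3} {G : Fin n × Fin 3 → ℂ}
    (hm : ∀ c, G (c, 1) = (G (c, 0) + G (c, 2)) / 2)
    (hb0 : ∀ c, ‖G (c, 0)‖ ≤ S.B) (hb2 : ∀ c, ‖G (c, 2)‖ ≤ S.B)
    (hk : ∃ a b : ℂ, ∀ c, ‖G (c, 0) - a‖ ≤ S.k ∧ ‖G (c, 2) - b‖ ≤ S.k)
    (hd : ∀ c, ‖G (c, 2) - G (c, 0)‖ ≤ S.d) : SOK n S G := by
  have half : ∀ {x y : ℂ} {r : ℝ}, ‖x‖ ≤ r → ‖y‖ ≤ r → ‖(x + y) / 2‖ ≤ r := by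
    intro x y r h1 h2
    rw [norm_div]
    have e3 : ‖(2 : ℂ)‖ = 2 := by norm_num
    rw [e3]
    have := norm_add_le x y
    linarith
  refine ⟨fun v => ?_, ?_, hd, hm⟩
  · obtain ⟨i, j⟩ := v
    fin_cases j
    · exact hb0 i
    · show ‖G (i, 1)‖ ≤ _
      rw [hm]
      exact half (hb0 i) (hb2 i)
    · exact hb2 i
  · obtain ⟨a, b, h⟩ := hk
    refine ⟨![a, (a + b) / 2, b], fun v => ?_⟩
    obtain ⟨i, j⟩ := v
    fin_cases j
    · exact (h i).1
    · show ‖G (i, 1) - (a + b) / 2‖ ≤ _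
      rw [hm]
      have e : (G (i, 0) + G (i, 2)) / 2 - (a + b) / 2 = ((G (i, 0) - a) + (G (i, 2) - b)) / 2 := by
        ring
      rw [e]
      exact half (h i).1 (h i).2
    · exact (h i).2

theorem sumS_eq (k : ℕ) (l : List K2) : sumS k l = (l.map fun x => u32 x.s k).sum := by
  induction l with
  | nil => rfl
  | cons x l ih => rw [List.map_cons, List.sum_cons, ← ih]; rfl

theorem sumT_eq (k : ℕ) (l : List K2) : sumT k l = (l.map fun x => u32 x.t k).sum := by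
  induction l with
  | nil => rfl
  | cons x l ih => rw [List.map_cons, List.sum_cons, ← ih]; rfl

theorem Gr0 {n : ℕ} (L : List K2) (j : ℕ) (c : Fin n) :
    Gr n L j (c, 0) = (u32 (g2 L c).s j : ℝ) - 2147483648 := by
  show ((((u32 (g2 L c).s j : ℕ) : ℤ) - 2 ^ 31 : ℤ) : ℝ) = _
  push_cast
  norm_num

theorem Gr2 {n : ℕ} (L : List K2) (j : ℕ) (c : Fin n) :
    Gr n L j (c, 2) = (u32 (g2 L c).t j : ℝ) - 2147483648 := by
  show ((((u32 (g2 L c).t j : ℕ) : ℤ) - 2 ^ 31 : ℤ) : ℝ) = _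
  push_cast
  norm_num

/-- the deviation of one number -/
theorem dev_one {n : ℕ} (hn : 0 < n) (u s D : ℕ) (h : absd (Nat.mul n u) s ≤ D) :
    |((u : ℝ) - 2147483648) - ((s : ℝ) / n - 2147483648)| ≤ ((Nat.div D n + 1 : ℕ) : ℝ) := by
  have h1 : (|((n * u : ℕ) : ℝ) - s|) ≤ D := by
    rw [← absd_eq]
    exact_mod_cast h
  have hn' : (0 : ℝ) < n := by exact_mod_cast hn
  have e : ((u : ℝ) - 2147483648) - ((s : ℝ) / n - 2147483648) = (((n * u : ℕ) : ℝ) - s) / n := by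
    push_cast
    field_simp
    ring
  rw [e, abs_div, abs_of_pos hn']
  have h2 := div_ub D hn
  push_cast at h2 ⊢
  refine le_trans ?_ h2
  apply div_le_div_of_nonneg_right _ hn'.le
  push_cast at h1
  exact h1

theorem ifk_one (x : ℕ) : ifk 1 x = 0 := rfl

theorem ifk_ne {n : ℕ} (h : n ≠ 1) (x : ℕ) : ifk n x = x := by
  have hb : Nat.beq n 1 = false := by
    cases h' : Nat.beq n 1 with
    | true => exact absurd (Nat.eq_of_beq_eq_true h') h
    | false => rfl
  unfold ifk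
  rw [hb]

theorem stR_ok {n : ℕ} (hn : 0 < n) (k : ℕ) {L : List K2} (hL : L.length = n) :
    SOK n (stR n k L) (fun v => ((Gr n L k v : ℝ) : ℂ)) := by
  have mem : ∀ c : Fin n, g2 L c ∈ L := fun c => g2_mem (by rw [hL]; exact c.2)
  have hB : ∀ c : Fin n, (mx (absd (u32 (g2 L c).s k) 2147483648)
      (absd (u32 (g2 L c).t k) 2147483648) : ℝ) ≤ ((stR n k L).B : ℝ) := fun c =>
    foldK_leR (fun x => mx (absd (u32 x.s k) 2147483648) (absd (u32 x.t k) 2147483648)) (mem c)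
  refine SOK.of_ends ?_ (fun c => ?_) (fun c => ?_) ?_ (fun c => ?_)
  · intro c
    have e2 : (2 : ℂ) = ((2 : ℝ) : ℂ) := by norm_num
    rw [e2, ← Complex.ofReal_add, ← Complex.ofReal_div]
    congr 1
  · refine le_trans ?_ (hB c)
    refine le_trans ?_ (mx_l _ _)
    rw [Complex.norm_real, Real.norm_eq_abs, Gr0, absd_eq]
    norm_num
  · refine le_trans ?_ (hB c)
    refine le_trans ?_ (mx_r _ _)
    rw [Complex.norm_real, Real.norm_eq_abs, Gr2, absd_eq]
    norm_num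
  · by_cases h1 : n = 1
    · subst h1
      have hk0 : (0 : ℝ) ≤ ((stR 1 k L).k : ℝ) := Nat.cast_nonneg _
      refine ⟨((Gr 1 L k (0, 0) : ℝ) : ℂ), ((Gr 1 L k (0, 2) : ℝ) : ℂ), fun c => ?_⟩
      have : c = 0 := Subsingleton.elim _ _
      subst this
      rw [sub_self, sub_self, norm_zero]
      exact ⟨hk0, hk0⟩
    · have hk : ((stR n k L).k : ℝ) = ((Nat.div (foldK (fun x =>
          mx (absd (Nat.mul n (u32 x.s k)) (sumS k L)) (absd (Nat.mul n (u32 x.t k)) (sumT k L))) L) n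
            + 1 : ℕ) : ℝ) := by
        show ((ifk n _ : ℕ) : ℝ) = _
        rw [ifk_ne h1]
      refine ⟨(((sumS k L : ℝ) / n - 2147483648 : ℝ) : ℂ),
        (((sumT k L : ℝ) / n - 2147483648 : ℝ) : ℂ), fun c => ?_⟩
      have hD := foldK_le (fun x => mx (absd (Nat.mul n (u32 x.s k)) (sumS k L))
        (absd (Nat.mul n (u32 x.t k)) (sumT k L))) L (g2 L c) (mem c)
      simp only [mx_eq] at hD
      constructor
      · rw [← Complex.ofReal_sub, Complex.norm_real, Real.norm_eq_abs, Gr0, hk]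
        apply dev_one hn
        simp only [mx_eq]
        exact (le_max_left _ _).trans hD
      · rw [← Complex.ofReal_sub, Complex.norm_real, Real.norm_eq_abs, Gr2, hk]
        apply dev_one hn
        simp only [mx_eq]
        exact (le_max_right _ _).trans hD
  · have hd : ((absd (u32 (g2 L c).s k) (u32 (g2 L c).t k) : ℕ) : ℝ) ≤ ((stR n k L).d : ℝ) :=
      foldK_leR (fun x => absd (u32 x.s k) (u32 x.t k)) (mem c)
    rw [← Complex.ofReal_sub, Complex.norm_real, Real.norm_eq_abs, Gr0, Gr2]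
    refine le_trans (le_of_eq ?_) hd
    rw [absd_eq, abs_sub_comm]
    congr 1
    ring

theorem stC_ok {n : ℕ} (hn : 0 < n) (k k' : ℕ) {L : List K2} (hL : L.length = n) :
    SOK n (stC n k k' L) (Gc n L k k') := by
  have mem : ∀ c : Fin n, g2 L c ∈ L := fun c => g2_mem (by rw [hL]; exact c.2)
  have hB : ∀ c : Fin n, (mx (nb2 (absd (u32 (g2 L c).s k) 2147483648)
      (absd (u32 (g2 L c).s k') 2147483648)) (nb2 (absd (u32 (g2 L c).t k) 2147483648)
      (absd (u32 (g2 L c).t k') 2147483648)) : ℝ) ≤ ((stC n k k' L).B : ℝ) := fun c =>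
    foldK_leR (fun x => mx (nb2 (absd (u32 x.s k) 2147483648) (absd (u32 x.s k') 2147483648))
      (nb2 (absd (u32 x.t k) 2147483648) (absd (u32 x.t k') 2147483648))) (mem c)
  have r0 : ∀ j (c : Fin n), (|Gr n L j (c, 0)| : ℝ) = (absd (u32 (g2 L c).s j) 2147483648 : ℕ) := by
    intro j c
    rw [Gr0, absd_eq]
    norm_num
  have r2 : ∀ j (c : Fin n), (|Gr n L j (c, 2)| : ℝ) = (absd (u32 (g2 L c).t j) 2147483648 : ℕ) := by
    intro j c
    rw [Gr2, absd_eq]
    norm_num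
  refine SOK.of_ends (Gc_mid n L k k') (fun c => ?_) (fun c => ?_) ?_ (fun c => ?_)
  · refine le_trans ?_ (hB c)
    refine le_trans ?_ (mx_l _ _)
    exact nb2_le (r0 k c).le (r0 k' c).le
  · refine le_trans ?_ (hB c)
    refine le_trans ?_ (mx_r _ _)
    exact nb2_le (r2 k c).le (r2 k' c).le
  · by_cases h1 : n = 1
    · subst h1
      have hk0 : (0 : ℝ) ≤ ((stC 1 k k' L).k : ℝ) := Nat.cast_nonneg _
      refine ⟨Gc 1 L k k' (0, 0), Gc 1 L k k' (0, 2), fun c => ?_⟩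
      have : c = 0 := Subsingleton.elim _ _
      subst this
      rw [sub_self, sub_self, norm_zero]
      exact ⟨hk0, hk0⟩
    · set D := foldK (fun x => mx
        (nb2 (absd (Nat.mul n (u32 x.s k)) (sumS k L)) (absd (Nat.mul n (u32 x.s k')) (sumS k' L)))
        (nb2 (absd (Nat.mul n (u32 x.t k)) (sumT k L)) (absd (Nat.mul n (u32 x.t k')) (sumT k' L))))
        L with hDdef
      have hk : ((stC n k k' L).k : ℝ) = ((Nat.div D n + 1 : ℕ) : ℝ) := by
        show ((ifk n _ : ℕ) : ℝ) = _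
        rw [ifk_ne h1]
      have hn' : (0 : ℝ) < n := by exact_mod_cast hn
      have key : ∀ (u u' s s' : ℕ), ((nb2 (absd (Nat.mul n u) s) (absd (Nat.mul n u') s') : ℕ) : ℝ) ≤ D →
          ‖(⟨(u : ℝ) - 2147483648, (u' : ℝ) - 2147483648⟩ : ℂ) -
            ⟨(s : ℝ) / n - 2147483648, (s' : ℝ) / n - 2147483648⟩‖ ≤ ((Nat.div D n + 1 : ℕ) : ℝ) := by
        intro u u' s s' h
        have e : (⟨(u : ℝ) - 2147483648, (u' : ℝ) - 2147483648⟩ : ℂ) -
            ⟨(s : ℝ) / n - 2147483648, (s' : ℝ) / n - 2147483648⟩ =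
            (⟨((n * u : ℕ) : ℝ) - s, ((n * u' : ℕ) : ℝ) - s'⟩ : ℂ) / ((n : ℝ) : ℂ) := by
          apply Complex.ext
          · rw [Complex.div_ofReal_re]
            show ((u : ℝ) - 2147483648) - ((s : ℝ) / n - 2147483648) = (((n * u : ℕ) : ℝ) - s) / n
            push_cast
            field_simp
            ring
          · rw [Complex.div_ofReal_im]
            show ((u' : ℝ) - 2147483648) - ((s' : ℝ) / n - 2147483648) = (((n * u' : ℕ) : ℝ) - s') / n
            push_cast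
            field_simp
            ring
        have h3 : ‖(⟨((n * u : ℕ) : ℝ) - s, ((n * u' : ℕ) : ℝ) - s'⟩ : ℂ)‖ ≤
            ((nb2 (absd (Nat.mul n u) s) (absd (Nat.mul n u') s') : ℕ) : ℝ) := by
          apply nb2_le
          · rw [absd_eq]; exact le_rfl
          · rw [absd_eq]; exact le_rfl
        rw [e, norm_div, Complex.norm_real, Real.norm_of_nonneg hn'.le]
        have h2 := div_ub D hn
        push_cast at h2 ⊢
        refine le_trans ?_ h2
        apply div_le_div_of_nonneg_right _ hn'.le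
        push_cast at h3
        exact h3.trans h
      refine ⟨⟨(sumS k L : ℝ) / n - 2147483648, (sumS k' L : ℝ) / n - 2147483648⟩,
        ⟨(sumT k L : ℝ) / n - 2147483648, (sumT k' L : ℝ) / n - 2147483648⟩, fun c => ?_⟩
      have hD := foldK_leR (fun x => mx
        (nb2 (absd (Nat.mul n (u32 x.s k)) (sumS k L)) (absd (Nat.mul n (u32 x.s k')) (sumS k' L)))
        (nb2 (absd (Nat.mul n (u32 x.t k)) (sumT k L)) (absd (Nat.mul n (u32 x.t k')) (sumT k' L))))
        (mem c)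
      rw [← hDdef] at hD
      constructor
      · have e : Gc n L k k' (c, 0) =
            ⟨(u32 (g2 L c).s k : ℝ) - 2147483648, (u32 (g2 L c).s k' : ℝ) - 2147483648⟩ := by
          unfold Gc
          rw [Gr0, Gr0]
        rw [e, hk]
        apply key
        exact (mx_l _ _).trans hD
      · have e : Gc n L k k' (c, 2) =
            ⟨(u32 (g2 L c).t k : ℝ) - 2147483648, (u32 (g2 L c).t k' : ℝ) - 2147483648⟩ := by
          unfold Gc
          rw [Gr2, Gr2]
        rw [e, hk]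
        apply key
        exact (mx_r _ _).trans hD
  · have hd : ((nb2 (absd (u32 (g2 L c).s k) (u32 (g2 L c).t k))
        (absd (u32 (g2 L c).s k') (u32 (g2 L c).t k')) : ℕ) : ℝ) ≤ ((stC n k k' L).d : ℝ) :=
      foldK_leR (fun x => nb2 (absd (u32 x.s k) (u32 x.t k)) (absd (u32 x.s k') (u32 x.t k')))
        (mem c)
    refine le_trans ?_ hd
    have q : ∀ j, |(Gr n L j (c, 2) - Gr n L j (c, 0))| =
        ((absd (u32 (g2 L c).s j) (u32 (g2 L c).t j) : ℕ) : ℝ) := by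
      intro j
      rw [Gr0, Gr2, absd_eq, abs_sub_comm]
      congr 1
      ring
    exact nb2_le (q k).le (q k').le

theorem SOK.conj {n : ℕ} {S : S3} {G : Fin n × Fin 3 → ℂ} (h : SOK n S G) :
    SOK n S (fun v => star (G v)) := by
  refine ⟨fun v => ?_, ?_, fun c => ?_, fun c => ?_⟩
  · rw [norm_star]; exact h.bd v
  · obtain ⟨a, ha⟩ := h.dev
    refine ⟨fun j => star (a j), fun v => ?_⟩
    rw [← star_sub, norm_star]
    exact ha v
  · rw [← star_sub, norm_star]; exact h.dif c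
  · rw [h.mid]
    simp

/-! ### product errors -/

section prod

variable {n : ℕ} {wc : Fin n → ℝ} {t : ℝ}

theorem c_rr (m : R3) (s : S3) : 4 * ((m.r : ℝ) * s.B + m.k * s.k + m.f * s.d / 10) ≤ rr m s := by
  have e : ((rr m s : ℕ) : ℝ) = 4 * (m.r * s.B + m.k * s.k) +
      (Nat.div (Nat.mul (Nat.mul (nat_lit 4) m.f) s.d) (nat_lit 10) : ℕ) + 3 := by
    unfold rr
    rw [c_add, c_add, c_mul, c_add, c_mul, c_mul]
    norm_num
  have h1 := c_div10 (Nat.mul (Nat.mul (nat_lit 4) m.f) s.d)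
  rw [c_mul, c_mul] at h1
  have e4 : ((nat_lit 4 : ℕ) : ℝ) = 4 := by norm_num
  rw [e4] at h1
  rw [e]
  linarith

/-- ERROR OF A PRODUCT coefficient times entry -/
theorem rr_err (hw : Wts wc) (h0 : 0 ≤ t) (h1 : t ≤ 1) {f : ℂ} {M : Mo} {S : S3}
    {G : Fin n × Fin 3 → ℂ} (hf : MOK n wc t f M) (hS : SOK n S G) :
    ‖4 * ((UU : ℂ) * f * avg (wq wc t) G) - avg (wq wc t) (fun v => 4 * pq (Fv n M.v) G v)‖ ≤
      rr (r3 M) S := by
  obtain ⟨cF, hcF⟩ := hf.val.dev
  obtain ⟨cG, hcG⟩ := hS.dev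
  have hq := hw.q h0 h1
  have hg : Helper90.C75.Mod (wq wc t) (avg (wq wc t) G) G 0 := by
    show ‖_‖ ≤ (0 : ℝ)
    rw [sub_self, norm_zero]
  have hz : ∀ c, ‖G (c, 1) - (G (c, 0) + G (c, 2)) / 2‖ ≤ 0 := by
    intro c
    rw [hS.mid, sub_self, norm_zero]
  have h := Helper90.C75.Mod.mulQ hw h0 h1 hf.mod hg hf.val.bd hS.bd hcF hcG hf.val.dif hS.dif hf.val.sec hz
  have e : 4 * ((UU : ℂ) * f * avg (wq wc t) G) - avg (wq wc t) (fun v => 4 * pq (Fv n M.v) G v) =
      4 * ((UU : ℂ) * f * avg (wq wc t) G - avg (wq wc t) (pq (Fv n M.v) G)) := by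
    rw [avg_smul]
    ring
  rw [e, norm_mul]
  have e4 : ‖(4 : ℂ)‖ = 4 := by norm_num
  rw [e4]
  refine le_trans ?_ (c_rr (r3 M) S)
  have h2 : ‖(UU : ℂ) * f * avg (wq wc t) G - avg (wq wc t) (pq (Fv n M.v) G)‖ ≤
      (M.r * S.B + 0 * M.B + M.r * 0 + (M.k * S.k + (M.d * 0 + M.f * S.d) / 10 + M.f * 0 / 4)) := h
  show 4 * _ ≤ 4 * ((M.r : ℝ) * S.B + M.k * S.k + M.f * S.d / 10)
  linarith

end prod

/-! ### forms with close entries -/

theorem re_mul_le (x y d : ℂ) {r : ℝ} (h : ‖d‖ ≤ r) :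
    |2 * (conj x * d * y).re| ≤ r * normSq x + r * normSq y := by
  have h1 : |(conj x * d * y).re| ≤ ‖conj x * d * y‖ := Complex.abs_re_le_norm _
  rw [norm_mul, norm_mul, Complex.norm_conj] at h1
  have h2 : ‖x‖ * ‖d‖ * ‖y‖ ≤ r * (‖x‖ * ‖y‖) := by
    have := mul_le_mul_of_nonneg_right h (mul_nonneg (norm_nonneg x) (norm_nonneg y))
    calc ‖x‖ * ‖d‖ * ‖y‖ = ‖d‖ * (‖x‖ * ‖y‖) := by ring
      _ ≤ _ := this
  have hr : 0 ≤ r := (norm_nonneg d).trans h
  have h3 : 2 * (‖x‖ * ‖y‖) ≤ normSq x + normSq y := by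
    rw [Complex.normSq_eq_norm_sq, Complex.normSq_eq_norm_sq]
    nlinarith [sq_nonneg (‖x‖ - ‖y‖)]
  rw [abs_mul, abs_of_pos (two_pos : (0 : ℝ) < 2)]
  nlinarith [mul_le_mul_of_nonneg_left h3 hr]

/-- COMPARISON of two forms with the same first entry -/
theorem ev_close {a b c b' c' : ℝ} {x y w x' y' w' : ℂ} {r1 r2 s t u : ℝ}
    (hb : |b - b'| ≤ r1) (hc : |c - c'| ≤ r2) (hx : ‖x - x'‖ ≤ s) (hy : ‖y - y'‖ ≤ t)
    (hw : ‖w - w'‖ ≤ u) (v : Fin 3 → ℂ) :
    ev (mkH a b' c' x' y' w') v - ((s + t) * normSq (v 0) + (s + r1 + u) * normSq (v 1) +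
      (t + u + r2) * normSq (v 2)) ≤ ev (mkH a b c x y w) v := by
  have key : ∀ z : ℂ, ((z.re : ℝ) : ℂ) + ((z.im : ℝ) : ℂ) * I = z := fun z => Complex.re_add_im z
  have e1 : ev (mkH a b c x y w) v = a * normSq (v 0) + b * normSq (v 1) + c * normSq (v 2) +
      2 * (conj (v 0) * x * v 1).re + 2 * (conj (v 0) * y * v 2).re +
      2 * (conj (v 1) * w * v 2).re := by
    simp only [ev, mkH, key]
  have e2 : ev (mkH a b' c' x' y' w') v = a * normSq (v 0) + b' * normSq (v 1) +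
      c' * normSq (v 2) + 2 * (conj (v 0) * x' * v 1).re + 2 * (conj (v 0) * y' * v 2).re +
      2 * (conj (v 1) * w' * v 2).re := by
    simp only [ev, mkH, key]
  rw [e1, e2]
  have d1 := abs_le.1 (re_mul_le (v 0) (v 1) (x - x') hx)
  have d2 := abs_le.1 (re_mul_le (v 0) (v 2) (y - y') hy)
  have d3 := abs_le.1 (re_mul_le (v 1) (v 2) (w - w') hw)
  have s1 : (conj (v 0) * (x - x') * v 1).re = (conj (v 0) * x * v 1).re -
      (conj (v 0) * x' * v 1).re := by
    rw [← Complex.sub_re]; congr 1; ring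
  have s2 : (conj (v 0) * (y - y') * v 2).re = (conj (v 0) * y * v 2).re -
      (conj (v 0) * y' * v 2).re := by
    rw [← Complex.sub_re]; congr 1; ring
  have s3 : (conj (v 1) * (w - w') * v 2).re = (conj (v 1) * w * v 2).re -
      (conj (v 1) * w' * v 2).re := by
    rw [← Complex.sub_re]; congr 1; ring
  rw [s1] at d1
  rw [s2] at d2
  rw [s3] at d3
  have n1 := Complex.normSq_nonneg (v 1)
  have n2 := Complex.normSq_nonneg (v 2)
  have hb' := abs_le.1 hb
  have hc' := abs_le.1 hc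
  have f1 := mul_le_mul_of_nonneg_right hb'.1 n1
  have f2 := mul_le_mul_of_nonneg_right hc'.1 n2
  nlinarith [d1.1, d2.1, d3.1, f1, f2]

end Pool.Agent.Helper21.KCE
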