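import Pool.Agent.Helper21.CX.KCB

/-!
Row KCE, part D: the control forms computed by the checker (with the diagonal errors) are below
`4 UU C^* K C`.
-/

set_option autoImplicit false
noncomputable section
namespace Pool.Agent.Helper21.KCE

open Pool.Agent.Helper86.CX
open Pool.Agent.Helper86.C75 (Z)
open Pool.Agent.Helper90.C75 (Wts avg wq pq avg_re avg_im avg_smul)
open Pool.Agent.Helper90.KMO
open Pool.Agent.Helper17.PAK (EncP Rep Bd kz k9_enc sc nrm ev_lin)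
open Complex ComplexConjugate

/-! ### averages of forms -/

variable {V : Type} [Fintype V]

/-- average of forms -/
def avH (w : V → ℝ) (Q : V → Hm ℝ) : Hm ℝ :=
  ⟨∑ v, w v * (Q v).a, ∑ v, w v * (Q v).b, ∑ v, w v * (Q v).c, ∑ v, w v * (Q v).d,
    ∑ v, w v * (Q v).e, ∑ v, w v * (Q v).f, ∑ v, w v * (Q v).g, ∑ v, w v * (Q v).h,
    ∑ v, w v * (Q v).i⟩

theorem ev_avH (w : V → ℝ) (Q : V → Hm ℝ) (z : Fin 3 → ℂ) :
    ev (avH w Q) z = ∑ v, w v * ev (Q v) z := by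
  simp only [ev_lin]
  simp only [avH, Finset.sum_mul, mul_add, mul_sub, Finset.sum_add_distrib, Finset.sum_sub_distrib,
    mul_assoc]

/-- complex integer -/
def cx (a b : ℤ) : ℂ := ⟨(a : ℝ), (b : ℝ)⟩

theorem cx_add (a b c d : ℤ) : cx (a + c) (b + d) = cx a b + cx c d := by
  apply Complex.ext
  · show ((a + c : ℤ) : ℝ) = (a : ℝ) + c
    push_cast; rfl
  · show ((b + d : ℤ) : ℝ) = (b : ℝ) + d
    push_cast; rfl

theorem cx_neg (a b : ℤ) : cx (-a) (-b) = -cx a b := by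
  apply Complex.ext
  · show ((-a : ℤ) : ℝ) = -(a : ℝ)
    push_cast; rfl
  · show ((-b : ℤ) : ℝ) = -(b : ℝ)
    push_cast; rfl

theorem cx_smul (k a b : ℤ) : cx (k * a) (k * b) = (k : ℂ) * cx a b := by
  apply Complex.ext
  · show ((k * a : ℤ) : ℝ) = _
    simp [cx]
  · show ((k * b : ℤ) : ℝ) = _
    simp [cx]

/-- the entries of the congruence -/
theorem FOi_x (c : CI) (K : Hm ℤ) : cx (FOi c K).d (FOi c K).e = cx c.c2r c.c2i * cx K.d K.e := by
  apply Complex.ext <;> simp [cx, FOi] <;> ring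

theorem FOi_y (c : CI) (K : Hm ℤ) : cx (FOi c K).f (FOi c K).g =
    cx c.er c.ei * cx K.a 0 + cx c.c3r c.c3i * cx K.f K.g := by
  apply Complex.ext <;> simp [cx, FOi] <;> ring

theorem FOi_w (c : CI) (K : Hm ℤ) : cx (FOi c K).h (FOi c K).i =
    cx c.pr c.pi * cx K.d (-K.e) + cx c.mr c.mi * cx K.h K.i := by
  apply Complex.ext <;> simp [cx, FOi] <;> ring

theorem FOi_b (c : CI) (K : Hm ℤ) (s : ℤ) : (((FOi c K).b : ℤ) : ℝ) =
    (cx c.n22 s * cx K.b 0).re := by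
  simp [cx, FOi]

theorem FOi_c (c : CI) (K : Hm ℤ) (s s' : ℤ) : (((FOi c K).c : ℤ) : ℝ) =
    (cx c.n33 s * cx K.c 0 + cx c.nee s' * cx K.a 0 + 2 * (cx c.qr c.qi * cx K.f K.g)).re := by
  simp [cx, FOi]
  ring

/-! ### values at a corner -/

/-- integer coefficients from complex integers -/
def ciO (w : ℕ) (x y e a b d c g h : Cx) : CI :=
  ⟨w, zv x.re, zv x.im, zv y.re, zv y.im, zv e.re, zv e.im, zv a.re, zv b.re, zv d.re,
    zv c.re, zv c.im, zv g.re, zv g.im, zv h.re, zv h.im⟩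

def zero1 : Cx := ⟨Z.p 0, Z.p 0⟩

theorem cvO1_rep (w : ℕ) (x y e a b d c g h : Cx) :
    RepC (cvO1 w x y e a b d c g h) (ciO w x y e a b d c g h) :=
  ⟨Rp.nat w, toM_rep _, toM_rep _, toM_rep _, toM_rep _, toM_rep _, toM_rep _, toM_rep _,
    toM_rep _, toM_rep _, toM_rep _, toM_rep _, toM_rep _, toM_rep _, toM_rep _, toM_rep _⟩

theorem zero_rep : Rp (nat_lit 0) (zv (Z.p 0)) := Rp.nat 0

theorem cvE1_rep (w : ℕ) (x y a b c : Cx) :
    RepC (cvE1 w x y a b c) (ciO w x y zero1 a b zero1 c zero1 zero1) :=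
  ⟨Rp.nat w, toM_rep _, toM_rep _, toM_rep _, toM_rep _, zero_rep, zero_rep, toM_rep _,
    toM_rep _, zero_rep, toM_rep _, toM_rep _, zero_rep, zero_rep, zero_rep, zero_rep⟩

/-- without `e` the two congruences agree -/
theorem FEi_eq (w : ℕ) (x y a b c : Cx) (K : Hm ℤ) :
    FEi (ciO w x y zero1 a b zero1 c zero1 zero1) K =
      FOi (ciO w x y zero1 a b zero1 c zero1 zero1) K := by
  have h0 : zv zero1.re = 0 := rfl
  have h1 : zv zero1.im = 0 := rfl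
  simp only [FEi, FOi, ciO, h0, h1, Hm.mk.injEq]
  refine ⟨trivial, trivial, ?_, trivial, trivial, ?_, ?_, ?_, ?_⟩
  · ring
  · ring
  · ring
  · ring
  · ring

/-- the unit as a natural number -/
def U48 : ℕ := 281474976710656

theorem U48_cast : ((U48 : ℕ) : ℝ) = UU := by
  unfold U48 UU
  norm_num

/-- the three control forms at a corner -/
def Q3 (E : E3) (x y e a b d c g h : C3) (T : K2) : Fin 3 → Hm ℤ :=
  ![fin4i E (FOi (ciO U48 x.a y.a e.a a.a b.a d.a c.a g.a h.a) (kz T.s)),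
    finci E (FOi (ciO U48 x.c y.c e.c a.c b.c d.c c.c g.c h.c) (addI (kz T.s) (kz T.t)))
      (FOi (ciO 0 (csub x.b x.a) (csub y.b y.a) (csub e.b e.a) (csub a.b a.a) (csub b.b b.a)
        (csub d.b d.a) (csub c.b c.a) (csub g.b g.a) (csub h.b h.a)) (subI (kz T.t) (kz T.s))),
    fin4i E (FOi (ciO U48 x.b y.b e.b a.b b.b d.b c.b g.b h.b) (kz T.t))]

/-! ### the vertex forms -/

section vert

variable {n : ℕ}

/-- the nine lists -/
structure L9 where
  x : List C3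
  y : List C3
  e : List C3
  a : List C3
  b : List C3
  d : List C3
  c : List C3
  g : List C3
  h : List C3

/-- the control form at a vertex -/
def QV (n : ℕ) (E : E3) (l : L9) (L : List K2) (v : Fin n × Fin 3) : Hm ℤ :=
  Q3 E (gv l.x v.1) (gv l.y v.1) (gv l.e v.1) (gv l.a v.1) (gv l.b v.1) (gv l.d v.1)
    (gv l.c v.1) (gv l.g v.1) (gv l.h v.1) (g2 L v.1) v.2

theorem pq_0 (F G : Fin n × Fin 3 → ℂ) (i : Fin n) : pq F G (i, 0) = F (i, 0) * G (i, 0) := by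
  show (if (0 : Fin 3) = 1 then _ else _) = _
  rw [if_neg (by decide)]

theorem pq_2 (F G : Fin n × Fin 3 → ℂ) (i : Fin n) : pq F G (i, 2) = F (i, 2) * G (i, 2) := by
  show (if (2 : Fin 3) = 1 then _ else _) = _
  rw [if_neg (by decide)]

theorem pq_1 (F G : Fin n × Fin 3 → ℂ) (i : Fin n) (hG : G (i, 1) = (G (i, 0) + G (i, 2)) / 2) :
    4 * pq F G (i, 1) = 2 * (F (i, 1) * (G (i, 0) + G (i, 2))) -
      (F (i, 2) - F (i, 0)) * (G (i, 2) - G (i, 0)) := by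
  unfold pq
  rw [if_pos rfl, hG]
  ring

theorem cz_cx (x : Cx) : cz x = cx (zv x.re) (zv x.im) := rfl

/-- complex form of the table entries at a vertex -/
theorem Gc_0 (L : List K2) (j j' : ℕ) (i : Fin n) :
    Gc n L j j' (i, 0) = cx (gz (g2 L i).s j) (gz (g2 L i).s j') := rfl

theorem Gc_2 (L : List K2) (j j' : ℕ) (i : Fin n) :
    Gc n L j j' (i, 2) = cx (gz (g2 L i).t j) (gz (g2 L i).t j') := rfl

/-- a real entry as a complex number -/
def GR (n : ℕ) (L : List K2) (j : ℕ) : Fin n × Fin 3 → ℂ := fun v => ((Gr n L j v : ℝ) : ℂ)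

theorem GR_0 (L : List K2) (j : ℕ) (i : Fin n) : GR n L j (i, 0) = cx (gz (g2 L i).s j) 0 := by
  apply Complex.ext
  · rfl
  · simp [GR, cx]

theorem GR_2 (L : List K2) (j : ℕ) (i : Fin n) : GR n L j (i, 2) = cx (gz (g2 L i).t j) 0 := by
  apply Complex.ext
  · rfl
  · simp [GR, cx]

theorem GR_mid (L : List K2) (j : ℕ) (i : Fin n) :
    GR n L j (i, 1) = (GR n L j (i, 0) + GR n L j (i, 2)) / 2 := by
  unfold GR
  have e2 : (2 : ℂ) = ((2 : ℝ) : ℂ) := by norm_num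
  rw [e2, ← Complex.ofReal_add, ← Complex.ofReal_div]
  congr 1

/-- the product at a vertex: the three cases -/
theorem pq3 {F G : Fin n × Fin 3 → ℂ} (i : Fin n) (hG : G (i, 1) = (G (i, 0) + G (i, 2)) / 2)
    {P : Fin 3 → ℂ} (h0 : P 0 = 4 * (F (i, 0) * G (i, 0)))
    (h1 : P 1 = 2 * (F (i, 1) * (G (i, 0) + G (i, 2))) -
      (F (i, 2) - F (i, 0)) * (G (i, 2) - G (i, 0)))
    (h2 : P 2 = 4 * (F (i, 2) * G (i, 2))) (j : Fin 3) : P j = 4 * pq F G (i, j) := by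
  fin_cases j
  · show P 0 = 4 * pq F G (i, 0)
    rw [h0, pq_0]
  · show P 1 = 4 * pq F G (i, 1)
    rw [h1, pq_1 F G i hG]
  · show P 2 = 4 * pq F G (i, 2)
    rw [h2, pq_2]

theorem QV_a (E : E3) (l : L9) (L : List K2) (v : Fin n × Fin 3) :
    (((QV n E l L v).a : ℤ) : ℝ) = 4 * UU * Gr n L 0 v - E.x := by
  obtain ⟨i, j⟩ := v
  have e0 : ∀ K : ℕ, (kz K).a = gz K 0 := fun K => rfl
  fin_cases j
  · show (((4 * ((U48 : ℤ) * (kz (g2 L i).s).a) + -(E.x : ℤ)) : ℤ) : ℝ) = 4 * UU * kt (g2 L i) 0 0 - E.x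
    rw [e0, ← U48_cast]
    simp only [kt, Matrix.cons_val_zero]
    push_cast
    ring
  · show (((2 * ((U48 : ℤ) * ((kz (g2 L i).s).a + (kz (g2 L i).t).a)) +
      -(((0 : ℕ) : ℤ) * ((kz (g2 L i).t).a - (kz (g2 L i).s).a) + (E.x : ℤ))) : ℤ) : ℝ) =
      4 * UU * kt (g2 L i) 0 1 - E.x
    rw [e0, e0, ← U48_cast]
    simp only [kt, Matrix.cons_val_one, Matrix.cons_val_zero]
    push_cast
    ring
  · show (((4 * ((U48 : ℤ) * (kz (g2 L i).t).a) + -(E.x : ℤ)) : ℤ) : ℝ) = 4 * UU * kt (g2 L i) 0 2 - E.x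
    rw [e0, ← U48_cast]
    simp only [kt, Matrix.cons_val]
    push_cast
    ring

/-- one product at the three controls -/
def PP (X : C3) (g : Hm ℤ → ℂ) (T : K2) : Fin 3 → ℂ :=
  ![4 * (cz X.a * g (kz T.s)),
    2 * (cz X.c * g (addI (kz T.s) (kz T.t))) - cz (csub X.b X.a) * g (subI (kz T.t) (kz T.s)),
    4 * (cz X.b * g (kz T.t))]

/-- additive -/
structure Adv (g : Hm ℤ → ℂ) : Prop where
  add : ∀ I J, g (addI I J) = g I + g J
  sub : ∀ I J, g (subI I J) = g I - g J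

theorem PP_eq (l : List C3) (L : List K2) {g : Hm ℤ → ℂ} (hg : Adv g) {G : Fin n × Fin 3 → ℂ}
    (hm : ∀ i, G (i, 1) = (G (i, 0) + G (i, 2)) / 2)
    (h0 : ∀ i : Fin n, g (kz (g2 L i).s) = G (i, 0))
    (h2 : ∀ i : Fin n, g (kz (g2 L i).t) = G (i, 2))
    (v : Fin n × Fin 3) : PP (gv l v.1) g (g2 L v.1) v.2 = 4 * pq (Fv n l) G v := by
  obtain ⟨i, j⟩ := v
  fin_cases j
  · show 4 * (cz (gv l i).a * g (kz (g2 L i).s)) = 4 * pq (Fv n l) G (i, 0)
    rw [pq_0, h0]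
    rfl
  · show 2 * (cz (gv l i).c * g (addI (kz (g2 L i).s) (kz (g2 L i).t))) -
      cz (csub (gv l i).b (gv l i).a) * g (subI (kz (g2 L i).t) (kz (g2 L i).s)) =
      4 * pq (Fv n l) G (i, 1)
    rw [pq_1 _ _ _ (hm i), hg.add, hg.sub, h0, h2, cz_sub]
    rfl
  · show 4 * (cz (gv l i).b * g (kz (g2 L i).t)) = 4 * pq (Fv n l) G (i, 2)
    rw [pq_2, h2]
    rfl

def gx (K : Hm ℤ) : ℂ := cx K.d K.e
def gx' (K : Hm ℤ) : ℂ := cx K.d (-K.e)
def gy (K : Hm ℤ) : ℂ := cx K.f K.g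
def gw (K : Hm ℤ) : ℂ := cx K.h K.i
def ga (K : Hm ℤ) : ℂ := cx K.a 0
def gb (K : Hm ℤ) : ℂ := cx K.b 0
def gc (K : Hm ℤ) : ℂ := cx K.c 0

theorem adv_x : Adv gx := by
  constructor <;> intro I J <;> apply Complex.ext <;> simp [gx, cx, addI, subI]
theorem adv_x' : Adv gx' := by
  constructor <;> intro I J <;> apply Complex.ext <;> simp [gx', cx, addI, subI] <;> ring
theorem adv_y : Adv gy := by
  constructor <;> intro I J <;> apply Complex.ext <;> simp [gy, cx, addI, subI]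
theorem adv_w : Adv gw := by
  constructor <;> intro I J <;> apply Complex.ext <;> simp [gw, cx, addI, subI]
theorem adv_a : Adv ga := by
  constructor <;> intro I J <;> apply Complex.ext <;> simp [ga, cx, addI, subI]
theorem adv_b : Adv gb := by
  constructor <;> intro I J <;> apply Complex.ext <;> simp [gb, cx, addI, subI]
theorem adv_c : Adv gc := by
  constructor <;> intro I J <;> apply Complex.ext <;> simp [gc, cx, addI, subI]

section ent

variable (E : E3) (x y e a b d c g h : C3) (T : K2)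

theorem Q3_x (j : Fin 3) : cx (Q3 E x y e a b d c g h T j).d (Q3 E x y e a b d c g h T j).e =
    PP x gx T j := by
  fin_cases j
  · show cx (4 * (FOi _ (kz T.s)).d) (4 * (FOi _ (kz T.s)).e) = 4 * (cz x.a * gx (kz T.s))
    rw [cx_smul, FOi_x]
    push_cast
    rfl
  · show cx (2 * (FOi _ _).d + -(FOi _ _).d) (2 * (FOi _ _).e + -(FOi _ _).e) =
      2 * (cz x.c * gx _) - cz (csub x.b x.a) * gx _
    rw [cx_add, cx_smul, cx_neg, FOi_x, FOi_x, sub_eq_add_neg]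
    push_cast
    rfl
  · show cx (4 * (FOi _ (kz T.t)).d) (4 * (FOi _ (kz T.t)).e) = 4 * (cz x.b * gx (kz T.t))
    rw [cx_smul, FOi_x]
    push_cast
    rfl

theorem Q3_y (j : Fin 3) : cx (Q3 E x y e a b d c g h T j).f (Q3 E x y e a b d c g h T j).g =
    PP e ga T j + PP y gy T j := by
  fin_cases j
  · show cx (4 * (FOi _ (kz T.s)).f) (4 * (FOi _ (kz T.s)).g) =
      4 * (cz e.a * ga (kz T.s)) + 4 * (cz y.a * gy (kz T.s))
    rw [cx_smul, FOi_y, ← mul_add]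
    push_cast
    rfl
  · show cx (2 * (FOi _ _).f + -(FOi _ _).f) (2 * (FOi _ _).g + -(FOi _ _).g) =
      (2 * (cz e.c * ga _) - cz (csub e.b e.a) * ga _) +
        (2 * (cz y.c * gy _) - cz (csub y.b y.a) * gy _)
    rw [cx_add, cx_smul, cx_neg, FOi_y, FOi_y]
    have e1 : ∀ A B C D : ℂ, (2 * A - B) + (2 * C - D) = ((2 : ℤ) : ℂ) * (A + C) + -(B + D) := by
      intro A B C D
      push_cast
      ring
    rw [e1]
    rfl
  · show cx (4 * (FOi _ (kz T.t)).f) (4 * (FOi _ (kz T.t)).g) =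
      4 * (cz e.b * ga (kz T.t)) + 4 * (cz y.b * gy (kz T.t))
    rw [cx_smul, FOi_y, ← mul_add]
    push_cast
    rfl

theorem Q3_w (j : Fin 3) : cx (Q3 E x y e a b d c g h T j).h (Q3 E x y e a b d c g h T j).i =
    PP g gx' T j + PP c gw T j := by
  fin_cases j
  · show cx (4 * (FOi _ (kz T.s)).h) (4 * (FOi _ (kz T.s)).i) =
      4 * (cz g.a * gx' (kz T.s)) + 4 * (cz c.a * gw (kz T.s))
    rw [cx_smul, FOi_w, ← mul_add]
    push_cast
    rfl
  · show cx (2 * (FOi _ _).h + -(FOi _ _).h) (2 * (FOi _ _).i + -(FOi _ _).i) =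
      (2 * (cz g.c * gx' _) - cz (csub g.b g.a) * gx' _) +
        (2 * (cz c.c * gw _) - cz (csub c.b c.a) * gw _)
    rw [cx_add, cx_smul, cx_neg, FOi_w, FOi_w]
    have e1 : ∀ A B C D : ℂ, (2 * A - B) + (2 * C - D) = ((2 : ℤ) : ℂ) * (A + C) + -(B + D) := by
      intro A B C D
      push_cast
      ring
    rw [e1]
    rfl
  · show cx (4 * (FOi _ (kz T.t)).h) (4 * (FOi _ (kz T.t)).i) =
      4 * (cz g.b * gx' (kz T.t)) + 4 * (cz c.b * gw (kz T.t))
    rw [cx_smul, FOi_w, ← mul_add]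
    push_cast
    rfl

theorem re_lin2 (A B : ℂ) (e : ℝ) : (2 * A - B).re - e = 2 * A.re + -(B.re + e) := by
  simp
  ring

theorem re_lin4 (A : ℂ) (e : ℝ) : (4 * A).re - e = 4 * A.re + -e := by
  simp
  ring

theorem Q3_b (j : Fin 3) : (((Q3 E x y e a b d c g h T j).b : ℤ) : ℝ) = (PP a gb T j).re - E.y := by
  fin_cases j
  · show (((4 * (FOi _ (kz T.s)).b + -(E.y : ℤ)) : ℤ) : ℝ) = (4 * (cz a.a * gb (kz T.s))).re - E.y
    push_cast
    rw [FOi_b _ _ (zv a.a.im), re_lin4]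
    rfl
  · show (((2 * (FOi _ _).b + -((FOi _ _).b + (E.y : ℤ))) : ℤ) : ℝ) =
      (2 * (cz a.c * gb _) - cz (csub a.b a.a) * gb _).re - E.y
    push_cast
    rw [FOi_b _ _ (zv a.c.im), FOi_b _ _ (zv (csub a.b a.a).im), re_lin2]
    rfl
  · show (((4 * (FOi _ (kz T.t)).b + -(E.y : ℤ)) : ℤ) : ℝ) = (4 * (cz a.b * gb (kz T.t))).re - E.y
    push_cast
    rw [FOi_b _ _ (zv a.b.im), re_lin4]
    rfl

theorem Q3_c (j : Fin 3) : (((Q3 E x y e a b d c g h T j).c : ℤ) : ℝ) =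
    (PP b gc T j + PP d ga T j + 2 * PP h gy T j).re - E.z := by
  fin_cases j
  · show (((4 * (FOi _ (kz T.s)).c + -(E.z : ℤ)) : ℤ) : ℝ) = (4 * (cz b.a * gc (kz T.s)) +
      4 * (cz d.a * ga (kz T.s)) + 2 * (4 * (cz h.a * gy (kz T.s)))).re - E.z
    push_cast
    rw [FOi_c _ _ (zv b.a.im) (zv d.a.im)]
    have e1 : ∀ A B C : ℂ, 4 * A + 4 * B + 2 * (4 * C) = 4 * (A + B + 2 * C) := by
      intro A B C; ring
    rw [e1, re_lin4]
    rfl
  · show (((2 * (FOi _ _).c + -((FOi _ _).c + (E.z : ℤ))) : ℤ) : ℝ) =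
      ((2 * (cz b.c * gc _) - cz (csub b.b b.a) * gc _) +
        (2 * (cz d.c * ga _) - cz (csub d.b d.a) * ga _) +
        2 * (2 * (cz h.c * gy _) - cz (csub h.b h.a) * gy _)).re - E.z
    push_cast
    rw [FOi_c _ _ (zv b.c.im) (zv d.c.im), FOi_c _ _ (zv (csub b.b b.a).im) (zv (csub d.b d.a).im)]
    have e1 : ∀ A A' B B' C C' : ℂ, (2 * A - A') + (2 * B - B') + 2 * (2 * C - C') =
        2 * (A + B + 2 * C) - (A' + B' + 2 * C') := by
      intro A A' B B' C C'; ring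
    rw [e1, re_lin2]
    rfl
  · show (((4 * (FOi _ (kz T.t)).c + -(E.z : ℤ)) : ℤ) : ℝ) = (4 * (cz b.b * gc (kz T.t)) +
      4 * (cz d.b * ga (kz T.t)) + 2 * (4 * (cz h.b * gy (kz T.t)))).re - E.z
    push_cast
    rw [FOi_c _ _ (zv b.b.im) (zv d.b.im)]
    have e1 : ∀ A B C : ℂ, 4 * A + 4 * B + 2 * (4 * C) = 4 * (A + B + 2 * C) := by
      intro A B C; ring
    rw [e1, re_lin4]
    rfl

end ent

end vert

end Pool.Agent.Helper21.KCE
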