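import Pool.Agent.Helper21.CX.KCF
import Pool.Agent.Helper17.C75.Kp8

/-!
Row KCE, part G: a priori bounds of the integers of the checker.
-/

set_option autoImplicit false
set_option exponentiation.threshold 4000
noncomputable section
namespace Pool.Agent.Helper21.KCE

open Pool.Agent.Helper86.CX
open Pool.Agent.Helper86.C75 (Z)
open Pool.Agent.Helper90.C75 (Wts avg wq pq avg_re avg_im avg_smul avg_add)
open Pool.Agent.Helper90.KMO
open Pool.Agent.Helper17.PAK (EncP Rep Bd kz k9_enc sc nrm ev_lin andB_iff u32_lt)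
open Complex ComplexConjugate

/-! ### bounds of the statistics -/

theorem foldK_ub (f : K2 → ℕ) (C : ℕ) : ∀ l : List K2, (∀ x ∈ l, f x ≤ C) → foldK f l ≤ C := by
  intro l
  induction l with
  | nil => intro _; exact Nat.zero_le _
  | cons y l ih =>
    intro h
    have e : foldK f (y :: l) = mx (f y) (foldK f l) := rfl
    rw [e, mx_eq]
    exact max_le (h y (List.mem_cons_self ..)) (ih fun x hx => h x (List.mem_cons_of_mem _ hx))

theorem u32_le (K k : ℕ) : u32 K k ≤ 2 ^ 32 := (u32_lt K k).le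

theorem sumS_ub (k : ℕ) (l : List K2) : sumS k l ≤ l.length * 2 ^ 32 := by
  induction l with
  | nil => exact Nat.zero_le _
  | cons x l ih =>
    have e : sumS k (x :: l) = u32 x.s k + sumS k l := rfl
    rw [e, List.length_cons, Nat.succ_mul, Nat.add_comm]
    exact Nat.add_le_add ih (u32_le _ _)

theorem sumT_ub (k : ℕ) (l : List K2) : sumT k l ≤ l.length * 2 ^ 32 := by
  induction l with
  | nil => exact Nat.zero_le _
  | cons x l ih =>
    have e : sumT k (x :: l) = u32 x.t k + sumT k l := rfl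
    rw [e, List.length_cons, Nat.succ_mul, Nat.add_comm]
    exact Nat.add_le_add ih (u32_le _ _)

theorem absd_ub {a b C : ℕ} (ha : a ≤ C) (hb : b ≤ C) : absd a b ≤ C := by
  have h : absd a b = (a - b) + (b - a) := rfl
  rw [h]
  omega

theorem nb2_ub {a b C : ℕ} (ha : a ≤ C) (hb : b ≤ C) : nb2 a b ≤ 2 * C + 1 := by
  have h : nb2 a b = (a + b + max a b) / 2 + 1 := by
    unfold nb2
    rw [mx_eq]
    rfl
  rw [h]
  have : max a b ≤ C := max_le ha hb
  omega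

/-- bounds of a statistic -/
structure S3b (S : S3) : Prop where
  B : S.B ≤ 2 ^ 34
  k : S.k ≤ 2 ^ 35
  d : S.d ≤ 2 ^ 34

theorem ifk_le (n x : ℕ) : ifk n x ≤ x := by
  unfold ifk
  cases Nat.beq n 1
  · exact le_rfl
  · exact Nat.zero_le _

theorem div_ub' {n : ℕ} (hn : 0 < n) {a C : ℕ} (h : a ≤ C * n) : Nat.div a n ≤ C :=
  Nat.div_le_of_le_mul (by rw [Nat.mul_comm]; exact h)

theorem stR_b {n : ℕ} (hn : 0 < n) (k : ℕ) {L : List K2} (hL : L.length = n) :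
    S3b (stR n k L) := by
  refine ⟨?_, ?_, ?_⟩
  · refine foldK_ub _ _ _ fun x _ => ?_
    simp only [mx_eq]
    refine max_le ?_ ?_
    · exact (absd_ub (C := 2 ^ 32) (u32_le _ _) (by norm_num)).trans (by norm_num)
    · exact (absd_ub (C := 2 ^ 32) (u32_le _ _) (by norm_num)).trans (by norm_num)
  · refine (ifk_le _ _).trans ?_
    have h1 : foldK (fun x => mx (absd (Nat.mul n (u32 x.s k)) (sumS k L))
        (absd (Nat.mul n (u32 x.t k)) (sumT k L))) L ≤ 2 ^ 32 * n := by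
      refine foldK_ub _ _ _ fun x _ => ?_
      simp only [mx_eq]
      have hs := sumS_ub k L
      have ht := sumT_ub k L
      rw [hL] at hs ht
      refine max_le (absd_ub ?_ ?_) (absd_ub ?_ ?_)
      · rw [Nat.mul_comm (2 ^ 32)]; exact Nat.mul_le_mul_left _ (u32_le _ _)
      · rw [Nat.mul_comm]; exact hs
      · rw [Nat.mul_comm (2 ^ 32)]; exact Nat.mul_le_mul_left _ (u32_le _ _)
      · rw [Nat.mul_comm]; exact ht
    have h2 := div_ub' hn h1
    show Nat.div _ n + 1 ≤ _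
    exact (Nat.add_le_add_right h2 1).trans (by norm_num)
  · refine foldK_ub _ _ _ fun x _ => ?_
    exact (absd_ub (C := 2 ^ 32) (u32_le _ _) (u32_le _ _)).trans (by norm_num)

theorem stC_b {n : ℕ} (hn : 0 < n) (k k' : ℕ) {L : List K2} (hL : L.length = n) :
    S3b (stC n k k' L) := by
  have q : ∀ K j : ℕ, absd (u32 K j) 2147483648 ≤ 2 ^ 32 := fun K j =>
    absd_ub (u32_le _ _) (by norm_num)
  refine ⟨?_, ?_, ?_⟩
  · refine foldK_ub _ _ _ fun x _ => ?_
    simp only [mx_eq]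
    refine max_le ?_ ?_
    · exact (nb2_ub (q _ _) (q _ _)).trans (by norm_num)
    · exact (nb2_ub (q _ _) (q _ _)).trans (by norm_num)
  · refine (ifk_le _ _).trans ?_
    have h1 : foldK (fun x => mx
        (nb2 (absd (Nat.mul n (u32 x.s k)) (sumS k L)) (absd (Nat.mul n (u32 x.s k')) (sumS k' L)))
        (nb2 (absd (Nat.mul n (u32 x.t k)) (sumT k L)) (absd (Nat.mul n (u32 x.t k')) (sumT k' L))))
        L ≤ (2 ^ 33 + 1) * n := by
      refine foldK_ub _ _ _ fun x _ => ?_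
      simp only [mx_eq]
      have hs := sumS_ub k L
      have ht := sumT_ub k L
      have hs' := sumS_ub k' L
      have ht' := sumT_ub k' L
      rw [hL] at hs ht hs' ht'
      have g : ∀ {a s : ℕ}, a ≤ 2 ^ 32 → s ≤ n * 2 ^ 32 → absd (Nat.mul n a) s ≤ n * 2 ^ 32 := by
        intro a s ha hs
        exact absd_ub (Nat.mul_le_mul_left _ ha) hs
      have hC : 2 * (n * 2 ^ 32) + 1 ≤ (2 ^ 33 + 1) * n := by
        have e : (2 ^ 33 + 1) * n = 2 * (n * 2 ^ 32) + n := by ring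
        rw [e]
        omega
      exact max_le ((nb2_ub (g (u32_le _ _) hs) (g (u32_le _ _) hs')).trans hC)
        ((nb2_ub (g (u32_le _ _) ht) (g (u32_le _ _) ht')).trans hC)
    have h2 := div_ub' hn h1
    show Nat.div _ n + 1 ≤ _
    exact (Nat.add_le_add_right h2 1).trans (by norm_num)
  · refine foldK_ub _ _ _ fun x _ => ?_
    exact (nb2_ub (C := 2 ^ 32) (absd_ub (u32_le _ _) (u32_le _ _))
      (absd_ub (u32_le _ _) (u32_le _ _))).trans (by norm_num)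

/-- bounds of the radii -/
structure R3b (m : R3) : Prop where
  r : m.r ≤ 2 ^ 64
  k : m.k ≤ 2 ^ 64
  f : m.f ≤ 2 ^ 64

theorem z3_b : R3b z3 := ⟨Nat.zero_le _, Nat.zero_le _, Nat.zero_le _⟩

theorem rr_b {m : R3} {s : S3} (hm : R3b m) (hs : S3b s) : rr m s ≤ 2 ^ 104 := by
  have e : rr m s = 4 * (m.r * s.B + m.k * s.k) + (4 * m.f * s.d) / 10 + 3 := rfl
  have h1 : m.r * s.B ≤ 2 ^ 64 * 2 ^ 34 := Nat.mul_le_mul hm.r hs.B
  have h2 : m.k * s.k ≤ 2 ^ 64 * 2 ^ 35 := Nat.mul_le_mul hm.k hs.k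
  have h3 : 4 * m.f * s.d ≤ 4 * 2 ^ 64 * 2 ^ 34 :=
    Nat.mul_le_mul (Nat.mul_le_mul_left _ hm.f) hs.d
  have h4 : (4 * m.f * s.d) / 10 ≤ 4 * m.f * s.d := Nat.div_le_self _ _
  rw [e]
  norm_num at h1 h2 h3 ⊢
  omega

/-- bounds of the diagonal errors -/
structure E3b (E : E3) : Prop where
  x : E.x ≤ 2 ^ 110
  y : E.y ≤ 2 ^ 110
  z : E.z ≤ 2 ^ 110

structure CRb (c : CR) : Prop where
  c2 : R3b c.c2
  c3 : R3b c.c3
  e : R3b c.e
  n22 : R3b c.n22
  n33 : R3b c.n33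
  nee : R3b c.nee
  m : R3b c.m
  p : R3b c.p
  q : R3b c.q

structure RKb (q : RK) : Prop where
  a : S3b q.a
  b : S3b q.b
  c : S3b q.c
  x : S3b q.x
  y : S3b q.y
  w : S3b q.w

theorem mkRK_b {n : ℕ} (hn : 0 < n) {L : List K2} (hL : L.length = n) : RKb (mkRK n L) :=
  ⟨stR_b hn _ hL, stR_b hn _ hL, stR_b hn _ hL, stC_b hn _ _ hL, stC_b hn _ _ hL, stC_b hn _ _ hL⟩

theorem EO_b {c : CR} {q : RK} (hc : CRb c) (hq : RKb q) : E3b (EO c q) := by
  have a1 := rr_b hc.c2 hq.x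
  have a2 := rr_b hc.c3 hq.y
  have a3 := rr_b hc.e hq.a
  have a4 := rr_b hc.n22 hq.b
  have a5 := rr_b hc.m hq.w
  have a6 := rr_b hc.p hq.x
  have a7 := rr_b hc.n33 hq.c
  have a8 := rr_b hc.nee hq.a
  have a9 := rr_b hc.q hq.y
  have e1 : (EO c q).x = rr c.c2 q.x + (rr c.c3 q.y + rr c.e q.a) := rfl
  have e2 : (EO c q).y = rr c.c2 q.x + rr c.n22 q.b + (rr c.m q.w + rr c.p q.x) := rfl
  have e3 : (EO c q).z = (rr c.c3 q.y + rr c.e q.a) + (rr c.m q.w + rr c.p q.x) + rr c.n33 q.c +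
    rr c.nee q.a + 2 * rr c.q q.y := rfl
  norm_num at a1 a2 a3 a4 a5 a6 a7 a8 a9
  refine ⟨?_, ?_, ?_⟩
  · rw [e1]; norm_num; omega
  · rw [e2]; norm_num; omega
  · rw [e3]; norm_num; omega

theorem EE_b {c : CR} {q : RK} (hc : CRb c) (hq : RKb q) : E3b (EE c q) := by
  have a1 := rr_b hc.c2 hq.x
  have a2 := rr_b hc.c3 hq.y
  have a4 := rr_b hc.n22 hq.b
  have a5 := rr_b hc.m hq.w
  have a7 := rr_b hc.n33 hq.c
  have e1 : (EE c q).x = rr c.c2 q.x + rr c.c3 q.y := rfl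
  have e2 : (EE c q).y = rr c.c2 q.x + rr c.n22 q.b + rr c.m q.w := rfl
  have e3 : (EE c q).z = rr c.c3 q.y + rr c.m q.w + rr c.n33 q.c := rfl
  norm_num at a1 a2 a4 a5 a7
  refine ⟨?_, ?_, ?_⟩
  · rw [e1]; norm_num; omega
  · rw [e2]; norm_num; omega
  · rw [e3]; norm_num; omega

/-! ### bounds of the forms -/

theorem mok_b {m : Mo} (h : mok m = true) : m.r ≤ 2 ^ 64 ∧ m.B ≤ 2 ^ 64 ∧ m.k ≤ 2 ^ 64 ∧
    m.d ≤ 2 ^ 64 ∧ m.f ≤ 2 ^ 64 := by
  have h1 : m.r + m.B + m.k + m.d + m.f ≤ 18446744073709551616 := Nat.le_of_ble_eq_true h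
  norm_num
  omega

theorem r3_b {m : Mo} (h : mok m = true) : R3b (r3 m) := by
  obtain ⟨h1, h2, h3, h4, h5⟩ := mok_b h
  exact ⟨h1, h3, h5⟩

/-- `F` is bounded by `2 ^ 64` -/
def F64 {n : ℕ} (F : Fin n × Fin 3 → ℂ) : Prop := ∀ v, ‖F v‖ ≤ 2 ^ 64

theorem f64_of {n : ℕ} {m : Mo} (h : mok m = true) (hv : VOK n m) : F64 (Fv n m.v) := by
  intro v
  obtain ⟨h1, h2, h3, h4, h5⟩ := mok_b h
  refine (hv.bd v).trans ?_
  exact_mod_cast h2

/-- `G` is bounded by `2 ^ 34` -/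
def G34 {n : ℕ} (G : Fin n × Fin 3 → ℂ) : Prop := ∀ v, ‖G v‖ ≤ 2 ^ 34

theorem SOK.g34 {n : ℕ} {S : S3} {G : Fin n × Fin 3 → ℂ} (h : SOK n S G) (hb : S3b S) : G34 G := by
  intro v
  refine (h.bd v).trans ?_
  exact_mod_cast hb.B

theorem pq_bd {n : ℕ} {F G : Fin n × Fin 3 → ℂ} (hF : F64 F) (hG : G34 G) (v : Fin n × Fin 3) :
    ‖4 * pq F G v‖ ≤ 2 ^ 101 := by
  have e4 : ‖(4 : ℂ)‖ = 4 := by norm_num
  have m1 : ∀ v, ‖F v * G v‖ ≤ 2 ^ 98 := by
    intro v
    rw [norm_mul]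
    have := mul_le_mul (hF v) (hG v) (norm_nonneg _) (by positivity)
    refine this.trans (by norm_num)
  rw [norm_mul, e4]
  unfold pq
  split_ifs with h
  · have m2 : ‖(F (v.1, 2) - F (v.1, 0)) * (G (v.1, 2) - G (v.1, 0)) / 4‖ ≤ 2 ^ 98 := by
      rw [norm_div, norm_mul, e4]
      have a1 : ‖F (v.1, 2) - F (v.1, 0)‖ ≤ 2 ^ 65 := by
        refine (norm_sub_le _ _).trans ?_
        have := hF (v.1, 2)
        have := hF (v.1, 0)
        norm_num at *
        linarith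
      have a2 : ‖G (v.1, 2) - G (v.1, 0)‖ ≤ 2 ^ 35 := by
        refine (norm_sub_le _ _).trans ?_
        have := hG (v.1, 2)
        have := hG (v.1, 0)
        norm_num at *
        linarith
      have := mul_le_mul a1 a2 (norm_nonneg _) (by positivity)
      norm_num at *
      linarith
    have := norm_sub_le (F v * G v) ((F (v.1, 2) - F (v.1, 0)) * (G (v.1, 2) - G (v.1, 0)) / 4)
    have := m1 v
    norm_num at *
    linarith
  · have := m1 v
    norm_num at *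
    linarith

end Pool.Agent.Helper21.KCE
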