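import Pool.Agent.Helper21.CX.KCG

/-!
Row KCE, part H: bounds of the control forms; the list programs; rounding of the run matrix.
-/

set_option autoImplicit false
set_option exponentiation.threshold 4000
noncomputable section
namespace Pool.Agent.Helper21.KCE

open Pool.Agent.Helper86.CX
open Pool.Agent.Helper86.C75 (Z)
open Pool.Agent.Helper90.C75 (Wts avg wq pq avg_re avg_im avg_smul avg_add)
open Pool.Agent.Helper90.KMO
open Pool.Agent.Helper17.PAK (EncP Rep Bd kz k9_enc sc nrm ev_lin andB_iff u32_lt)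
open Complex ComplexConjugate

section ent

variable {n : ℕ} (E : E3) (l : L9) (L : List K2) (v : Fin n × Fin 3)

theorem QV_x : cx (QV n E l L v).d (QV n E l L v).e = 4 * pq (Fv n l.x) (Gc n L 96 128) v := by
  rw [← PP_eq l.x L adv_x (Gc_mid n L 96 128) (fun i => rfl) (fun i => rfl) v]
  exact Q3_x E _ _ _ _ _ _ _ _ _ _ _

theorem QV_y : cx (QV n E l L v).f (QV n E l L v).g =
    4 * pq (Fv n l.e) (GR n L 0) v + 4 * pq (Fv n l.y) (Gc n L 160 192) v := by
  rw [← PP_eq l.y L adv_y (Gc_mid n L 160 192) (fun i => rfl) (fun i => rfl) v,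
    ← PP_eq l.e L adv_a (GR_mid L 0) (fun i => (GR_0 L 0 i).symm) (fun i => (GR_2 L 0 i).symm) v]
  exact Q3_y E _ _ _ _ _ _ _ _ _ _ _

theorem QV_w : cx (QV n E l L v).h (QV n E l L v).i =
    4 * pq (Fv n l.g) (fun v => star (Gc n L 96 128 v)) v +
      4 * pq (Fv n l.c) (Gc n L 224 256) v := by
  have pag : PP (gv l.g v.1) gx' (g2 L v.1) v.2 =
      4 * pq (Fv n l.g) (fun v => star (Gc n L 96 128 v)) v := by
    refine PP_eq l.g L adv_x' (fun i => ?_) (fun i => ?_) (fun i => ?_) v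
    · rw [Gc_mid]
      simp
    · rw [Gc_0]
      apply Complex.ext
      · rfl
      · simp only [gx', cx]
        push_cast
        rfl
    · rw [Gc_2]
      apply Complex.ext
      · rfl
      · simp only [gx', cx]
        push_cast
        rfl
  rw [← pag, ← PP_eq l.c L adv_w (Gc_mid n L 224 256) (fun i => rfl) (fun i => rfl) v]
  exact Q3_w E _ _ _ _ _ _ _ _ _ _ _

theorem QV_b : (((QV n E l L v).b : ℤ) : ℝ) = (4 * pq (Fv n l.a) (GR n L 32) v).re - E.y := by
  rw [← PP_eq l.a L adv_b (GR_mid L 32) (fun i => (GR_0 L 32 i).symm)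
    (fun i => (GR_2 L 32 i).symm) v]
  exact Q3_b E _ _ _ _ _ _ _ _ _ _ _

theorem QV_c : (((QV n E l L v).c : ℤ) : ℝ) = (4 * pq (Fv n l.b) (GR n L 64) v +
    4 * pq (Fv n l.d) (GR n L 0) v + 2 * (4 * pq (Fv n l.h) (Gc n L 160 192) v)).re - E.z := by
  rw [← PP_eq l.b L adv_c (GR_mid L 64) (fun i => (GR_0 L 64 i).symm)
    (fun i => (GR_2 L 64 i).symm) v,
    ← PP_eq l.d L adv_a (GR_mid L 0) (fun i => (GR_0 L 0 i).symm) (fun i => (GR_2 L 0 i).symm) v,
    ← PP_eq l.h L adv_y (Gc_mid n L 160 192) (fun i => rfl) (fun i => rfl) v]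
  exact Q3_c E _ _ _ _ _ _ _ _ _ _ _

end ent

/-- all the lists are bounded -/
structure L9b (n : ℕ) (l : L9) : Prop where
  x : F64 (Fv n l.x)
  y : F64 (Fv n l.y)
  e : F64 (Fv n l.e)
  a : F64 (Fv n l.a)
  b : F64 (Fv n l.b)
  d : F64 (Fv n l.d)
  c : F64 (Fv n l.c)
  g : F64 (Fv n l.g)
  h : F64 (Fv n l.h)

theorem f64_nil (n : ℕ) : F64 (Fv n []) := by
  intro v
  have h : Fv n [] v = 0 := by
    obtain ⟨i, j⟩ := v
    show ct zero3 j = 0
    have ha : cz zero3.a = 0 := by apply Complex.ext <;> simp [cz, zv, zero3]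
    have hc : cz zero3.c = 0 := by apply Complex.ext <;> simp [cz, zv, zero3]
    have hb : cz zero3.b = 0 := by apply Complex.ext <;> simp [cz, zv, zero3]
    fin_cases j
    · exact ha
    · exact hc
    · exact hb
  rw [h, norm_zero]
  positivity

theorem int_bd {d : ℤ} {r : ℝ} (h : |(d : ℝ)| ≤ r) (hr : r ≤ 2 ^ 200) : |d| ≤ 2 ^ 200 := by
  have h1 : ((|d| : ℤ) : ℝ) ≤ ((2 ^ 200 : ℤ) : ℝ) := by
    have e : ((2 ^ 200 : ℤ) : ℝ) = (2 : ℝ) ^ 200 := by norm_num
    have e2 : ((|d| : ℤ) : ℝ) = |(d : ℝ)| := Int.cast_abs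
    rw [e, e2]
    exact h.trans hr
  exact_mod_cast h1

theorem cx_bd {d e : ℤ} {H : ℂ} (h : cx d e = H) {r : ℝ} (hH : ‖H‖ ≤ r) :
    |(d : ℝ)| ≤ r ∧ |(e : ℝ)| ≤ r := by
  have h1 : H.re = d := by rw [← h]; rfl
  have h2 : H.im = e := by rw [← h]; rfl
  rw [← h1, ← h2]
  exact ⟨(Complex.abs_re_le_norm _).trans hH, (Complex.abs_im_le_norm _).trans hH⟩

theorem QV_bd {n : ℕ} (hn : 0 < n) {E : E3} (hE : E3b E) {l : L9} (hl : L9b n l) {L : List K2}
    (hL : L.length = n) (v : Fin n × Fin 3) : Bd (2 ^ 200) (QV n E l L v) := by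
  have ra : G34 (GR n L 0) := (stR_ok hn 0 hL).g34 (stR_b hn 0 hL)
  have rb : G34 (GR n L 32) := (stR_ok hn 32 hL).g34 (stR_b hn 32 hL)
  have rc : G34 (GR n L 64) := (stR_ok hn 64 hL).g34 (stR_b hn 64 hL)
  have rx : G34 (Gc n L 96 128) := (stC_ok hn 96 128 hL).g34 (stC_b hn 96 128 hL)
  have ry : G34 (Gc n L 160 192) := (stC_ok hn 160 192 hL).g34 (stC_b hn 160 192 hL)
  have rw' : G34 (Gc n L 224 256) := (stC_ok hn 224 256 hL).g34 (stC_b hn 224 256 hL)
  have rx' : G34 (fun v => star (Gc n L 96 128 v)) := fun v => by rw [norm_star]; exact rx v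
  have Ex : ((E.x : ℕ) : ℝ) ≤ 2 ^ 110 := by exact_mod_cast hE.x
  have Ey : ((E.y : ℕ) : ℝ) ≤ 2 ^ 110 := by exact_mod_cast hE.y
  have Ez : ((E.z : ℕ) : ℝ) ≤ 2 ^ 110 := by exact_mod_cast hE.z
  have Ex0 : (0 : ℝ) ≤ ((E.x : ℕ) : ℝ) := Nat.cast_nonneg _
  have Ey0 : (0 : ℝ) ≤ ((E.y : ℕ) : ℝ) := Nat.cast_nonneg _
  have Ez0 : (0 : ℝ) ≤ ((E.z : ℕ) : ℝ) := Nat.cast_nonneg _
  have hx := cx_bd (QV_x E l L v) (pq_bd hl.x rx v)
  have hy := cx_bd (QV_y E l L v) (r := 2 ^ 102) (by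
    refine (norm_add_le _ _).trans ?_
    have h1 := pq_bd hl.e ra v
    have h2 := pq_bd hl.y ry v
    norm_num at h1 h2 ⊢
    linarith)
  have hw := cx_bd (QV_w E l L v) (r := 2 ^ 102) (by
    refine (norm_add_le _ _).trans ?_
    have h1 := pq_bd hl.g rx' v
    have h2 := pq_bd hl.c rw' v
    norm_num at h1 h2 ⊢
    linarith)
  refine ⟨?_, ?_, ?_, int_bd hx.1 (by norm_num), int_bd hx.2 (by norm_num),
    int_bd hy.1 (by norm_num), int_bd hy.2 (by norm_num), int_bd hw.1 (by norm_num),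
    int_bd hw.2 (by norm_num)⟩
  · refine int_bd (r := 2 ^ 111) ?_ (by norm_num)
    rw [QV_a]
    have h1 : |Gr n L 0 v| ≤ 2 ^ 34 := by
      have := ra v
      unfold GR at this
      rw [Complex.norm_real, Real.norm_eq_abs] at this
      exact this
    have h2 := abs_le.1 h1
    unfold UU
    generalize Gr n L 0 v = X at h2 ⊢
    generalize ((E.x : ℕ) : ℝ) = Y at Ex Ex0 ⊢
    norm_num at h2 Ex ⊢
    rw [abs_le]
    constructor <;> linarith [h2.1, h2.2]
  · refine int_bd (r := 2 ^ 111) ?_ (by norm_num)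
    rw [QV_b]
    have h1 := (Complex.abs_re_le_norm _).trans (pq_bd hl.a rb v)
    have h2 := abs_le.1 h1
    generalize (4 * pq (Fv n l.a) (GR n L 32) v).re = X at h2 ⊢
    generalize ((E.y : ℕ) : ℝ) = Y at Ey Ey0 ⊢
    norm_num at h2 Ey ⊢
    rw [abs_le]
    constructor <;> linarith [h2.1, h2.2]
  · refine int_bd (r := 2 ^ 111) ?_ (by norm_num)
    rw [QV_c]
    have h1 := (Complex.abs_re_le_norm _).trans (pq_bd hl.b rc v)
    have h2 := (Complex.abs_re_le_norm _).trans (pq_bd hl.d ra v)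
    have h3 := (Complex.abs_re_le_norm _).trans (pq_bd hl.h ry v)
    rw [Complex.add_re, Complex.add_re]
    have e : (2 * (4 * pq (Fv n l.h) (Gc n L 160 192) v)).re =
        2 * (4 * pq (Fv n l.h) (Gc n L 160 192) v).re := by
      simp
    rw [e]
    generalize (4 * pq (Fv n l.b) (GR n L 64) v).re = X1 at h1 ⊢
    generalize (4 * pq (Fv n l.d) (GR n L 0) v).re = X2 at h2 ⊢
    generalize (4 * pq (Fv n l.h) (Gc n L 160 192) v).re = X3 at h3 ⊢
    generalize ((E.z : ℕ) : ℝ) = Y at Ez Ez0 ⊢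
    have h1' := abs_le.1 h1
    have h2' := abs_le.1 h2
    have h3' := abs_le.1 h3
    norm_num at h1' h2' h3' Ez ⊢
    rw [abs_le]
    constructor <;> linarith [h1'.1, h1'.2, h2'.1, h2'.2, h3'.1, h3'.2]

/-! ### the list programs -/

theorem andB_tt {x y : Bool} (h : andB x y = true) : x = true ∧ y = true := andB_iff.1 h

theorem kfs_len (KTs : List K2) (k : ℕ) : (kfs KTs k).length = KTs.length := by
  induction KTs with
  | nil => rfl
  | cons T KTs ih =>
    have e : kfs (T :: KTs) k = ⟨kf T.s k, kf T.t k⟩ :: kfs KTs k := rfl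
    rw [e, List.length_cons, List.length_cons, ih]

theorem g2_kfs (KTs : List K2) (k : ℕ) : ∀ i, i < KTs.length →
    g2 (kfs KTs k) i = ⟨kf (g2 KTs i).s k, kf (g2 KTs i).t k⟩ := by
  induction KTs with
  | nil => intro i hi; simp at hi
  | cons T KTs ih =>
    intro i hi
    have e : kfs (T :: KTs) k = ⟨kf T.s k, kf T.t k⟩ :: kfs KTs k := rfl
    rw [e]
    cases i with
    | zero => rfl
    | succ i =>
      have h1 : i < KTs.length := by simpa using hi
      have h2 := ih i h1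
      exact h2

theorem cons_of {α : Type} {n : ℕ} {l : List α} (h : l.length = n + 1) :
    ∃ a t, l = a :: t := by
  cases l with
  | nil => simp at h
  | cons a t => exact ⟨a, t, rfl⟩

/-- the corners of an odd set -/
theorem chkV_odd {T : K2 → ℕ → List BE → P9 → P9 → P9 → Bool} {F : CV → P9 → P9} {E : E3}
    {k LT : ℕ} {b : List BE} : ∀ (n : ℕ) (x y e a bb d c g h : List C3) (KTs : List K2),
    x.length = n → y.length = n → e.length = n → a.length = n → bb.length = n →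
    d.length = n → c.length = n → g.length = n → h.length = n → KTs.length = n →
    chkV T F E k LT b (cvO x y e a bb d c g h) KTs = true → ∀ i, i < n →
    chkC T F E LT b (cvO4 (gv x i) (gv y i) (gv e i) (gv a i) (gv bb i) (gv d i) (gv c i)
      (gv g i) (gv h i)) (g2 KTs i) (k9 (kf (g2 KTs i).s k)) (k9 (kf (g2 KTs i).t k)) = true := by
  intro n
  induction n with
  | zero => intro _ _ _ _ _ _ _ _ _ _ _ _ _ _ _ _ _ _ _ _ _ i hi; omega
  | succ n ih =>
    intro x y e a bb d c g h KTs h1 h2 h3 h4 h5 h6 h7 h8 h9 h10 H i hi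
    obtain ⟨x, xs, rfl⟩ := cons_of h1
    obtain ⟨y, ys, rfl⟩ := cons_of h2
    obtain ⟨e, es, rfl⟩ := cons_of h3
    obtain ⟨a, as, rfl⟩ := cons_of h4
    obtain ⟨bb, bs, rfl⟩ := cons_of h5
    obtain ⟨d, ds, rfl⟩ := cons_of h6
    obtain ⟨c, cs, rfl⟩ := cons_of h7
    obtain ⟨g, gs, rfl⟩ := cons_of h8
    obtain ⟨h, hs, rfl⟩ := cons_of h9
    obtain ⟨K, Ks, rfl⟩ := cons_of h10
    have H' : andB (chkC T F E LT b (cvO4 x y e a bb d c g h) K (k9 (kf K.s k))
      (k9 (kf K.t k))) (chkV T F E k LT b (cvO xs ys es as bs ds cs gs hs) Ks) = true := H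
    obtain ⟨H1, H2⟩ := andB_tt H'
    cases i with
    | zero => exact H1
    | succ i =>
      exact ih xs ys es as bs ds cs gs hs Ks (Nat.succ.inj h1) (Nat.succ.inj h2)
        (Nat.succ.inj h3) (Nat.succ.inj h4) (Nat.succ.inj h5) (Nat.succ.inj h6)
        (Nat.succ.inj h7) (Nat.succ.inj h8) (Nat.succ.inj h9) (Nat.succ.inj h10) H2 i
        (Nat.lt_of_succ_lt_succ hi)

/-- the corners of an even set -/
theorem chkV_even {T : K2 → ℕ → List BE → P9 → P9 → P9 → Bool} {F : CV → P9 → P9} {E : E3}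
    {k LT : ℕ} {b : List BE} : ∀ (n : ℕ) (x y a bb c : List C3) (KTs : List K2),
    x.length = n → y.length = n → a.length = n → bb.length = n →
    c.length = n → KTs.length = n →
    chkV T F E k LT b (cvE x y a bb c) KTs = true → ∀ i, i < n →
    chkC T F E LT b (cvE4 (gv x i) (gv y i) (gv a i) (gv bb i) (gv c i))
      (g2 KTs i) (k9 (kf (g2 KTs i).s k)) (k9 (kf (g2 KTs i).t k)) = true := by
  intro n
  induction n with
  | zero => intro _ _ _ _ _ _ _ _ _ _ _ _ _ i hi; omega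
  | succ n ih =>
    intro x y a bb c KTs h1 h2 h4 h5 h7 h10 H i hi
    obtain ⟨x, xs, rfl⟩ := cons_of h1
    obtain ⟨y, ys, rfl⟩ := cons_of h2
    obtain ⟨a, as, rfl⟩ := cons_of h4
    obtain ⟨bb, bs, rfl⟩ := cons_of h5
    obtain ⟨c, cs, rfl⟩ := cons_of h7
    obtain ⟨K, Ks, rfl⟩ := cons_of h10
    have H' : andB (chkC T F E LT b (cvE4 x y a bb c) K (k9 (kf K.s k))
      (k9 (kf K.t k))) (chkV T F E k LT b (cvE xs ys as bs cs) Ks) = true := H
    obtain ⟨H1, H2⟩ := andB_tt H'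
    cases i with
    | zero => exact H1
    | succ i =>
      exact ih xs ys as bs cs Ks (Nat.succ.inj h1) (Nat.succ.inj h2)
        (Nat.succ.inj h4) (Nat.succ.inj h5) (Nat.succ.inj h7) (Nat.succ.inj h10) H2 i
        (Nat.lt_of_succ_lt_succ hi)

/-- the targets -/
theorem chkPE_mem {T : K2 → ℕ → List BE → P9 → P9 → P9 → Bool} {F : CV → P9 → P9}
    {G : CR → RK → E3} {n : ℕ} {KTs : List K2} {LT : ℕ} {cs : CS} {ps : List PE}
    (h : chkPE T F G n KTs LT cs ps = true) : cs.ok = true ∧ ∀ x ∈ ps,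
      chkV T F (G cs.cr (mkRK n (kfs KTs x.k))) x.k LT x.b cs.cv KTs = true := by
  obtain ⟨h1, h2⟩ := andB_tt h
  refine ⟨h1, ?_⟩
  clear h h1
  induction ps with
  | nil => intro x hx; cases hx
  | cons y ps ih =>
    have h' : andB (chkV T F (G cs.cr (mkRK n (kfs KTs y.k))) y.k LT y.b cs.cv KTs)
      (List.rec (motive := fun _ => Bool) true
        (fun x _ ih => andB (chkV T F (G cs.cr (mkRK n (kfs KTs x.k))) x.k LT x.b cs.cv KTs) ih)
        ps) = true := h2
    obtain ⟨h3, h4⟩ := andB_tt h'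
    intro x hx
    rcases List.mem_cons.1 hx with rfl | hx
    · exact h3
    · exact ih h4 x hx

/-! ### the encodings at a corner -/

theorem U48_lit : U48 = nat_lit 281474976710656 := rfl

/-- the three control words of an odd corner encode the three control forms -/
theorem encO (E : E3) (x y e a b d c g h : C3) (T : K2) (Ks Kt : ℕ) (hT : T = ⟨Ks, Kt⟩) :
    EncP (fin4 E (FO (cvO4 x y e a b d c g h).a (k9 Ks))) (Q3 E x y e a b d c g h T 0) ∧
    EncP (finc E (FO (cvO4 x y e a b d c g h).c (padd (k9 Ks) (k9 Kt)))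
      (FO (cvO4 x y e a b d c g h).d (psub (k9 Kt) (k9 Ks)))) (Q3 E x y e a b d c g h T 1) ∧
    EncP (fin4 E (FO (cvO4 x y e a b d c g h).b (k9 Kt))) (Q3 E x y e a b d c g h T 2) := by
  subst hT
  refine ⟨?_, ?_, ?_⟩
  · exact (fin4_rep (FO_rep (cvO1_rep U48 x.a y.a e.a a.a b.a d.a c.a g.a h.a) (k9_rep Ks))).enc
  · exact (finc_rep (FO_rep (cvO1_rep U48 x.c y.c e.c a.c b.c d.c c.c g.c h.c)
      (padd_rep (k9_rep Ks) (k9_rep Kt))) (FO_rep (cvO1_rep 0 _ _ _ _ _ _ _ _ _)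
      (psub_rep (k9_rep Kt) (k9_rep Ks)))).enc
  · exact (fin4_rep (FO_rep (cvO1_rep U48 x.b y.b e.b a.b b.b d.b c.b g.b h.b) (k9_rep Kt))).enc

theorem zero3_a : zero3.a = zero1 := rfl
theorem zero3_d : csub zero3.b zero3.a = zero1 := rfl

/-- the three control words of an even corner encode the three control forms -/
theorem encE (E : E3) (x y a b c : C3) (T : K2) (Ks Kt : ℕ) (hT : T = ⟨Ks, Kt⟩) :
    EncP (fin4 E (FE (cvE4 x y a b c).a (k9 Ks))) (Q3 E x y zero3 a b zero3 c zero3 zero3 T 0) ∧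
    EncP (finc E (FE (cvE4 x y a b c).c (padd (k9 Ks) (k9 Kt)))
      (FE (cvE4 x y a b c).d (psub (k9 Kt) (k9 Ks))))
      (Q3 E x y zero3 a b zero3 c zero3 zero3 T 1) ∧
    EncP (fin4 E (FE (cvE4 x y a b c).b (k9 Kt)))
      (Q3 E x y zero3 a b zero3 c zero3 zero3 T 2) := by
  subst hT
  refine ⟨?_, ?_, ?_⟩
  · have h := (fin4_rep (E := E) (FE_rep (cvE1_rep U48 x.a y.a a.a b.a c.a) (k9_rep Ks))).enc
    rw [FEi_eq] at h
    exact h
  · have h := (finc_rep (E := E) (FE_rep (cvE1_rep U48 x.c y.c a.c b.c c.c)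
      (padd_rep (k9_rep Ks) (k9_rep Kt))) (FE_rep (cvE1_rep 0 (csub x.b x.a) (csub y.b y.a)
        (csub a.b a.a) (csub b.b b.a) (csub c.b c.a))
      (psub_rep (k9_rep Kt) (k9_rep Ks)))).enc
    rw [FEi_eq, FEi_eq] at h
    exact h
  · have h := (fin4_rep (E := E) (FE_rep (cvE1_rep U48 x.b y.b a.b b.b c.b) (k9_rep Kt))).enc
    rw [FEi_eq] at h
    exact h

end Pool.Agent.Helper21.KCE
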