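import Pool.Agent.Helper21.CX.KCH
import Pool.Agent.Helper12.CX.KVR
import Pool.Agent.Helper21.CX.CLO

/-!
Row KCE, part I: rounding of the run matrix.
-/

set_option autoImplicit false
set_option exponentiation.threshold 4000
noncomputable section
namespace Pool.Agent.Helper21.KCE

open Pool.Agent.Helper86.CX
open Pool.Agent.Helper17.PAK (nrm nrm_nonneg ev_lin)
open Complex ComplexConjugate

/-- all entries at most `r` -/
def BdR (r : ℝ) (N : Hm ℝ) : Prop :=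
  |N.a| ≤ r ∧ |N.b| ≤ r ∧ |N.c| ≤ r ∧ |N.d| ≤ r ∧ |N.e| ≤ r ∧ |N.f| ≤ r ∧ |N.g| ≤ r ∧
    |N.h| ≤ r ∧ |N.i| ≤ r

/-- a form with small entries -/
theorem ev_small {N : Hm ℝ} {r : ℝ} (h : BdR r N) (v : Fin 3 → ℂ) : |ev N v| ≤ 5 * r * nrm v := by
  obtain ⟨ha, hb, hc, hd, he, hf, hg, hh, hi⟩ := h
  have hr : 0 ≤ r := (abs_nonneg _).trans ha
  have key : ∀ x y : ℂ, |2 * (conj x * y).re| ≤ normSq x + normSq y ∧
      |2 * (conj x * y).im| ≤ normSq x + normSq y := by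
    intro x y
    have e1 : (conj x * y).re = x.re * y.re + x.im * y.im := by simp
    have e2 : (conj x * y).im = x.re * y.im - x.im * y.re := by simp; ring
    rw [e1, e2, normSq_apply, normSq_apply, abs_le, abs_le]
    refine ⟨⟨?_, ?_⟩, ⟨?_, ?_⟩⟩
    · nlinarith [sq_nonneg (x.re + y.re), sq_nonneg (x.im + y.im)]
    · nlinarith [sq_nonneg (x.re - y.re), sq_nonneg (x.im - y.im)]
    · nlinarith [sq_nonneg (x.re + y.im), sq_nonneg (x.im - y.re)]
    · nlinarith [sq_nonneg (x.re - y.im), sq_nonneg (x.im + y.re)]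
  have mul : ∀ a X s : ℝ, |a| ≤ r → |X| ≤ s → -(r * s) ≤ a * X ∧ a * X ≤ r * s := by
    intro a X s h1 h2
    have h3 : |a * X| ≤ r * s := by
      rw [abs_mul]
      exact mul_le_mul h1 h2 (abs_nonneg _) hr
    exact abs_le.1 h3
  have n0 := Complex.normSq_nonneg (v 0)
  have n1 := Complex.normSq_nonneg (v 1)
  have n2 := Complex.normSq_nonneg (v 2)
  obtain ⟨k1, k2⟩ := key (v 0) (v 1)
  obtain ⟨k3, k4⟩ := key (v 0) (v 2)
  obtain ⟨k5, k6⟩ := key (v 1) (v 2)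
  have a1 := mul _ _ _ ha (abs_of_nonneg n0).le
  have a2 := mul _ _ _ hb (abs_of_nonneg n1).le
  have a3 := mul _ _ _ hc (abs_of_nonneg n2).le
  have a4 := mul _ _ _ hd k1
  have a5 := mul _ _ _ he k2
  have a6 := mul _ _ _ hf k3
  have a7 := mul _ _ _ hg k4
  have a8 := mul _ _ _ hh k5
  have a9 := mul _ _ _ hi k6
  rw [ev_lin]
  unfold nrm
  rw [abs_le]
  constructor
  · nlinarith [a1.1, a2.1, a3.1, a4.1, a5.2, a6.1, a7.2, a8.1, a9.2]
  · nlinarith [a1.2, a2.2, a3.2, a4.2, a5.1, a6.2, a7.1, a8.2, a9.1]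

theorem ev_sub_lin (M N : Hm ℝ) (v : Fin 3 → ℂ) : ev M v - ev N v =
    ev ⟨M.a - N.a, M.b - N.b, M.c - N.c, M.d - N.d, M.e - N.e, M.f - N.f, M.g - N.g, M.h - N.h,
      M.i - N.i⟩ v := by
  rw [ev_lin, ev_lin, ev_lin]
  ring

/-- the exact and the rounded run parameters -/
structure Near (R A W T R' A' W' T' δ : ℝ) : Prop where
  dR : |R - R'| ≤ δ
  dA : |A - A'| ≤ δ
  dW : |W - W'| ≤ δ
  dT : |T - T'| ≤ δ
  R0 : |R| ≤ 3
  A0 : |A| ≤ 9
  W0 : |W| ≤ 12
  T0 : |T| ≤ 18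
  R1 : |R'| ≤ 4
  A1 : |A'| ≤ 10
  W1 : |W'| ≤ 13
  T1 : |T'| ≤ 19

theorem prod_near {x y x' y' δ a b : ℝ} (hx : |x - x'| ≤ δ) (hy : |y - y'| ≤ δ) (hb : |y| ≤ b)
    (ha : |x'| ≤ a) : |x * y - x' * y'| ≤ (a + b) * δ := by
  have e : x * y - x' * y' = (x - x') * y + x' * (y - y') := by ring
  have hδ : 0 ≤ δ := (abs_nonneg _).trans hx
  rw [e]
  refine (abs_add_le _ _).trans ?_
  rw [abs_mul, abs_mul]
  have h1 := mul_le_mul hx hb (abs_nonneg _) hδ
  have h2 := mul_le_mul ha hy (abs_nonneg _) ((abs_nonneg _).trans ha)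
  linarith

theorem tm {d p c : ℝ} (hd : |d| ≤ c) (hp : |p| ≤ 64) : -(64 * c) ≤ d * p ∧ d * p ≤ 64 * c := by
  have h : |d * p| ≤ 64 * c := by
    rw [abs_mul, mul_comm 64 c]
    exact mul_le_mul hd hp (abs_nonneg _) ((abs_nonneg _).trans hd)
  exact abs_le.1 h

theorem NB_near {P : Hm ℝ} (hP : BdR 64 P) {R A W T R' A' W' T' δ : ℝ}
    (h : Near R A W T R' A' W' T' δ) :
    BdR (13000 * δ) ⟨(NB P R A W T).a - (NB P R' A' W' T').a,
      (NB P R A W T).b - (NB P R' A' W' T').b, (NB P R A W T).c - (NB P R' A' W' T').c,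
      (NB P R A W T).d - (NB P R' A' W' T').d, (NB P R A W T).e - (NB P R' A' W' T').e,
      (NB P R A W T).f - (NB P R' A' W' T').f, (NB P R A W T).g - (NB P R' A' W' T').g,
      (NB P R A W T).h - (NB P R' A' W' T').h, (NB P R A W T).i - (NB P R' A' W' T').i⟩ := by
  obtain ⟨pa, pb, pc, pd, pe, pf, pg, ph, pi⟩ := hP
  obtain ⟨hR, hA, hW, hT, hR0, hA0, hW0, hT0, hR1, hA1, hW1, hT1⟩ := h
  have hδ : 0 ≤ δ := (abs_nonneg _).trans hR
  have RR := prod_near hR hR hR0 hR1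
  have AA := prod_near hA hA hA0 hA1
  have WW := prod_near hW hW hW0 hW1
  have TT := prod_near hT hT hT0 hT1
  have RW := prod_near hR hW hW0 hR1
  have RA := prod_near hR hA hA0 hR1
  have RT := prod_near hR hT hT0 hR1
  have AT := prod_near hA hT hT0 hA1
  have WA := prod_near hW hA hA0 hW1
  have WT := prod_near hW hT hT0 hW1
  refine ⟨abs_le.2 ?_, abs_le.2 ?_, abs_le.2 ?_, abs_le.2 ?_, abs_le.2 ?_, abs_le.2 ?_,
    abs_le.2 ?_, abs_le.2 ?_, abs_le.2 ?_⟩ <;> simp only [NB]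
  · have t1 := tm RR pb
    have t2 := tm WW pc
    have t3 := tm hR pd
    have t4 := tm hW pf
    have t5 := tm RW ph
    constructor <;> linarith [t1.1, t2.1, t3.1, t4.1, t5.1, t1.2, t2.2, t3.2, t4.2, t5.2]
  · have t1 := tm RR pa
    have t2 := tm AA pb
    have t3 := tm RA pd
    constructor <;> linarith [t1.1, t2.1, t3.1, t1.2, t2.2, t3.2]
  · have t1 := tm AA pa
    have t2 := tm TT pb
    have t3 := tm AT pd
    constructor <;> linarith [t1.1, t2.1, t3.1, t1.2, t2.2, t3.2]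
  · have t1 := tm hR pa
    have t2 := tm RA pb
    have t3 := tm hA pd
    have t4 := tm RR pd
    have t5 := tm RW pf
    have t6 := tm WA ph
    constructor <;> linarith [t1.1, t2.1, t3.1, t4.1, t5.1, t6.1, t1.2, t2.2, t3.2, t4.2, t5.2, t6.2]
  · have t3 := tm hA pe
    have t4 := tm RR pe
    have t5 := tm RW pg
    have t6 := tm WA pi
    constructor <;> linarith [t3.1, t4.1, t5.1, t6.1, t3.2, t4.2, t5.2, t6.2]
  · have t1 := tm hA pa
    have t2 := tm RT pb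
    have t3 := tm RA pd
    have t4 := tm hT pd
    have t5 := tm WA pf
    have t6 := tm WT ph
    constructor <;> linarith [t1.1, t2.1, t3.1, t4.1, t5.1, t6.1, t1.2, t2.2, t3.2, t4.2, t5.2, t6.2]
  · have t1 := tm hT pe
    have t2 := tm RA pe
    have t3 := tm WA pg
    have t4 := tm WT pi
    constructor <;> linarith [t1.1, t2.1, t3.1, t4.1, t1.2, t2.2, t3.2, t4.2]
  · have t1 := tm RA pa
    have t2 := tm AT pb
    have t3 := tm AA pd
    have t4 := tm RT pd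
    constructor <;> linarith [t1.1, t2.1, t3.1, t4.1, t1.2, t2.2, t3.2, t4.2]
  · have t1 := tm RT pe
    have t2 := tm AA pe
    constructor <;> linarith [t1.1, t2.1, t1.2, t2.2]

/-- ROUNDING OF THE RUN MATRIX -/
theorem ev_round {P : Hm ℝ} (hP : BdR 64 P) {R A W T R' A' W' T' : ℝ}
    (h : Near R A W T R' A' W' T' (1 / 2 ^ 48)) (v : Fin 3 → ℂ) :
    ev (NB P R' A' W' T') v - (1 / 2 ^ 31) * nrm v ≤ ev P ((BA R A W T).mulVec v) := by
  rw [ev_NB]
  have h1 := ev_small (NB_near hP h) v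
  rw [← ev_sub_lin] at h1
  have h2 := abs_le.1 h1
  have h3 := nrm_nonneg v
  have h4 : 5 * (13000 * (1 / 2 ^ 48)) * nrm v ≤ (1 / 2 ^ 31) * nrm v := by
    apply mul_le_mul_of_nonneg_right _ h3
    norm_num
  linarith [h2.1]

end Pool.Agent.Helper21.KCE
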