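import Pool.Agent.Helper21.CX.KCJ
import Pool.Agent.Helper6.CX.MID
import Pool.Agent.Helper6.CX.RND

/-!
Row KCE, part K: the fields `e` and `o` of `KRes` from the tests of the checker.
-/

set_option autoImplicit false
set_option exponentiation.threshold 4000
noncomputable section
namespace Pool.Agent.Helper21.KCE

open Pool.Agent.Helper86.CX
open Pool.Agent.Helper90.C75 (Wts)
open Pool.Agent.Helper90.KMO
open Pool.Agent.Helper17.PAK (nrm nrm_nonneg ev_lin)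
open Pool.Agent.Helper6.MONO (Kp SbP Rb Bm VV)
open Pool.Agent.Helper6.MID
open Pool.Agent.Helper6.PRG (eL oL)
open Complex ComplexConjugate

variable {n : ℕ} {wc : Fin n → ℝ} {t : ℝ}

theorem nrm_pos {v : Fin 3 → ℂ} (h : v ≠ 0) : 0 < nrm v := by
  have h0 := Complex.normSq_nonneg (v 0)
  have h1 := Complex.normSq_nonneg (v 1)
  have h2 := Complex.normSq_nonneg (v 2)
  unfold nrm
  by_contra hc
  apply h
  have z0 : Complex.normSq (v 0) = 0 := by linarith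
  have z1 : Complex.normSq (v 1) = 0 := by linarith
  have z2 : Complex.normSq (v 2) = 0 := by linarith
  funext i
  fin_cases i
  · exact Complex.normSq_eq_zero.1 z0
  · exact Complex.normSq_eq_zero.1 z1
  · exact Complex.normSq_eq_zero.1 z2

theorem ev_ne_zero {K : Hm ℝ} {v : Fin 3 → ℂ} (h : 0 < ev K v) : v ≠ 0 := by
  rintro rfl
  rw [ev_lin] at h
  simp at h

/-- POSITIVITY FROM A BLOCK INEQUALITY -/
theorem pos_of_blk {KTs : List K2} {LT : ℕ} {e x y : ℂ} {P : PE}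
    (h : BlkOK n wc t KTs LT e x y P) (h0 : 0 ≤ t) (h1 : t ≤ 1) {b : BE} (hb : b ∈ P.b) {s : SE}
    (hs : s ∈ b.s) {M j : ℕ} (h3 : 3 ≤ M) (h9 : M ≤ 9) (hj : 1 ≤ j) (hjM : j < M)
    (hV : b.V = VV M j) {v : Fin 3 → ℂ} (hv : 0 < ev (KP n wc t (kfs KTs s.k)) v) :
    0 < ev (CK (KP n wc t (kfs KTs P.k)) e x y) ((Bm (Kp M) (Rb M j)).mulVec v) := by
  obtain ⟨R, A, W, T, hE, bR, bA, bW, bT, hN⟩ := near_run h3 h9 hj hjM
  have h2 := h b hb s hs R A W T _ _ _ _ (by rw [hV]; exact hE) bR bA bW bT hN v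
  have hl := lamT_nonneg LT s.l h0 h1
  have hn := nrm_pos (ev_ne_zero hv)
  have hf : 0 < ev (frm n wc t KTs s.k) v := by
    unfold frm
    rw [ev_scR]
    positivity
  have h4 : 0 < ev (frm n wc t KTs P.k) ((CM e x y).mulVec
      ((BA (Rb M j) (Rb M j ^ 2 - SbP (Kp M)) (Rb M j ^ 2 + SbP (Kp M))
        (2 * SbP (Kp M) * Rb M j)).mulVec v)) := by
    have h5 : 0 ≤ lamT LT s.l t * ev (frm n wc t KTs s.k) v := mul_nonneg hl hf.le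
    have h6 : 0 < (1 / 2 ^ 31 : ℝ) * nrm v := by positivity
    linarith
  unfold frm at h4
  rw [ev_scR] at h4
  rw [← ev_CK, Pool.Agent.Helper6.RND.Bm_BA]
  exact (div_pos_iff_of_pos_right (by positivity : (0 : ℝ) < 2 ^ 20)).1 h4

/-- the form at the point: integer units -/
def KPt (n : ℕ) (wc : Fin n → ℝ) (t : ℝ) (KTs : List K2) (k : ℕ) : Hm ℝ := KP n wc t (kfs KTs k)

/-- a set of the even type -/
theorem fld_e1 (hn : 0 < n) (hw : Wts wc) (h0 : 0 ≤ t) (h1 : t ≤ 1) {KTs : List K2}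
    (hK : KTs.length = n) {LT : ℕ} {o o' : ℂ} {c2 s : Mo} (hc : MOK n wc t o' c2)
    (hs : MOK n wc t o s) {ps : List PE}
    (H : chkPE chkP FE EE n KTs LT (Pool.Agent.Helper86.CX.mkE n c2 s) ps = true) :
    ∀ x ∈ ps, ∀ y ∈ x.b, ∀ u ∈ y.s, ∀ M j, 3 ≤ M → M ≤ 9 → 1 ≤ j → j < M → y.V = VV M j →
      ∀ v, 0 < ev (KPt n wc t KTs u.k) v →
      0 < ev (CK (KPt n wc t KTs x.k) 0 o' (o * o')) ((Bm (Kp M) (Rb M j)).mulVec v) := by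
  intro x hx y hy u hu M j h3 h9 hj hjM hV v hv
  exact pos_of_blk (chk_even hn hw h0 h1 hK (EOK.mk' hn hw h0 h1 hc (mkE_c3 hn hw h0 h1 hc hs))
    H x hx) h0 h1 hy hu h3 h9 hj hjM hV hv

/-- a set of the odd type -/
theorem fld_o1 (hn : 0 < n) (hw : Wts wc) (h0 : 0 ≤ t) (h1 : t ≤ 1) {KTs : List K2}
    (hK : KTs.length = n) {LT : ℕ} {o o' k : ℂ} {c2 s h q ke : Mo} (hc : MOK n wc t o' c2)
    (hs : MOK n wc t o s) (hh : MOK n wc t (k / 2) h) (hq : MOK n wc t (k / 4) q)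
    (hke : MOK n wc t (k ^ 2 / (4 * (2 + k))) ke) {ps : List PE}
    (H : chkPE chkP FO EO n KTs LT (Pool.Agent.Helper86.CX.mkO n c2 s h q ke) ps = true) :
    ∀ x ∈ ps, ∀ y ∈ x.b, ∀ u ∈ y.s, ∀ M j, 3 ≤ M → M ≤ 9 → 1 ≤ j → j < M → y.V = VV M j →
      ∀ v, 0 < ev (KPt n wc t KTs u.k) v →
      0 < ev (CK (KPt n wc t KTs x.k) (k * o / 2 - k ^ 2 / (4 * (2 + k))) o'
        (o' * (k / 2) * (1 / 2 - o))) ((Bm (Kp M) (Rb M j)).mulVec v) := by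
  intro x hx y hy u hu M j h3 h9 hj hjM hV v hv
  obtain ⟨a, b⟩ := mkO_c3 hn hw h0 h1 hc hs hh hq hke
  exact pos_of_blk (chk_odd hn hw h0 h1 hK (OOK.mk' hn hw h0 h1 hc a b) H x hx) h0 h1 hy hu h3 h9
    hj hjM hV hv

/-- THE FIELDS `e` AND `o` OF `KRes` -/
theorem fld_eo (hn : 0 < n) (hw : Wts wc) (h0 : 0 ≤ t) (h1 : t ≤ 1) {KTs : List K2}
    (hK : KTs.length = n) {κ : Fin 3 → ℂ} {z : ℂ} {C : Cls} (hC : CLK n wc t κ C)
    {m0 m1 m2 m3 m4 m5 : Mo} (hO : OMK n wc t κ z m0 m1 m2 m3 m4 m5) {LT : ℕ} {G : Prog}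
    (H : chkOm n C KTs LT G m0 m1 m2 m3 m4 m5 = true) :
    (∀ i < 6, ∀ x ∈ eL G i, ∀ y ∈ x.b, ∀ u ∈ y.s, ∀ M j, 3 ≤ M → M ≤ 9 → 1 ≤ j → j < M →
      y.V = VV M j → ∀ v, 0 < ev (KPt n wc t KTs u.k) v →
      0 < ev (CK (KPt n wc t KTs x.k) 0 (oZ κ z i) (oZ κ z (sE i) * oZ κ z i))
        ((Bm (Kp M) (Rb M j)).mulVec v)) ∧
    (∀ i < 6, ∀ x ∈ oL G i, ∀ y ∈ x.b, ∀ u ∈ y.s, ∀ M j, 3 ≤ M → M ≤ 9 → 1 ≤ j → j < M →
      y.V = VV M j → ∀ v, 0 < ev (KPt n wc t KTs u.k) v →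
      0 < ev (CK (KPt n wc t KTs x.k) (κ (kO i) * oZ κ z (sO i) / 2 -
          κ (kO i) ^ 2 / (4 * (2 + κ (kO i)))) (oZ κ z i)
          (oZ κ z i * (κ (kO i) / 2) * (1 / 2 - oZ κ z (sO i))))
        ((Bm (Kp M) (Rb M j)).mulVec v)) := by
  unfold chkOm at H
  simp only [Pool.Agent.Helper17.PAK.andB_iff] at H
  obtain ⟨e0, e1, e2, e3, e4, e5, o0, o1, o2, o3, o4, o5, -⟩ := H
  constructor
  · intro i hi
    interval_cases i
    · exact fld_e1 hn hw h0 h1 hK hO.m0 hO.m3 e0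
    · exact fld_e1 hn hw h0 h1 hK hO.m1 hO.m4 e1
    · exact fld_e1 hn hw h0 h1 hK hO.m2 hO.m5 e2
    · exact fld_e1 hn hw h0 h1 hK hO.m3 hO.m0 e3
    · exact fld_e1 hn hw h0 h1 hK hO.m4 hO.m1 e4
    · exact fld_e1 hn hw h0 h1 hK hO.m5 hO.m2 e5
  · intro i hi
    interval_cases i
    · exact fld_o1 hn hw h0 h1 hK hO.m0 hO.m2 hC.h2 hC.q2 hC.e2 o0
    · exact fld_o1 hn hw h0 h1 hK hO.m1 hO.m0 hC.h0 hC.q0 hC.e0 o1
    · exact fld_o1 hn hw h0 h1 hK hO.m2 hO.m1 hC.h1 hC.q1 hC.e1 o2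
    · exact fld_o1 hn hw h0 h1 hK hO.m3 hO.m4 hC.h0 hC.q0 hC.e0 o3
    · exact fld_o1 hn hw h0 h1 hK hO.m4 hO.m5 hC.h1 hC.q1 hC.e1 o4
    · exact fld_o1 hn hw h0 h1 hK hO.m5 hO.m3 hC.h2 hC.q2 hC.e2 o5

end Pool.Agent.Helper21.KCE
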