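import Pool.Agent.Helper39.C75.LineC

/-!
Row MIR: the certificate at one frontier point as a predicate `PW`, and its transport by complex
conjugation and by relabelling (mirror symmetry).
-/

set_option autoImplicit false

namespace Pool.Agent.Helper21.MIR

open Complex Set Pool.Agent.Helper39.C75

/-- vectors -/
abbrev V : Type := Fin 3 → ℂ

/-- matrices -/
abbrev Mt : Type := Matrix (Fin 3) (Fin 3) ℂ

/-- the slit condition of the block `b` at the point `w` for the vector `v` -/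
def Slit {B : Type} (M : B → ℂ → Mt) (cmp : B → Option B) (g : B → ℂ → ℂ) (w : ℂ) (b : B)
    (v : V) : Prop :=
  (cmp b = none → (M b w).mulVec v 0 / (g b w * v 0) ∈ slitPlane) ∧
  ∀ b', cmp b = some b' → (M b w).mulVec v 0 / (g b w * (M b' w).mulVec v 0) ∈ slitPlane

/-- the certificate at the point `w` with the regions `R` -/
structure PWr {S B : Type} (src tgt : B → S) (M : B → ℂ → Mt) (Start : S → (ℂ → V) → Prop)
    (cmp : B → Option B) (g : B → ℂ → ℂ) (C : ℝ) (w : ℂ) (R : S → Set V) : Prop where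
  cert : RCert src tgt M Start w R
  slit : ∀ b v, v ∈ R (src b) → Slit M cmp g w b v
  bound : ∀ s v j, v ∈ R s → ‖v j‖ ≤ C * ‖v 0‖

/-- the certificate at the point `w` -/
def PW {S B : Type} (src tgt : B → S) (M : B → ℂ → Mt) (Start : S → (ℂ → V) → Prop)
    (cmp : B → Option B) (g : B → ℂ → ℂ) (C : ℝ) (w : ℂ) : Prop :=
  ∃ R, PWr src tgt M Start cmp g C w R

/-- all frontier points together -/
theorem pw_all {S B : Type} {src tgt : B → S} {M : B → ℂ → Mt} {Start : S → (ℂ → V) → Prop}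
    {cmp : B → Option B} {g : B → ℂ → ℂ} {C : ℝ} {Ω : Set ℂ} {rk : B → ℕ}
    (hcmp : ∀ b b', cmp b = some b' → src b' = src b ∧ rk b' < rk b)
    (hg : ∀ b, ContinuousOn (g b) (closure Ω) ∧ DifferentiableOn ℂ (g b) Ω ∧
      ∀ w ∈ closure Ω, g b w ≠ 0)
    (h : ∀ w ∈ frontier Ω, PW src tgt M Start cmp g C w) :
    (∀ b, RTreat src tgt M Start Ω rk b) ∧
    ∀ s j, ∀ w ∈ frontier Ω, ∃ R, RCert src tgt M Start w R ∧ ∀ v ∈ R s, ‖v j‖ ≤ C * ‖v 0‖ := by
  constructor
  · intro b
    cases hb : cmp b with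
    | none =>
      refine RTreat.self (g b) (hg b).1 (hg b).2.1 (hg b).2.2 fun w hw => ?_
      obtain ⟨R, hR⟩ := h w hw
      exact ⟨R, hR.cert, fun v hv => (hR.slit b v hv).1 hb⟩
    | some b' =>
      obtain ⟨h1, h2⟩ := hcmp b b' hb
      refine RTreat.comp b' h1 h2 (g b) (hg b).1 (hg b).2.1 (hg b).2.2 fun w hw => ?_
      obtain ⟨R, hR⟩ := h w hw
      exact ⟨R, hR.cert, fun v hv => (hR.slit b v hv).2 b' hb⟩
  · intro s j w hw
    obtain ⟨R, hR⟩ := h w hw
    exact ⟨R, hR.cert, fun v hv => hR.bound s v j hv⟩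

/-! ### complex conjugation -/

/-- conjugate vector -/
def cj (v : V) : V := fun i => starRingEnd ℂ (v i)

theorem cj_cj (v : V) : cj (cj v) = v := by
  funext i
  simp [cj]

theorem cj_smul (c : ℂ) (v : V) : cj (c • v) = starRingEnd ℂ c • cj v := by
  funext i
  simp [cj]

theorem cj_add (v v' : V) : cj (v + v') = cj v + cj v' := by
  funext i
  simp [cj]

theorem slit_conj {z : ℂ} (h : z ∈ slitPlane) : starRingEnd ℂ z ∈ slitPlane := by
  rw [mem_slitPlane_iff] at h ⊢
  rw [conj_re, conj_im]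
  rcases h with h | h
  · exact Or.inl h
  · exact Or.inr (neg_ne_zero.2 h)

theorem cj_mulVec (A A' : Mt) (h : ∀ i j, A' i j = starRingEnd ℂ (A i j)) (v : V) :
    A'.mulVec v = cj (A.mulVec (cj v)) := by
  funext i
  simp only [cj, Matrix.mulVec, dotProduct, map_sum, map_mul]
  refine Finset.sum_congr rfl fun j _ => ?_
  rw [h, Complex.conj_conj]

theorem isRegion_conj {R : Set V} (h : IsRegion R) : IsRegion {v | cj v ∈ R} := by
  refine ⟨fun v hv h0 => ?_, fun c v hc hv => ?_, fun s v v' hs hv hv' h1 h1' => ?_⟩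
  · apply h.ne0 _ hv
    show starRingEnd ℂ (v 0) = 0
    rw [h0, map_zero]
  · show cj (c • v) ∈ R
    rw [cj_smul]
    exact h.smul _ _ (by rw [Ne, map_eq_zero]; exact hc) hv
  · show cj (v + (s : ℂ) • v') ∈ R
    rw [cj_add, cj_smul, Complex.conj_ofReal]
    refine h.comb s _ _ hs hv hv' ?_ ?_
    · show starRingEnd ℂ (v 0) = 1
      rw [h1, map_one]
    · show starRingEnd ℂ (v' 0) = 1
      rw [h1', map_one]

/-- CONJUGATION -/
theorem pw_conj {S B : Type} {src tgt : B → S} {M : B → ℂ → Mt} {Start : S → (ℂ → V) → Prop}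
    {cmp : B → Option B} {g : B → ℂ → ℂ} {C : ℝ} {w w' : ℂ}
    (hM : ∀ b i j, M b w' i j = starRingEnd ℂ (M b w i j))
    (hg : ∀ b, g b w' = starRingEnd ℂ (g b w))
    (hS : ∀ s v, Start s v → v w' = cj (v w))
    (h : PW src tgt M Start cmp g C w) : PW src tgt M Start cmp g C w' := by
  obtain ⟨R, hR⟩ := h
  have hmv : ∀ b v, (M b w').mulVec v = cj ((M b w).mulVec (cj v)) := fun b v =>
    cj_mulVec _ _ (hM b) v
  refine ⟨fun s => {v | cj v ∈ R s}, ⟨fun s => isRegion_conj (hR.cert.reg s), ?_, ?_⟩, ?_, ?_⟩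
  · intro b v hv
    show cj _ ∈ R (tgt b)
    rw [hmv, cj_cj]
    exact hR.cert.block b _ hv
  · intro s v hv
    show cj _ ∈ R s
    rw [hS s v hv, cj_cj]
    exact hR.cert.start s v hv
  · intro b v hv
    obtain ⟨h1, h2⟩ := hR.slit b (cj v) hv
    constructor
    · intro hb
      have h3 := slit_conj (h1 hb)
      rw [map_div₀, map_mul, ← hg] at h3
      have e1 : starRingEnd ℂ ((M b w).mulVec (cj v) 0) = (M b w').mulVec v 0 := by
        rw [hmv]; rfl
      have e2 : starRingEnd ℂ (cj v 0) = v 0 := by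
        show starRingEnd ℂ (starRingEnd ℂ (v 0)) = v 0
        rw [Complex.conj_conj]
      rw [e1, e2] at h3
      exact h3
    · intro b' hb
      have h3 := slit_conj (h2 b' hb)
      rw [map_div₀, map_mul, ← hg] at h3
      have e1 : starRingEnd ℂ ((M b w).mulVec (cj v) 0) = (M b w').mulVec v 0 := by
        rw [hmv]; rfl
      have e2 : starRingEnd ℂ ((M b' w).mulVec (cj v) 0) = (M b' w').mulVec v 0 := by
        rw [hmv]; rfl
      rw [e1, e2] at h3
      exact h3
  · intro s v j hv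
    have h1 := hR.bound s (cj v) j hv
    have e : ∀ i, ‖cj v i‖ = ‖v i‖ := fun i => by
      show ‖starRingEnd ℂ (v i)‖ = ‖v i‖
      rw [Complex.norm_conj]
    rw [e, e] at h1
    exact h1

/-! ### pulling back along maps of states and blocks -/

theorem isRegion_pull {R : Set V} (h : IsRegion R) (E : Mt) (e : ℂ) (he : e ≠ 0)
    (hE : ∀ v, E.mulVec v 0 = e * v 0) : IsRegion {v | E.mulVec v ∈ R} := by
  refine ⟨fun v hv h0 => ?_, fun c v hc hv => ?_, fun s v v' hs hv hv' h1 h1' => ?_⟩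
  · apply h.ne0 _ hv
    rw [hE, h0, mul_zero]
  · show E.mulVec (c • v) ∈ R
    rw [Matrix.mulVec_smul]
    exact h.smul _ _ hc hv
  · show E.mulVec (v + (s : ℂ) • v') ∈ R
    have h2 := h.comb s (e⁻¹ • E.mulVec v) (e⁻¹ • E.mulVec v') hs
      (h.smul _ _ (inv_ne_zero he) hv) (h.smul _ _ (inv_ne_zero he) hv')
      (by rw [Pi.smul_apply, hE, h1, smul_eq_mul, mul_one, inv_mul_cancel₀ he])
      (by rw [Pi.smul_apply, hE, h1', smul_eq_mul, mul_one, inv_mul_cancel₀ he])
    have h3 := h.smul e _ he h2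
    have h4 : e • (e⁻¹ • E.mulVec v + (s : ℂ) • e⁻¹ • E.mulVec v') =
        E.mulVec (v + (s : ℂ) • v') := by
      rw [Matrix.mulVec_add, Matrix.mulVec_smul, smul_add, smul_smul, mul_inv_cancel₀ he, one_smul,
        smul_smul, smul_smul]
      congr 2
      field_simp
    rw [h4] at h3
    exact h3

/-- PULL BACK (relabelling, mirror symmetry, cyclic rotation) -/
theorem pw_pull {S B S' B' : Type} {src tgt : B → S} {M : B → ℂ → Mt}
    {Start : S → (ℂ → V) → Prop} {cmp : B → Option B} {g : B → ℂ → ℂ} {C C' : ℝ} {w w' : ℂ}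
    {src' tgt' : B' → S'} {M' : B' → ℂ → Mt} {Start' : S' → (ℂ → V) → Prop}
    {cmp' : B' → Option B'} {g' : B' → ℂ → ℂ}
    (φ : S' → S) (ψ : B' → B) (hsrc : ∀ b, src (ψ b) = φ (src' b))
    (htgt : ∀ b, tgt (ψ b) = φ (tgt' b)) (E : S' → Mt) (e : S' → ℂ) (he : ∀ s, e s ≠ 0)
    (hE : ∀ s v, (E s).mulVec v 0 = e s * v 0) (f : B' → ℂ) (hf : ∀ b, f b ≠ 0)
    (hM : ∀ b, E (tgt' b) * M' b w' = f b • (M (ψ b) w * E (src' b)))
    (hS : ∀ s v, Start' s v → ∃ v₀, Start (φ s) v₀ ∧ ∃ c : ℂ, c ≠ 0 ∧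
      (E s).mulVec (v w') = c • v₀ w)
    (hcmp : ∀ b, cmp (ψ b) = (cmp' b).map ψ)
    (hsc : ∀ b b', cmp' b = some b' → src' b' = src' b)
    (hg1 : ∀ b, cmp' b = none → g' b w' * e (tgt' b) = f b * e (src' b) * g (ψ b) w)
    (hg2 : ∀ b b', cmp' b = some b' →
      g' b w' * f b' * e (tgt' b) = f b * e (tgt' b') * g (ψ b) w)
    (hC : ∀ s v, (∀ j, ‖(E s).mulVec v j‖ ≤ C * ‖(E s).mulVec v 0‖) → ∀ j, ‖v j‖ ≤ C' * ‖v 0‖)
    (h : PW src tgt M Start cmp g C w) : PW src' tgt' M' Start' cmp' g' C' w' := by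
  obtain ⟨R, hR⟩ := h
  have hmv : ∀ b v, (E (tgt' b)).mulVec ((M' b w').mulVec v) =
      f b • (M (ψ b) w).mulVec ((E (src' b)).mulVec v) := by
    intro b v
    rw [Matrix.mulVec_mulVec, Matrix.mulVec_mulVec, hM, Matrix.smul_mulVec]
  have h0 : ∀ b v, e (tgt' b) * (M' b w').mulVec v 0 =
      f b * (M (ψ b) w).mulVec ((E (src' b)).mulVec v) 0 := by
    intro b v
    rw [← hE, hmv, Pi.smul_apply, smul_eq_mul]
  refine ⟨fun s => {v | (E s).mulVec v ∈ R (φ s)},
    ⟨fun s => isRegion_pull (hR.cert.reg _) _ (e s) (he s) (hE s), ?_, ?_⟩, ?_, ?_⟩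
  · intro b v hv
    show (E (tgt' b)).mulVec _ ∈ R (φ (tgt' b))
    rw [hmv, ← htgt]
    refine (hR.cert.reg _).smul _ _ (hf b) (hR.cert.block (ψ b) _ ?_)
    rw [hsrc]
    exact hv
  · intro s v hv
    obtain ⟨v₀, h1, c, hc, h2⟩ := hS s v hv
    show (E s).mulVec (v w') ∈ R (φ s)
    rw [h2]
    exact (hR.cert.reg _).smul _ _ hc (hR.cert.start _ _ h1)
  · intro b v hv
    have hv' : (E (src' b)).mulVec v ∈ R (src (ψ b)) := by rw [hsrc]; exact hv
    obtain ⟨h1, h2⟩ := hR.slit (ψ b) _ hv'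
    have hX : (M' b w').mulVec v 0 =
        f b / e (tgt' b) * (M (ψ b) w).mulVec ((E (src' b)).mulVec v) 0 := by
      rw [div_mul_eq_mul_div, eq_div_iff (he _), mul_comm ((M' b w').mulVec v 0)]
      exact h0 b v
    constructor
    · intro hb
      have h3 := h1 (by rw [hcmp, hb]; rfl)
      have h4 : (M' b w').mulVec v 0 / (g' b w' * v 0) =
          (M (ψ b) w).mulVec ((E (src' b)).mulVec v) 0 /
            (g (ψ b) w * (E (src' b)).mulVec v 0) := by
        have hg' : g' b w' = f b * e (src' b) * g (ψ b) w / e (tgt' b) := by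
          rw [eq_div_iff (he _)]
          exact hg1 b hb
        rw [hX, hg', hE]
        have e1 := he (src' b)
        have e2 := he (tgt' b)
        have e3 := hf b
        field_simp
      rw [h4]
      exact h3
    · intro b' hb
      have h3 := h2 (ψ b') (by rw [hcmp, hb]; rfl)
      have hX' : (M' b' w').mulVec v 0 =
          f b' / e (tgt' b') * (M (ψ b') w).mulVec ((E (src' b)).mulVec v) 0 := by
        rw [div_mul_eq_mul_div, eq_div_iff (he _), mul_comm ((M' b' w').mulVec v 0), ← hsc b b' hb]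
        exact h0 b' v
      have h4 : (M' b w').mulVec v 0 / (g' b w' * (M' b' w').mulVec v 0) =
          (M (ψ b) w).mulVec ((E (src' b)).mulVec v) 0 /
            (g (ψ b) w * (M (ψ b') w).mulVec ((E (src' b)).mulVec v) 0) := by
        have hg' : g' b w' = f b * e (tgt' b') * g (ψ b) w / (f b' * e (tgt' b)) := by
          rw [eq_div_iff (mul_ne_zero (hf _) (he _)), ← mul_assoc]
          exact hg2 b b' hb
        rw [hX, hX', hg']
        have e1 := he (tgt' b')
        have e2 := he (tgt' b)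
        have e3 := hf b
        have e4 := hf b'
        field_simp
      rw [h4]
      exact h3
  · intro s v j hv
    exact hC s v (fun j => hR.bound _ _ j hv) j

/-- PULL BACK without gauge: the matrices are the same up to a scalar factor. -/
theorem pw_pull1 {S B S' B' : Type} {src tgt : B → S} {M : B → ℂ → Mt}
    {Start : S → (ℂ → V) → Prop} {cmp : B → Option B} {g : B → ℂ → ℂ} {C : ℝ} {w w' : ℂ}
    {src' tgt' : B' → S'} {M' : B' → ℂ → Mt} {Start' : S' → (ℂ → V) → Prop}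
    {cmp' : B' → Option B'} {g' : B' → ℂ → ℂ}
    (φ : S' → S) (ψ : B' → B) (hsrc : ∀ b, src (ψ b) = φ (src' b))
    (htgt : ∀ b, tgt (ψ b) = φ (tgt' b))
    (hM : ∀ b, M' b w' = M (ψ b) w)
    (hS : ∀ s v, Start' s v → ∃ v₀, Start (φ s) v₀ ∧ v w' = v₀ w)
    (hcmp : ∀ b, cmp (ψ b) = (cmp' b).map ψ)
    (hsc : ∀ b b', cmp' b = some b' → src' b' = src' b)
    (hg : ∀ b, g' b w' = g (ψ b) w)
    (h : PW src tgt M Start cmp g C w) : PW src' tgt' M' Start' cmp' g' C w' := by
  refine pw_pull (C := C) φ ψ hsrc htgt (fun _ => 1) (fun _ => 1) (fun _ => one_ne_zero) ?_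
    (fun _ => 1) (fun _ => one_ne_zero) ?_ ?_ hcmp hsc ?_ ?_ ?_ h
  · intro s v
    rw [Matrix.one_mulVec, one_mul]
  · intro b
    rw [Matrix.one_mul, one_smul, Matrix.mul_one, hM]
  · intro s v hv
    obtain ⟨v₀, h1, h2⟩ := hS s v hv
    exact ⟨v₀, h1, 1, one_ne_zero, by rw [Matrix.one_mulVec, one_smul, h2]⟩
  · intro b _
    rw [mul_one, one_mul, one_mul]
    exact hg b
  · intro b b' _
    rw [mul_one, mul_one, one_mul, one_mul]
    exact hg b
  · intro s v hv j
    have := hv j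
    rw [Matrix.one_mulVec] at this
    exact this

end Pool.Agent.Helper21.MIR
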