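import Pool.Agent.Helper21.CX.MIRI
import Pool.Agent.Helper6.CX.LNG
import Pool.Agent.Helper12.CX.SVF

/-!
Row MIRI, second part: mirror symmetry for the global charts (`MG`) and the start clause.
-/

set_option autoImplicit false
noncomputable section
namespace Pool.Agent.Helper21.MIRI

open Complex
open Pool.Agent.Helper6.MONO
open Pool.Agent.Helper21.SUP (GS Sch gM SBlk SSt DG DG_nx rl MmOK nx_rl sD_rl fD_rl okD_rl DG_rl
  srl gM_rl mmOK_02 mmOK_rot okD_cons sD_cons sD_nil Ty std Modes)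
open Pool.Agent.Helper21.MIR



theorem denS_02 (p q r : ℕ) (s : GS) (h : DG s) (w : ℂ) :
    denS p q r s (-w) = denS q p r (rl (Equiv.swap (0 : Fin 3) 2) s) w := by
  unfold denS
  rw [oriZ_02 s h, lamS_rl (mmOK_02 p q r)]
  cases oriZ s
  · simp only [Bool.false_eq_true, if_false, Bool.not_false, if_true]
    ring
  · simp only [Bool.not_true, Bool.false_eq_true, if_false, if_true]
    ring

theorem teS_02 (p q r : ℕ) (s : GS) (h : DG s) (w : ℂ) :
    teS p q r s (-w) = teS q p r (rl (Equiv.swap (0 : Fin 3) 2) s) w := by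
  unfold teS
  rw [omS_02 p q r s h]

theorem rhoG_02 (p q r : ℕ) (s : GS) (h : DG s) (w : ℂ) :
    rhoG p q r s (-w) = rhoG q p r (rl (Equiv.swap (0 : Fin 3) 2) s) w := by
  unfold rhoG
  rw [denS_02 p q r s h, denS_02 p q r _ (DG_nx s 2 h), nx_rl]

theorem tauG_02 (p q r : ℕ) (s : GS) (h : DG s) (w : ℂ) :
    tauG p q r s (-w) = tauG q p r (rl (Equiv.swap (0 : Fin 3) 2) s) w := by
  unfold tauG
  rw [denS_02 p q r s h, denS_02 p q r _ (DG_nx s 2 h), nx_rl, lamS_rl (mmOK_02 p q r),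
    lamS_rl (mmOK_02 p q r)]

theorem kapG_02 (p q r : ℕ) (s : GS) (h : DG s) (w : ℂ) :
    kapG p q r s (-w) = kapG q p r (rl (Equiv.swap (0 : Fin 3) 2) s) w := by
  unfold kapG
  rw [denS_02 p q r s h, denS_02 p q r _ (DG_nx s 3 h), nx_rl, lamS_rl (mmOK_02 p q r)]

theorem kk_02 (p q r : ℕ) (s : GS) :
    kk q p r (rl (Equiv.swap (0 : Fin 3) 2) s).1 (rl (Equiv.swap (0 : Fin 3) 2) s).2.1 = kk p q r s.1 s.2.1 := kk_rl (mmOK_02 p q r) _ _

theorem mm_02 (p q r : ℕ) (s : GS) :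
    mm q p r (rl (Equiv.swap (0 : Fin 3) 2) s).1 (rl (Equiv.swap (0 : Fin 3) 2) s).2.1 = mm p q r s.1 s.2.1 := mmOK_02 p q r _ _

theorem SS_02 (p q r : ℕ) (s : GS) : SS p q r s = SS q p r (rl (Equiv.swap (0 : Fin 3) 2) s) := by
  unfold SS
  rw [kk_02]

theorem CGm_02 (p q r : ℕ) (s : GS) (h : DG s) (m : ℕ) (w : ℂ) :
    CGm p q r s m (-w) = CGm q p r (rl (Equiv.swap (0 : Fin 3) 2) s) m w := by
  unfold CGm
  rw [kapG_02 p q r s h, tauG_02 p q r s h, omS_02 p q r s h, kk_02]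

theorem GR_02 (p q r : ℕ) (L : Bool) (s : GS) (h : DG s) (m : ℕ) (w : ℂ) :
    GR p q r L s m (-w) = GR q p r L (rl (Equiv.swap (0 : Fin 3) 2) s) m w := by
  unfold GR
  rw [CGm_02 p q r s h, omS_02 p q r s h, kk_02, mm_02]

theorem N1m_02 (p q r : ℕ) (s : GS) (h : DG s) (w : ℂ) :
    N1m p q r s (-w) = N1m q p r (rl (Equiv.swap (0 : Fin 3) 2) s) w := by
  unfold N1m
  rw [teS_02 p q r s h, rhoG_02 p q r s h, tauG_02 p q r s h, SS_02 p q r s]

theorem NLm_02 (p q r : ℕ) (s : GS) (h : DG s) (w : ℂ) :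
    NLm p q r s (-w) = NLm q p r (rl (Equiv.swap (0 : Fin 3) 2) s) w := by
  unfold NLm
  rw [teS_02 p q r s h, tauG_02 p q r s h, SS_02 p q r s, omS_02 p q r s h,
    omS_02 p q r _ (DG_nx s 2 h), nx_rl]

theorem UUm_02 (p q r : ℕ) (s : GS) (h : DG s) (w : ℂ) :
    UUm p q r s (-w) = UUm q p r (rl (Equiv.swap (0 : Fin 3) 2) s) w := by
  unfold UUm
  rw [teS_02 p q r s h, SS_02 p q r s, SS_02 p q r (Pool.Agent.Helper21.SUP.nx s 2), omS_02 p q r s h,
    rhoG_02 p q r _ (DG_nx s 2 h), tauG_02 p q r _ (DG_nx s 2 h), nx_rl]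

theorem s2_rl (σ : Equiv.Perm (Fin 3)) (s : GS) (n : ℕ) : s2 (rl σ s) n = rl σ (s2 s n) := by
  induction n with
  | zero => rfl
  | succ n ih => rw [s2_succ, s2_succ, ih, nx_rl]

theorem BN_02 (p q r : ℕ) (s : GS) (h : DG s) (w : ℂ) :
    ∀ n, BN p q r s n (-w) = BN q p r (rl (Equiv.swap (0 : Fin 3) 2) s) n w ∧
      BN p q r s (n + 1) (-w) = BN q p r (rl (Equiv.swap (0 : Fin 3) 2) s) (n + 1) w ∧
      BN p q r s (n + 2) (-w) = BN q p r (rl (Equiv.swap (0 : Fin 3) 2) s) (n + 2) w := by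
  intro n
  induction n with
  | zero =>
    refine ⟨rfl, N1m_02 p q r s h w, ?_⟩
    show NLm p q r (Pool.Agent.Helper21.SUP.nx s 2) (-w) * N1m p q r s (-w) =
      NLm q p r (Pool.Agent.Helper21.SUP.nx (rl (Equiv.swap (0 : Fin 3) 2) s) 2) w * N1m q p r (rl (Equiv.swap (0 : Fin 3) 2) s) w
    rw [N1m_02 p q r s h, NLm_02 p q r _ (DG_nx s 2 h), nx_rl]
  | succ n ih =>
    refine ⟨ih.2.1, ih.2.2, ?_⟩
    show UUm p q r (s2 s (n + 1)) (-w) * BN p q r s (n + 1) (-w) =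
      UUm q p r (s2 (rl (Equiv.swap (0 : Fin 3) 2) s) (n + 1)) w * BN q p r (rl (Equiv.swap (0 : Fin 3) 2) s) (n + 1) w
    rw [ih.2.1, UUm_02 p q r _ (s2_DG h (n + 1)), s2_rl]

theorem gG_02 (p q r : ℕ) (w : ℂ) : ∀ (l : List ℕ) (L : Bool) (s : GS), DG s →
    gG p q r L s l (-w) = gG q p r L (rl (Equiv.swap (0 : Fin 3) 2) s) l w := by
  intro l
  induction l with
  | nil => intro L s _; rfl
  | cons m l ih =>
    intro L s h
    show gG p q r false (Pool.Agent.Helper21.SUP.nx s m) l (-w) * GR p q r L s m (-w) =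
      gG q p r false (Pool.Agent.Helper21.SUP.nx (rl (Equiv.swap (0 : Fin 3) 2) s) m) l w * GR q p r L (rl (Equiv.swap (0 : Fin 3) 2) s) m w
    rw [ih false _ (DG_nx s m h), GR_02 p q r L s h, nx_rl]

/-- modes of the two labellings -/
structure YRel (Y Y' : Modes) (σ : Equiv.Perm (Fin 3)) : Prop where
  A : ∀ s, DG s → Y'.A (rl σ s) = Y.A s
  B : ∀ s, DG s → Y'.B (rl σ s) = Y.B s
  C : ∀ s m, DG s → Y'.C (rl σ s) m = Y.C s m

theorem srel_std {Y Y' : Modes} {σ : Equiv.Perm (Fin 3)} (h : YRel Y Y' σ) :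
    SRel (std Y) (std Y') σ := by
  refine ⟨fun s m hs => ?_, fun t s m _ => rfl⟩
  show (if m = 3 ∧ Y'.A (rl σ s) = true then Ty.A
    else if m = 2 ∧ Y'.B (rl σ s) = true then Ty.B
    else if Y'.C (rl σ s) m = true then Ty.P m else Ty.o) = _
  rw [h.A s hs, h.B s hs, h.C s m hs]
  rfl

/-- MIRROR SYMMETRY of the global block matrices -/
theorem MG_02 {p q r : ℕ} {Y Y' : Modes} (hZ : SRel (std Y) (std Y') (Equiv.swap (0 : Fin 3) 2))
    (b : SBlk (std Y) p q r) (w : ℂ) :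
    MG p q r b (-w) = MG q p r (rlB hZ (mmOK_02 p q r) b) w := by
  unfold MG
  have e1 : (rlB hZ (mmOK_02 p q r) b).t = b.t := rfl
  have e2 : (rlB hZ (mmOK_02 p q r) b).o = b.o := rfl
  have e3 : (rlB hZ (mmOK_02 p q r) b).ms = b.ms := rfl
  have e4 : (rlB hZ (mmOK_02 p q r) b).s = rl (Equiv.swap (0 : Fin 3) 2) b.s := rfl
  rw [e1, e2, e3, e4, runs_rlB, (BN_02 p q r b.s b.hs w b.ms.length).2.1,
    gG_02 p q r w b.runs _ b.s b.hs]

theorem StartY_02 {p q r : ℕ} {al be e : ℝ} {τ : Type} {S : SSt τ} {v : ℂ → Fin 3 → ℂ}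
    (h : SV.StartY p q r al be e S v) :
    SV.StartY q p r al be e (srl (Equiv.swap (0 : Fin 3) 2) S) v ∧ ∀ w w' : ℂ, v w = v w' := by
  obtain ⟨h1, h2, h3, h4, i, h5⟩ := h
  refine ⟨⟨DG_rl _ _ h1, ?_, h3, h4, i, h5⟩, fun w w' => by rw [h5]⟩
  show mm q p r ((Equiv.swap (0 : Fin 3) 2) S.1.1) ((Equiv.swap (0 : Fin 3) 2) S.1.2.2) ≠ 3
  rw [mmOK_02 p q r]
  exact h2

/-- THE UPPER HALF OF THE FRONTIER in the global charts from the quarters `re ≥ 0` of the classes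
`(p, q, r)` and `(q, p, r)` -/
theorem pt_two_G {p q r : ℕ} {Y Y' : Modes} (hY : YRel Y Y' (Equiv.swap (0 : Fin 3) 2)) {x0 : ℝ} {al be e : ℝ}
    {K : SBlk (std Y) p q r → TR (SBlk (std Y) p q r)}
    {K' : SBlk (std Y') q p r → TR (SBlk (std Y') q p r)}
    (hK : ∀ b, ∀ w ∈ Frt x0, TRel (rlB (srel_std hY) (mmOK_02 p q r)) w (-w)
      (K' (rlB (srel_std hY) (mmOK_02 p q r) b)) (K b)) {C : ℝ}
    (hc : ConjOK (fun (b : SBlk (std Y) p q r) w => MG p q r b w) (SV.StartY (τ := Ty) p q r al be e) K x0)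
    (h1 : ∀ w ∈ Frt x0, 0 ≤ w.im → 0 ≤ w.re →
      PT SBlk.src SBlk.tgt (fun (b : SBlk (std Y) p q r) w => MG p q r b w)
        (SV.StartY (τ := Ty) p q r al be e) K C w)
    (h2 : ∀ w ∈ Frt x0, 0 ≤ w.im → 0 ≤ w.re →
      PT SBlk.src SBlk.tgt (fun (b : SBlk (std Y') q p r) w => MG q p r b w)
        (SV.StartY (τ := Ty) q p r al be e) K' C w) :
    ∀ w ∈ Frt x0, 0 ≤ w.im →
      PT SBlk.src SBlk.tgt (fun (b : SBlk (std Y) p q r) w => MG p q r b w)
        (SV.StartY (τ := Ty) p q r al be e) K C w := by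
  have hZ := srel_std hY
  refine pt_upper hc h1 fun w hw hi hr => ?_
  refine pt_pull (C := C) (srl (Equiv.swap (0 : Fin 3) 2)) (rlB hZ (mmOK_02 p q r)) (fun b => src_rlB hZ _ b)
    (fun b => tgt_rlB hZ _ b) (fun _ => 1) (fun _ => 1) (fun _ => one_ne_zero) ?_
    (fun _ => 1) (fun _ => one_ne_zero) ?_ ?_ ?_ ?_ (h2 w hw hi hr)
  · intro s v
    rw [Matrix.one_mulVec, one_mul]
  · intro b
    rw [Matrix.one_mul, one_smul, Matrix.mul_one]
    exact MG_02 hZ b w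
  · intro s v hv
    obtain ⟨h3, h4⟩ := StartY_02 hv
    exact ⟨v, h3, 1, one_ne_zero, by rw [Matrix.one_mulVec, one_smul, h4 (-w) w]⟩
  · intro b
    have hb := hK b w hw
    revert hb
    cases hk : K' (rlB (srel_std hY) (mmOK_02 p q r) b) with
    | ref r =>
      cases hk' : K b with
      | ref r' =>
        intro hb
        have hb' : r' (-w) = r w := hb
        exact ⟨1, one_ne_zero, by rw [Matrix.one_mulVec, one_smul, hb']⟩
      | self g' => exact fun hb => absurd hb id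
      | comp c' g' => exact fun hb => absurd hb id
    | self g =>
      cases hk' : K b with
      | ref r' => exact fun hb => absurd hb id
      | self g' =>
        intro hb
        have hb' : g' (-w) = g w := hb
        show g' (-w) * 1 = 1 * 1 * g w
        rw [hb']
        ring
      | comp c' g' => exact fun hb => absurd hb id
    | comp c g =>
      cases hk' : K b with
      | ref r' => exact fun hb => absurd hb id
      | self g' => exact fun hb => absurd hb id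
      | comp c' g' =>
        rintro ⟨h1, h2⟩
        refine ⟨h1, rfl, ?_⟩
        show g' (-w) * 1 * 1 = 1 * 1 * g w
        rw [h2]
        ring
  · intro s v hv j
    have := hv j
    rw [Matrix.one_mulVec] at this
    exact this

end Pool.Agent.Helper21.MIRI
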