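import Pool.Agent.Helper21.CX.MIR

/-!
The certificate at one frontier point with all three treatments of blocks (`ref`, `self`, `comp`),
and its transport by complex conjugation and by relabelling (mirror symmetry).
-/

set_option autoImplicit false

namespace Pool.Agent.Helper21.MIR

open Complex Set Pool.Agent.Helper39.C75

/-- how a block is treated inside -/
inductive TR (B : Type) : Type
  | ref (r : ℂ → V) : TR B
  | self (g : ℂ → ℂ) : TR B
  | comp (b' : B) (g : ℂ → ℂ) : TR B

/-- condition of the treatment at the frontier point `w`, `R` the region of the source -/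
def TR.at {B : Type} (M : B → ℂ → Mt) (w : ℂ) (b : B) (R : Set V) : TR B → Prop
  | TR.ref r => r w ∈ R
  | TR.self g => ∀ v ∈ R, (M b w).mulVec v 0 / (g w * v 0) ∈ slitPlane
  | TR.comp b' g => ∀ v ∈ R, (M b w).mulVec v 0 / (g w * (M b' w).mulVec v 0) ∈ slitPlane

/-- condition of the treatment inside (for `ref` only on the open set: on the frontier it follows
from the certificate) -/
def TR.ok {S B : Type} (src : B → S) (M : B → ℂ → Mt) (Ω : Set ℂ) (rk : B → ℕ) (b : B) :
    TR B → Prop
  | TR.ref r => Reg Ω r ∧ (∀ w ∈ Ω, r w 0 ≠ 0) ∧ ∀ w ∈ Ω, (M b w).mulVec (r w) 0 ≠ 0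
  | TR.self g => ContinuousOn g (closure Ω) ∧ DifferentiableOn ℂ g Ω ∧ ∀ w ∈ closure Ω, g w ≠ 0
  | TR.comp b' g => (src b' = src b ∧ rk b' < rk b) ∧
      ContinuousOn g (closure Ω) ∧ DifferentiableOn ℂ g Ω ∧ ∀ w ∈ closure Ω, g w ≠ 0

/-- the certificate at the point `w` with the regions `R` -/
structure PTr {S B : Type} (src tgt : B → S) (M : B → ℂ → Mt) (Start : S → (ℂ → V) → Prop)
    (K : B → TR B) (C : ℝ) (w : ℂ) (R : S → Set V) : Prop where
  cert : RCert src tgt M Start w R
  tr : ∀ b, (K b).at M w b (R (src b))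
  bound : ∀ s v j, v ∈ R s → ‖v j‖ ≤ C * ‖v 0‖

/-- the certificate at the point `w` -/
def PT {S B : Type} (src tgt : B → S) (M : B → ℂ → Mt) (Start : S → (ℂ → V) → Prop)
    (K : B → TR B) (C : ℝ) (w : ℂ) : Prop :=
  ∃ R, PTr src tgt M Start K C w R

/-- all frontier points together -/
theorem pt_all {S B : Type} {src tgt : B → S} {M : B → ℂ → Mt} {Start : S → (ℂ → V) → Prop}
    {K : B → TR B} {C : ℝ} {Ω : Set ℂ} (hΩ : IsOpen Ω) {rk : B → ℕ}
    (hK : ∀ b, (K b).ok src M Ω rk b)
    (h : ∀ w ∈ frontier Ω, PT src tgt M Start K C w) :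
    (∀ b, RTreat src tgt M Start Ω rk b) ∧
    ∀ s j, ∀ w ∈ frontier Ω, ∃ R, RCert src tgt M Start w R ∧ ∀ v ∈ R s, ‖v j‖ ≤ C * ‖v 0‖ := by
  constructor
  · intro b
    have hb := hK b
    have hf : ∀ w ∈ frontier Ω, ∃ R, RCert src tgt M Start w R ∧ (K b).at M w b (R (src b)) := by
      intro w hw
      obtain ⟨R, hR⟩ := h w hw
      exact ⟨R, hR.cert, hR.tr b⟩
    revert hb hf
    cases K b with
    | ref r =>
      intro hb hf
      have hcl : ∀ w ∈ closure Ω, w ∈ Ω ∨ w ∈ frontier Ω := by
        intro w hw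
        by_cases h1 : w ∈ Ω
        · exact Or.inl h1
        · exact Or.inr ⟨hw, by rwa [hΩ.interior_eq]⟩
      refine RTreat.ref r hb.1 ?_ ?_ fun w hw => hf w hw
      · intro w hw
        rcases hcl w hw with h1 | h1
        · exact hb.2.1 w h1
        · obtain ⟨R, hR, hr⟩ := hf w h1
          exact (hR.reg _).ne0 _ hr
      · intro w hw
        rcases hcl w hw with h1 | h1
        · exact hb.2.2 w h1
        · obtain ⟨R, hR, hr⟩ := hf w h1
          exact (hR.reg _).ne0 _ (hR.block b _ hr)
    | self g =>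
      intro hb hf
      exact RTreat.self g hb.1 hb.2.1 hb.2.2 fun w hw => hf w hw
    | comp b' g =>
      intro hb hf
      exact RTreat.comp b' hb.1.1 hb.1.2 g hb.2.1 hb.2.2.1 hb.2.2.2 fun w hw => hf w hw
  · intro s j w hw
    obtain ⟨R, hR⟩ := h w hw
    exact ⟨R, hR.cert, fun v hv => hR.bound s v j hv⟩

/-! ### complex conjugation -/

/-- the treatment is compatible with conjugation from `w` to `w'` -/
def TR.conjOK {B : Type} (w w' : ℂ) : TR B → Prop
  | TR.ref r => r w' = cj (r w)
  | TR.self g => g w' = starRingEnd ℂ (g w)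
  | TR.comp _ g => g w' = starRingEnd ℂ (g w)

/-- CONJUGATION -/
theorem pt_conj {S B : Type} {src tgt : B → S} {M : B → ℂ → Mt} {Start : S → (ℂ → V) → Prop}
    {K : B → TR B} {C : ℝ} {w w' : ℂ}
    (hM : ∀ b i j, M b w' i j = starRingEnd ℂ (M b w i j))
    (hK : ∀ b, (K b).conjOK w w')
    (hS : ∀ s v, Start s v → v w' = cj (v w))
    (h : PT src tgt M Start K C w) : PT src tgt M Start K C w' := by
  obtain ⟨R, hR⟩ := h
  have hmv : ∀ b v, (M b w').mulVec v = cj ((M b w).mulVec (cj v)) := fun b v =>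
    cj_mulVec _ _ (hM b) v
  have e1 : ∀ b v, starRingEnd ℂ ((M b w).mulVec (cj v) 0) = (M b w').mulVec v 0 := by
    intro b v
    rw [hmv]; rfl
  refine ⟨fun s => {v | cj v ∈ R s}, ⟨fun s => isRegion_conj (hR.cert.reg s), ?_, ?_⟩, ?_, ?_⟩
  · intro b v hv
    show cj _ ∈ R (tgt b)
    rw [hmv, cj_cj]
    exact hR.cert.block b _ hv
  · intro s v hv
    show cj _ ∈ R s
    rw [hS s v hv, cj_cj]
    exact hR.cert.start s v hv
  · intro b
    have h1 := hR.tr b
    have h2 := hK b
    revert h1 h2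
    cases K b with
    | ref r =>
      intro h1 h2
      show cj (r w') ∈ R (src b)
      have h2' : r w' = cj (r w) := h2
      rw [h2', cj_cj]
      exact h1
    | self g =>
      intro h1 h2 v hv
      have h2' : g w' = starRingEnd ℂ (g w) := h2
      have h3 := slit_conj (h1 (cj v) hv)
      rw [map_div₀, map_mul, ← h2', e1] at h3
      have e2 : starRingEnd ℂ (cj v 0) = v 0 := by
        show starRingEnd ℂ (starRingEnd ℂ (v 0)) = v 0
        rw [Complex.conj_conj]
      rw [e2] at h3
      exact h3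
    | comp b' g =>
      intro h1 h2 v hv
      have h2' : g w' = starRingEnd ℂ (g w) := h2
      have h3 := slit_conj (h1 (cj v) hv)
      rw [map_div₀, map_mul, ← h2', e1, e1] at h3
      exact h3
  · intro s v j hv
    have h1 := hR.bound s (cj v) j hv
    have e : ∀ i, ‖cj v i‖ = ‖v i‖ := fun i => by
      show ‖starRingEnd ℂ (v i)‖ = ‖v i‖
      rw [Complex.norm_conj]
    rw [e, e] at h1
    exact h1

/-! ### pulling back along maps of states and blocks -/

/-- compatibility of the treatments `k` (of `ψ b`) and `k'` (of `b`) -/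
def TR.pullOK {B B' : Type} (ψ : B' → B) (w w' : ℂ) (b : B') (E : B' → Mt) (eS eT : B' → ℂ)
    (f : B' → ℂ) : TR B → TR B' → Prop
  | TR.ref r, TR.ref r' => ∃ c : ℂ, c ≠ 0 ∧ (E b).mulVec (r' w') = c • r w
  | TR.self g, TR.self g' => g' w' * eT b = f b * eS b * g w
  | TR.comp c g, TR.comp c' g' => c = ψ c' ∧ E c' = E b ∧
      g' w' * f c' * eT b = f b * eT c' * g w
  | _, _ => False

/-- PULL BACK (relabelling, mirror symmetry, cyclic rotation) -/
theorem pt_pull {S B S' B' : Type} {src tgt : B → S} {M : B → ℂ → Mt}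
    {Start : S → (ℂ → V) → Prop} {K : B → TR B} {C C' : ℝ} {w w' : ℂ}
    {src' tgt' : B' → S'} {M' : B' → ℂ → Mt} {Start' : S' → (ℂ → V) → Prop}
    {K' : B' → TR B'}
    (φ : S' → S) (ψ : B' → B) (hsrc : ∀ b, src (ψ b) = φ (src' b))
    (htgt : ∀ b, tgt (ψ b) = φ (tgt' b)) (E : S' → Mt) (e : S' → ℂ) (he : ∀ s, e s ≠ 0)
    (hE : ∀ s v, (E s).mulVec v 0 = e s * v 0) (f : B' → ℂ) (hf : ∀ b, f b ≠ 0)
    (hM : ∀ b, E (tgt' b) * M' b w' = f b • (M (ψ b) w * E (src' b)))
    (hS : ∀ s v, Start' s v → ∃ v₀, Start (φ s) v₀ ∧ ∃ c : ℂ, c ≠ 0 ∧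
      (E s).mulVec (v w') = c • v₀ w)
    (hK : ∀ b, TR.pullOK ψ w w' b (fun b => E (src' b)) (fun b => e (src' b))
      (fun b => e (tgt' b)) f (K (ψ b)) (K' b))
    (hC : ∀ s v, (∀ j, ‖(E s).mulVec v j‖ ≤ C * ‖(E s).mulVec v 0‖) → ∀ j, ‖v j‖ ≤ C' * ‖v 0‖)
    (h : PT src tgt M Start K C w) : PT src' tgt' M' Start' K' C' w' := by
  obtain ⟨R, hR⟩ := h
  have hmv : ∀ b v, (E (tgt' b)).mulVec ((M' b w').mulVec v) =
      f b • (M (ψ b) w).mulVec ((E (src' b)).mulVec v) := by
    intro b v
    rw [Matrix.mulVec_mulVec, Matrix.mulVec_mulVec, hM, Matrix.smul_mulVec]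
  have h0 : ∀ b v, e (tgt' b) * (M' b w').mulVec v 0 =
      f b * (M (ψ b) w).mulVec ((E (src' b)).mulVec v) 0 := by
    intro b v
    rw [← hE, hmv, Pi.smul_apply, smul_eq_mul]
  have hX : ∀ b v, (M' b w').mulVec v 0 =
      f b / e (tgt' b) * (M (ψ b) w).mulVec ((E (src' b)).mulVec v) 0 := by
    intro b v
    rw [div_mul_eq_mul_div, eq_div_iff (he _), mul_comm ((M' b w').mulVec v 0)]
    exact h0 b v
  refine ⟨fun s => {v | (E s).mulVec v ∈ R (φ s)},
    ⟨fun s => isRegion_pull (hR.cert.reg _) _ (e s) (he s) (hE s), ?_, ?_⟩, ?_, ?_⟩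
  · intro b v hv
    show (E (tgt' b)).mulVec _ ∈ R (φ (tgt' b))
    rw [hmv, ← htgt]
    refine (hR.cert.reg _).smul _ _ (hf b) (hR.cert.block (ψ b) _ ?_)
    rw [hsrc]
    exact hv
  · intro s v hv
    obtain ⟨v₀, h1, c, hc, h2⟩ := hS s v hv
    show (E s).mulVec (v w') ∈ R (φ s)
    rw [h2]
    exact (hR.cert.reg _).smul _ _ hc (hR.cert.start _ _ h1)
  · intro b
    have h1 := hR.tr (ψ b)
    have h2 := hK b
    rw [hsrc] at h1
    revert h1 h2
    cases hk : K (ψ b) with
    | ref r =>
      cases hk' : K' b with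
      | ref r' =>
        intro h1 h2
        obtain ⟨c, hc, h3⟩ := h2
        show (E (src' b)).mulVec (r' w') ∈ R (φ (src' b))
        rw [h3]
        exact (hR.cert.reg _).smul _ _ hc h1
      | self g' => intro _ h2; exact absurd h2 id
      | comp c' g' => intro _ h2; exact absurd h2 id
    | self g =>
      cases hk' : K' b with
      | ref r' => intro _ h2; exact absurd h2 id
      | self g' =>
        intro h1 h2 v hv
        have h2' : g' w' * e (tgt' b) = f b * e (src' b) * g w := h2
        have h3 := h1 _ hv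
        have hg' : g' w' = f b * e (src' b) * g w / e (tgt' b) := by
          rw [eq_div_iff (he _)]
          exact h2'
        have h4 : (M' b w').mulVec v 0 / (g' w' * v 0) =
            (M (ψ b) w).mulVec ((E (src' b)).mulVec v) 0 /
              (g w * (E (src' b)).mulVec v 0) := by
          rw [hX, hg', hE]
          have e1 := he (src' b)
          have e2 := he (tgt' b)
          have e3 := hf b
          field_simp
        rw [h4]
        exact h3
      | comp c' g' => intro _ h2; exact absurd h2 id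
    | comp c g =>
      cases hk' : K' b with
      | ref r' => intro _ h2; exact absurd h2 id
      | self g' => intro _ h2; exact absurd h2 id
      | comp c' g' =>
        intro h1 h2 v hv
        obtain ⟨hc, hEE, h2'⟩ := h2
        have h3 := h1 _ hv
        subst hc
        have h2'' : g' w' * f c' * e (tgt' b) = f b * e (tgt' c') * g w := h2'
        have hg' : g' w' = f b * e (tgt' c') * g w / (f c' * e (tgt' b)) := by
          rw [eq_div_iff (mul_ne_zero (hf _) (he _)), ← mul_assoc]
          exact h2''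
        have hX' := hX c' v
        have hEE' : E (src' c') = E (src' b) := hEE
        rw [hEE'] at hX'
        have h4 : (M' b w').mulVec v 0 / (g' w' * (M' c' w').mulVec v 0) =
            (M (ψ b) w).mulVec ((E (src' b)).mulVec v) 0 /
              (g w * (M (ψ c') w).mulVec ((E (src' b)).mulVec v) 0) := by
          rw [hX, hX', hg']
          have e1 := he (tgt' c')
          have e2 := he (tgt' b)
          have e3 := hf b
          have e4 := hf c'
          field_simp
        rw [h4]
        exact h3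
  · intro s v j hv
    exact hC s v (fun j => hR.bound _ _ j hv) j

end Pool.Agent.Helper21.MIR
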