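import Pool.Agent.Helper6.CX.LNK

/-!
Row REFC: the reference vectors `(1, a om, b om (1/2 - om))` (constant vectors of the scaled chart):
the first coordinate after one run is not zero for `Re (z + 1/z) > x0`.
-/

set_option autoImplicit false
noncomputable section
namespace Pool.Agent.Helper6.MONO

open Complex

theorem inX_inv {x0 : ℝ} {z : ℂ} (h : InX x0 z) : InX x0 z⁻¹ := by
  refine ⟨inv_ne_zero h.1, ?_⟩
  rw [inv_inv, add_comm]
  exact h.2

/-- `A z + B/z + D` has no zero with `Re (z + 1/z) > x0` -/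
theorem refc_key {A B D x0 : ℝ} (hA : 0 ≤ A) (hB : 0 < B) (hD : 0 ≤ D) (hx : -2 < x0)
    (h : -2 * x0 * A * B ≤ D * (A + B)) {z : ℂ} (hz : InX x0 z) :
    (A : ℂ) * z + (B : ℂ) * z⁻¹ + (D : ℂ) ≠ 0 := by
  intro h0
  obtain ⟨hz0, hzx⟩ := hz
  set n : ℝ := Complex.normSq z with hn
  have hnp : 0 < n := Complex.normSq_pos.2 hz0
  have hre : z⁻¹.re = z.re / n := by rw [Complex.inv_re]
  have him : z⁻¹.im = -z.im / n := by rw [Complex.inv_im]
  have e1 : A * z.re + B * (z.re / n) + D = 0 := by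
    have := congrArg Complex.re h0
    rw [Complex.add_re, Complex.add_re, Complex.re_ofReal_mul, Complex.re_ofReal_mul, hre,
      Complex.ofReal_re, Complex.zero_re] at this
    exact this
  have e2 : A * z.im + B * (-z.im / n) = 0 := by
    have := congrArg Complex.im h0
    rw [Complex.add_im, Complex.add_im, Complex.im_ofReal_mul, Complex.im_ofReal_mul, him,
      Complex.ofReal_im, Complex.zero_im, add_zero] at this
    exact this
  rw [Complex.add_re, hre] at hzx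
  have hns : n = z.re ^ 2 + z.im ^ 2 := by
    rw [hn, Complex.normSq_apply]; ring
  have e1' : (A * n + B) * z.re = -(D * n) := by
    field_simp at e1
    linarith
  have e2' : (A * n - B) * z.im = 0 := by
    field_simp at e2
    linarith
  have hzx' : x0 * n < z.re * (n + 1) := by
    have h1 : (x0 - z.re) * n < z.re := by
      have h2 : x0 - z.re < z.re / n := by linarith
      rwa [lt_div_iff₀ hnp] at h2
    linarith
  have hAB : 0 < A * n + B := by positivity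
  have hre0 : z.re ≤ 0 := by
    by_contra hcon
    push Not at hcon
    have : 0 < (A * n + B) * z.re := mul_pos hAB hcon
    have h2 : 0 ≤ D * n := by positivity
    linarith
  rcases mul_eq_zero.1 e2' with h1 | h1
  · -- `A n = B`
    have hAn : A * n = B := by linarith
    have hA0 : 0 < A := by
      rcases hA.lt_or_eq with h2 | h2
      · exact h2
      · rw [← h2] at hAn
        linarith
    -- z.re = - D / (2A)
    have h3 : 2 * A * z.re = -D := by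
      have h4 : (2 * A * z.re + D) * n = 0 := by
        have : (A * n + B) = 2 * A * n := by linarith
        rw [this] at e1'
        linarith
      rcases mul_eq_zero.1 h4 with h5 | h5
      · linarith
      · linarith
    -- x0 n < z.re (n+1), multiply by 2 A^2
    have h6 : 2 * A * (A * (x0 * n)) < 2 * A * (A * (z.re * (n + 1))) := by
      apply mul_lt_mul_of_pos_left _ (by positivity)
      exact mul_lt_mul_of_pos_left hzx' hA0
    have h7 : 2 * A * (A * (x0 * n)) = 2 * x0 * A * B := by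
      rw [← hAn]; ring
    have h8 : 2 * A * (A * (z.re * (n + 1))) = -(D * (A + B)) := by
      have : 2 * A * (A * (z.re * (n + 1))) = (2 * A * z.re) * (A * n + A) := by ring
      rw [this, h3, hAn]; ring
    rw [h7, h8] at h6
    linarith
  · -- `z` real
    have hn' : n = z.re ^ 2 := by rw [hns, h1]; ring
    have h9 : x0 * n < -2 * n := by
      refine lt_of_lt_of_le hzx' ?_
      rw [hn']
      nlinarith [sq_nonneg (z.re + 1), mul_nonneg (neg_nonneg.2 hre0) (sq_nonneg (z.re + 1))]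
    nlinarith

/-- the polynomial in `om = 1/(2 (1 + l z))` -/
theorem refc_poly {l b0 b1 b2 x0 : ℝ} (hl : 0 < l) (h0 : 0 ≤ b0) (h1 : 0 < 4 * b0 + 2 * b1)
    (h2 : 0 ≤ 8 * b0 + 2 * b1 + b2) (hx : -2 < x0)
    (h : -2 * x0 * (4 * b0 * l ^ 2) * (4 * b0 + 2 * b1) ≤
      l * (8 * b0 + 2 * b1 + b2) * (4 * b0 * l ^ 2 + (4 * b0 + 2 * b1)))
    {z om : ℂ} (hz : InX x0 z) (hom : 2 * (1 + (l : ℂ) * z) * om = 1) :
    (b0 : ℂ) + (b1 : ℂ) * om + (b2 : ℂ) * (om * (1 / 2 - om)) ≠ 0 := by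
  intro hP
  have hk := refc_key (A := 4 * b0 * l ^ 2) (B := 4 * b0 + 2 * b1)
    (D := l * (8 * b0 + 2 * b1 + b2)) (by positivity) h1 (by positivity) hx h hz
  apply hk
  have ht : (1 + (l : ℂ) * z) ≠ 0 := by
    intro h3
    rw [h3] at hom
    simp at hom
  have hom' : om = 1 / (2 * (1 + (l : ℂ) * z)) := by
    rw [eq_div_iff (mul_ne_zero two_ne_zero ht)]
    linear_combination hom
  have hz0 := hz.1
  have key : (((4 * b0 * l ^ 2 : ℝ) : ℂ) * z + ((4 * b0 + 2 * b1 : ℝ) : ℂ) * z⁻¹ +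
      ((l * (8 * b0 + 2 * b1 + b2) : ℝ) : ℂ)) * z =
      4 * (1 + (l : ℂ) * z) ^ 2 *
        ((b0 : ℂ) + (b1 : ℂ) * om + (b2 : ℂ) * (om * (1 / 2 - om))) := by
    rw [hom']
    push_cast
    field_simp
    ring
  rw [hP, mul_zero] at key
  exact (mul_eq_zero.1 key).resolve_right hz0

/-- general quadratic polynomial in `om = 1/(2 (1 + l z))` -/
theorem refc_quad {l p0 p1 p2 x0 : ℝ} (hl : 0 < l) (h0 : 0 ≤ p0) (h1 : 0 < 4 * p0 + 2 * p1 + p2)
    (h2 : 0 ≤ 8 * p0 + 2 * p1) (hx : -2 < x0)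
    (h : -2 * x0 * (4 * p0 * l ^ 2) * (4 * p0 + 2 * p1 + p2) ≤
      l * (8 * p0 + 2 * p1) * (4 * p0 * l ^ 2 + (4 * p0 + 2 * p1 + p2)))
    {z om : ℂ} (hz : InX x0 z) (hom : 2 * (1 + (l : ℂ) * z) * om = 1) :
    (p0 : ℂ) + (p1 : ℂ) * om + (p2 : ℂ) * om ^ 2 ≠ 0 := by
  intro hP
  have hk := refc_key (A := 4 * p0 * l ^ 2) (B := 4 * p0 + 2 * p1 + p2)
    (D := l * (8 * p0 + 2 * p1)) (by positivity) h1 (by positivity) hx h hz
  apply hk
  have ht : (1 + (l : ℂ) * z) ≠ 0 := by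
    intro h3
    rw [h3] at hom
    simp at hom
  have hom' : om = 1 / (2 * (1 + (l : ℂ) * z)) := by
    rw [eq_div_iff (mul_ne_zero two_ne_zero ht)]
    linear_combination hom
  have hz0 := hz.1
  have key : (((4 * p0 * l ^ 2 : ℝ) : ℂ) * z + ((4 * p0 + 2 * p1 + p2 : ℝ) : ℂ) * z⁻¹ +
      ((l * (8 * p0 + 2 * p1) : ℝ) : ℂ)) * z =
      4 * (1 + (l : ℂ) * z) ^ 2 * ((p0 : ℂ) + (p1 : ℂ) * om + (p2 : ℂ) * om ^ 2) := by
    rw [hom']
    push_cast
    field_simp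
    ring
  rw [hP, mul_zero] at key
  exact (mul_eq_zero.1 key).resolve_right hz0

/-- if `b2 ≥ 0` no condition is needed -/
theorem refc_pos {l b0 b1 b2 x0 : ℝ} (hl : 0 < l) (h0 : 0 ≤ b0) (h1 : 0 < 4 * b0 + 2 * b1)
    (hb1 : 0 ≤ b1) (h2 : 0 ≤ b2) (hx : -2 < x0) :
    -2 * x0 * (4 * b0 * l ^ 2) * (4 * b0 + 2 * b1) ≤
      l * (8 * b0 + 2 * b1 + b2) * (4 * b0 * l ^ 2 + (4 * b0 + 2 * b1)) := by
  set u : ℝ := 4 * b0 with hu
  set B : ℝ := u + 2 * b1 with hB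
  have hu0 : 0 ≤ u := by positivity
  have e1 : -2 * x0 * (u * l ^ 2) * B ≤ 4 * (u * l ^ 2) * B := by
    have : 0 ≤ (u * l ^ 2) * B := by positivity
    nlinarith
  have e2 : 4 * (u * l ^ 2) * B ≤ l * (u + B) * (u * l ^ 2 + B) := by
    have h3 : l * (u + B) * (u * l ^ 2 + B) - 4 * (u * l ^ 2) * B =
        l * ((u * l - B) ^ 2 + u * B * (1 - l) ^ 2) := by ring
    have h4 : 0 ≤ l * ((u * l - B) ^ 2 + u * B * (1 - l) ^ 2) := by
      have : 0 ≤ u * B * (1 - l) ^ 2 := by positivity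
      positivity
    linarith
  have e3 : l * (u + B) * (u * l ^ 2 + B) ≤ l * (8 * b0 + 2 * b1 + b2) * (u * l ^ 2 + B) := by
    have h5 : l * (u + B) ≤ l * (8 * b0 + 2 * b1 + b2) := by
      apply mul_le_mul_of_nonneg_left _ hl.le
      rw [hB, hu]
      linarith
    exact mul_le_mul_of_nonneg_right h5 (by positivity)
  linarith

/-! ### blocks -/

/-- reference vector (in the chart `TSv`) -/
def rvY (a b : ℝ) (om : ℂ) : V3 := ![1, (a : ℂ) * om, (b : ℂ) * (om * (1 / 2 - om))]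

theorem refc_BR0 (k R a b : ℝ) (om : ℂ) :
    BRv k R (rvY a b om) 0 =
      1 + ((2 * R * a : ℝ) : ℂ) * om + (((R ^ 2 - SbP k) * b : ℝ) : ℂ) * (om * (1 / 2 - om)) := by
  simp only [BRv, rvY, Matrix.cons_val_zero, Matrix.cons_val_one, Matrix.cons_val]
  push_cast
  ring

theorem refc_BR2 (k R a b : ℝ) (om : ℂ) :
    BRv k R (rvY a b om) 2 = ((R ^ 2 + SbP k : ℝ) : ℂ) := by
  simp only [BRv, rvY, Matrix.cons_val_zero, Matrix.cons_val]
  push_cast
  ring

theorem gh_om {k h h' : ℝ} (hk : 0 < k) (hh' : 0 < h') (zo : ℂ) :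
    GhP k h h' zo = ((2 * h' / k : ℝ) : ℂ) * (1 + ((2 * h / (k * h') : ℝ) : ℂ) * zo) := by
  have h1 : (k : ℂ) ≠ 0 := by exact_mod_cast hk.ne'
  have h2 : (h' : ℂ) ≠ 0 := by exact_mod_cast hh'.ne'
  rw [GhP]
  push_cast
  field_simp
  ring

/-- REFC, even number of crossings -/
theorem refc_even {k h h' R a b x0 : ℝ} (hk : 0 < k) (hh : 0 < h) (hh' : 0 < h') (hR : 0 ≤ R)
    (ha : 0 ≤ a) (hx : -2 < x0)
    (hD : 0 ≤ 8 + 2 * (2 * R * a) + (R ^ 2 - SbP k) * b)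
    (hc : -2 * x0 * (4 * (2 * h / (k * h')) ^ 2) * (4 + 2 * (2 * R * a)) ≤
      2 * h / (k * h') * (8 + 2 * (2 * R * a) + (R ^ 2 - SbP k) * b) *
        (4 * (2 * h / (k * h')) ^ 2 + (4 + 2 * (2 * R * a))))
    {zo om : ℂ} (hz : InX x0 zo) (hom : 2 * (1 + ((2 * h / (k * h') : ℝ) : ℂ) * zo) * om = 1) :
    CEv k h h' zo (BRv k R (rvY a b om)) 0 ≠ 0 := by
  have hl : 0 < 2 * h / (k * h') := by positivity
  have hP := refc_poly (b0 := 1) (b1 := 2 * R * a) (b2 := (R ^ 2 - SbP k) * b) hl zero_le_one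
    (by positivity) (by linarith) hx (by
      simp only [mul_one]
      exact hc) hz hom
  have hG : GhP k h h' zo ≠ 0 := by
    rw [gh_om hk hh']
    refine mul_ne_zero ?_ ?_
    · exact_mod_cast (by positivity : (2 * h' / k : ℝ) ≠ 0)
    · intro h3
      rw [h3] at hom
      simp at hom
  show GhP k h h' zo * BRv k R (rvY a b om) 0 ≠ 0
  rw [refc_BR0]
  refine mul_ne_zero hG ?_
  intro h0
  apply hP
  rw [Complex.ofReal_one]
  exact h0

/-- REFC, odd number of crossings -/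
theorem refc_odd {k h h' R a b x0 : ℝ} (hk : 0 < k) (hh : 0 < h) (hh' : 0 < h') (hR : 0 < R)
    (hS : 0 ≤ SbP k) (hRS : (R ^ 2 + SbP k) * k ^ 2 ≤ 4 * (2 + k))
    (ha : 0 ≤ a) (hx : -2 < x0)
    (hD : 0 ≤ 8 * (1 - (R ^ 2 + SbP k) * k ^ 2 / (4 * (2 + k))) +
      2 * (2 * R * a + (R ^ 2 + SbP k) * k / 2) + (R ^ 2 - SbP k) * b)
    (hc : -2 * x0 * (4 * (1 - (R ^ 2 + SbP k) * k ^ 2 / (4 * (2 + k))) *
        (2 * h / (k * h')) ^ 2) *
        (4 * (1 - (R ^ 2 + SbP k) * k ^ 2 / (4 * (2 + k))) +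
          2 * (2 * R * a + (R ^ 2 + SbP k) * k / 2)) ≤
      2 * h / (k * h') * (8 * (1 - (R ^ 2 + SbP k) * k ^ 2 / (4 * (2 + k))) +
        2 * (2 * R * a + (R ^ 2 + SbP k) * k / 2) + (R ^ 2 - SbP k) * b) *
        (4 * (1 - (R ^ 2 + SbP k) * k ^ 2 / (4 * (2 + k))) * (2 * h / (k * h')) ^ 2 +
          (4 * (1 - (R ^ 2 + SbP k) * k ^ 2 / (4 * (2 + k))) +
            2 * (2 * R * a + (R ^ 2 + SbP k) * k / 2))))
    {zo om : ℂ} (hz : InX x0 zo) (hom : 2 * (1 + ((2 * h / (k * h') : ℝ) : ℂ) * zo) * om = 1) :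
    COv k h h' zo (BRv k R (rvY a b om)) 0 ≠ 0 := by
  have hl : 0 < 2 * h / (k * h') := by positivity
  have h2k : 0 < 2 + k := by linarith
  have hb0 : 0 ≤ 1 - (R ^ 2 + SbP k) * k ^ 2 / (4 * (2 + k)) := by
    rw [sub_nonneg, div_le_one (by positivity)]
    exact hRS
  have hb1 : 0 < 2 * R * a + (R ^ 2 + SbP k) * k / 2 := by
    have h3 : 0 < (R ^ 2 + SbP k) * k / 2 := by positivity
    have h4 : 0 ≤ 2 * R * a := by positivity
    linarith
  have hP := refc_poly (b0 := 1 - (R ^ 2 + SbP k) * k ^ 2 / (4 * (2 + k)))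
    (b1 := 2 * R * a + (R ^ 2 + SbP k) * k / 2) (b2 := (R ^ 2 - SbP k) * b) hl hb0
    (by linarith) hD hx hc hz hom
  have ht : (1 + ((2 * h / (k * h') : ℝ) : ℂ) * zo) ≠ 0 := by
    intro h3
    rw [h3] at hom
    simp at hom
  have hom' : om = 1 / (2 * (1 + ((2 * h / (k * h') : ℝ) : ℂ) * zo)) := by
    rw [eq_div_iff (mul_ne_zero two_ne_zero ht)]
    linear_combination hom
  have h1 : (k : ℂ) ≠ 0 := by exact_mod_cast hk.ne'
  have h2 : (h' : ℂ) ≠ 0 := by exact_mod_cast hh'.ne'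
  have h3 : (2 + (k : ℂ)) ≠ 0 := by exact_mod_cast h2k.ne'
  have key : COv k h h' zo (BRv k R (rvY a b om)) 0 =
      ((2 * h' / k : ℝ) : ℂ) * (1 + ((2 * h / (k * h') : ℝ) : ℂ) * zo) *
      (((1 - (R ^ 2 + SbP k) * k ^ 2 / (4 * (2 + k)) : ℝ) : ℂ) +
        ((2 * R * a + (R ^ 2 + SbP k) * k / 2 : ℝ) : ℂ) * om +
        (((R ^ 2 - SbP k) * b : ℝ) : ℂ) * (om * (1 / 2 - om))) := by
    show GhP k h h' zo * BRv k R (rvY a b om) 0 +
      ((h' : ℂ) - (h : ℂ) * zo) / (2 + (k : ℂ)) * BRv k R (rvY a b om) 2 = _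
    rw [refc_BR0, refc_BR2, gh_om hk hh']
    have e : (h : ℂ) * zo = (k : ℂ) * h' / 2 *
        ((1 + ((2 * h / (k * h') : ℝ) : ℂ) * zo) - 1) := by
      push_cast
      field_simp
      ring
    rw [e, hom']
    set t : ℂ := 1 + ((2 * h / (k * h') : ℝ) : ℂ) * zo with htdef
    push_cast
    field_simp
    ring
  rw [key]
  refine mul_ne_zero (mul_ne_zero ?_ ht) hP
  exact_mod_cast (by positivity : (2 * h' / k : ℝ) ≠ 0)

end Pool.Agent.Helper6.MONO
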