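import Pool.Agent.Helper21.CX.PAR

/-!
Relabelling of the walls: canonical lists, schemes and blocks are mapped to each other.
-/

set_option autoImplicit false

namespace Pool.Agent.Helper21.SUP

open Pool.Agent.Helper6.MONO (nxD sD okD dw mm BPath Dist)

/-- relabelling of a geometric state -/
def rl (σ : Equiv.Perm (Fin 3)) (s : GS) : GS := (σ s.1, σ s.2.1, σ s.2.2)

theorem nx_rl (σ : Equiv.Perm (Fin 3)) (s : GS) (m : ℕ) : nx (rl σ s) m = rl σ (nx s m) := by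
  rcases Nat.mod_two_eq_zero_or_one m with h | h
  · rw [nx_even _ m h, nx_even _ m h]; rfl
  · rw [nx_odd _ m h, nx_odd _ m h]; rfl

theorem sD_rl (σ : Equiv.Perm (Fin 3)) (ms : List ℕ) (s : GS) :
    sD (rl σ s) ms = rl σ (sD s ms) := by
  induction ms generalizing s with
  | nil => rw [sD_nil, sD_nil]
  | cons m ms ih => rw [sD_cons, sD_cons, nx_rl, ih]

theorem rl_rl (σ ρ : Equiv.Perm (Fin 3)) (s : GS) : rl σ (rl ρ s) = rl (σ * ρ) s := rfl

theorem rl_one (s : GS) : rl 1 s = s := rfl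

theorem DG_rl (σ : Equiv.Perm (Fin 3)) (s : GS) (h : DG s) : DG (rl σ s) := by
  obtain ⟨h1, h2, h3⟩ := h
  exact ⟨fun e => h1 (σ.injective e), fun e => h2 (σ.injective e), fun e => h3 (σ.injective e)⟩

/-- the orders of the two labellings agree -/
def MmOK (σ : Equiv.Perm (Fin 3)) (p q r p' q' r' : ℕ) : Prop :=
  ∀ i j : Fin 3, mm p' q' r' (σ i) (σ j) = mm p q r i j

theorem fD_rl {σ : Equiv.Perm (Fin 3)} {p q r p' q' r' : ℕ} (hM : MmOK σ p q r p' q' r')
    (ms : List ℕ) (f : Bool) (s : GS) : fD p' q' r' f (rl σ s) ms = fD p q r f s ms := by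
  induction ms generalizing s f with
  | nil => rfl
  | cons m ms ih =>
    show fD p' q' r' (decide (m = mm p' q' r' (σ s.1) (σ s.2.1))) (nx (rl σ s) m) ms =
      fD p q r (decide (m = mm p q r s.1 s.2.1)) (nx s m) ms
    rw [hM, nx_rl, ih]

theorem okD_rl {σ : Equiv.Perm (Fin 3)} {p q r p' q' r' : ℕ} (hM : MmOK σ p q r p' q' r')
    (ms : List ℕ) (f : Bool) (s : GS) (h : okD p q r f s ms) :
    okD p' q' r' f (rl σ s) ms := by
  induction ms generalizing s f with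
  | nil => exact trivial
  | cons m ms ih =>
    rw [okD_cons] at h ⊢
    obtain ⟨⟨h1, h2, h3⟩, h4⟩ := h
    refine ⟨⟨h1, ?_, h3⟩, ?_⟩
    · show m ≤ mm p' q' r' (σ s.1) (σ s.2.1)
      rw [hM]
      exact h2
    · show okD p' q' r' (decide (m = mm p' q' r' (σ s.1) (σ s.2.1))) (nx (rl σ s) m) ms
      rw [hM, nx_rl]
      exact ih _ _ h4

/-- the scheme does not depend on the labels -/
structure Sch.Inv {τ : Type} (Z : Sch τ) (σ : Equiv.Perm (Fin 3)) : Prop where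
  start : ∀ s m, Z.start (rl σ s) m = Z.start s m
  cont : ∀ t s m, Z.cont t (rl σ s) m = Z.cont t s m

theorem Sch.Inv.seg {τ : Type} {Z : Sch τ} {σ : Equiv.Perm (Fin 3)} (hZ : Z.Inv σ) :
    ∀ (ms : List ℕ) (t : τ) (s : GS), Z.seg t (rl σ s) ms = Z.seg t s ms := by
  intro ms
  induction ms with
  | nil => intro t s; rfl
  | cons m ms ih =>
    intro t s
    show (match Z.cont t (rl σ s) m with
      | none => none
      | some t' => Z.seg t' (nx (rl σ s) m) ms) =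
      (match Z.cont t s m with
      | none => none
      | some t' => Z.seg t' (nx s m) ms)
    rw [hZ.cont]
    cases Z.cont t s m with
    | none => rfl
    | some t' =>
      show Z.seg t' (nx (rl σ s) m) ms = Z.seg t' (nx s m) ms
      rw [nx_rl, ih]

theorem Sch.Inv.blk {τ : Type} {Z : Sch τ} {σ : Equiv.Perm (Fin 3)} (hZ : Z.Inv σ)
    {p q r p' q' r' : ℕ} (hM : MmOK σ p q r p' q' r') {o : Option τ} {f : Bool} {s : GS} {m : ℕ}
    {ms : List ℕ} {t : τ} (h : Z.Blk p q r o f s m ms t) :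
    Z.Blk p' q' r' o f (rl σ s) m ms t := by
  obtain ⟨h1, h2, h3⟩ := h
  refine ⟨?_, okD_rl hM _ _ _ h2, ?_⟩
  · intro t₀ ht
    rw [hZ.cont]
    exact h1 t₀ ht
  · rw [hZ.start, nx_rl, hZ.seg]
    exact h3

/-- relabelled block -/
def SBlk.rl {τ : Type} {Z : Sch τ} {σ : Equiv.Perm (Fin 3)} (hZ : Z.Inv σ)
    {p q r p' q' r' : ℕ} (hM : MmOK σ p q r p' q' r') (b : SBlk Z p q r) : SBlk Z p' q' r' :=
  ⟨b.o, b.f, Pool.Agent.Helper21.SUP.rl σ b.s, b.m, b.ms, b.t, DG_rl σ b.s b.hs, hZ.blk hM b.hb⟩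

/-- relabelled state of the certificate -/
def srl {τ : Type} (σ : Equiv.Perm (Fin 3)) (x : SSt τ) : SSt τ := (rl σ x.1, x.2)

theorem src_rl {τ : Type} {Z : Sch τ} {σ : Equiv.Perm (Fin 3)} (hZ : Z.Inv σ)
    {p q r p' q' r' : ℕ} (hM : MmOK σ p q r p' q' r') (b : SBlk Z p q r) :
    (SBlk.rl hZ hM b).src = srl σ b.src := rfl

theorem runs_rl {τ : Type} {Z : Sch τ} {σ : Equiv.Perm (Fin 3)} (hZ : Z.Inv σ)
    {p q r p' q' r' : ℕ} (hM : MmOK σ p q r p' q' r') (b : SBlk Z p q r) :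
    (SBlk.rl hZ hM b).runs = b.runs := rfl

theorem tgt_rl {τ : Type} {Z : Sch τ} {σ : Equiv.Perm (Fin 3)} (hZ : Z.Inv σ)
    {p q r p' q' r' : ℕ} (hM : MmOK σ p q r p' q' r') (b : SBlk Z p q r) :
    (SBlk.rl hZ hM b).tgt = srl σ b.tgt := by
  show (sD (rl σ b.s) b.runs, fD p' q' r' b.f (rl σ b.s) b.runs, some b.t) =
    (rl σ (sD b.s b.runs), fD p q r b.f b.s b.runs, some b.t)
  rw [sD_rl, fD_rl hM]

/-- matrices of lists under relabelling -/
theorem gM_rl {σ : Equiv.Perm (Fin 3)} {RM RM' : GS → ℕ → ℂ → Matrix (Fin 3) (Fin 3) ℂ}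
    {w w' : ℂ} (D : GS → Prop) (hD : ∀ s m, D s → D (nx s m))
    (h : ∀ s m, D s → RM' s m w' = RM (rl σ s) m w) :
    ∀ (ms : List ℕ) (s : GS), D s → gM RM' s ms w' = gM RM (rl σ s) ms w := by
  intro ms
  induction ms with
  | nil => intro s _; rfl
  | cons m ms ih =>
    intro s hs
    show gM RM' (nx s m) ms w' * RM' s m w' = gM RM (nx (rl σ s) m) ms w * RM (rl σ s) m w
    rw [ih _ (hD s m hs), h s m hs, nx_rl]

/-! ### the three labellings -/

/-- exchange of the walls `0` and `2`: orders `(p, q, r)` become `(q, p, r)` -/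
theorem mmOK_02 (p q r : ℕ) : MmOK (Equiv.swap 0 2) p q r q p r := by
  intro i j
  fin_cases i <;> fin_cases j <;> rfl

/-- cyclic rotation `i ↦ i + 1`: orders `(p, q, r)` become `(r, p, q)` -/
theorem mmOK_rot (p q r : ℕ) : MmOK (Equiv.addRight (1 : Fin 3)) p q r r p q := by
  intro i j
  fin_cases i <;> fin_cases j <;> rfl

/-- the phase of an oriented state -/
noncomputable def zoS (s : GS) (z : ℂ) : ℂ := if s.2.2 = s.1 + 1 then z else z⁻¹

theorem zoS_02 : ∀ s : GS, DG s → ∀ z : ℂ, zoS (rl (Equiv.swap 0 2) s) z = zoS s z⁻¹ := by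
  rintro ⟨n, a, b⟩ ⟨h1, h2, h3⟩ z
  fin_cases n <;> fin_cases a <;> fin_cases b <;>
    first
    | exact absurd rfl h1
    | exact absurd rfl h2
    | exact absurd rfl h3
    | (simp only [zoS, rl]; simp [Equiv.swap_apply_def])

theorem zoS_rot : ∀ s : GS, ∀ z : ℂ, zoS (rl (Equiv.addRight (1 : Fin 3)) s) z = zoS s z := by
  rintro ⟨n, a, b⟩ z
  simp [zoS, rl]

theorem std_inv (Y : Modes) (σ : Equiv.Perm (Fin 3)) (hA : ∀ s, Y.A (rl σ s) = Y.A s)
    (hB : ∀ s, Y.B (rl σ s) = Y.B s) (hC : ∀ s m, Y.C (rl σ s) m = Y.C s m) :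
    (std Y).Inv σ := by
  refine ⟨fun s m => ?_, fun t s m => rfl⟩
  show (if m = 3 ∧ Y.A (rl σ s) = true then Ty.A
    else if m = 2 ∧ Y.B (rl σ s) = true then Ty.B
    else if Y.C (rl σ s) m = true then Ty.P m else Ty.o) = _
  rw [hA, hB, hC]
  rfl

end Pool.Agent.Helper21.SUP
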