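import Pool.Agent.Helper21.CX.SUP

/-!
The standard scheme of superblocks: `3 ^ k` (type A), `2 ^ k` (type B) and `m, 3, m, 3, …` (type C),
each at chosen states only, and the matrices of superblocks as powers.
-/

set_option autoImplicit false

namespace Pool.Agent.Helper21.SUP

open Pool.Agent.Helper6.MONO (nxD sD okD dw mm)

/-- types of blocks: ordinary, A, B, C ending with the long run, C ending with the run of three -/
inductive Ty : Type
  | o : Ty
  | A : Ty
  | B : Ty
  | P (m : ℕ) : Ty
  | Q (m : ℕ) : Ty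
  deriving DecidableEq

/-- where superblocks are used -/
structure Modes : Type where
  A : GS → Bool
  B : GS → Bool
  C : GS → ℕ → Bool

/-- the standard scheme -/
def std (Y : Modes) : Sch Ty where
  start s m :=
    if m = 3 ∧ Y.A s = true then Ty.A
    else if m = 2 ∧ Y.B s = true then Ty.B
    else if Y.C s m = true then Ty.P m
    else Ty.o
  cont t _ m :=
    match t with
    | Ty.o => none
    | Ty.A => if m = 3 then some Ty.A else none
    | Ty.B => if m = 2 then some Ty.B else none
    | Ty.P k => if m = 3 then some (Ty.Q k) else none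
    | Ty.Q k => if m = k then some (Ty.P k) else none

/-- `x, y, x, …` (`k` terms) -/
def alL (x y : ℕ) : ℕ → List ℕ
  | 0 => []
  | k + 1 => x :: alL y x k

theorem alL_length (x y k : ℕ) : (alL x y k).length = k := by
  induction k generalizing x y with
  | zero => rfl
  | succ k ih => rw [alL, List.length_cons, ih]

theorem alL_self (x k : ℕ) : alL x x k = List.replicate k x := by
  induction k with
  | zero => rfl
  | succ k ih => rw [alL, ih]; rfl

theorem alL_two_mul (x y k : ℕ) : alL x y (2 * (k + 1)) = x :: y :: alL x y (2 * k) := by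
  show alL x y (2 * k + 1 + 1) = _
  rfl

theorem alL_odd (x y k : ℕ) : alL x y (2 * k + 1) = alL x y (2 * k) ++ [x] := by
  induction k with
  | zero => rfl
  | succ k ih =>
    have h : alL x y (2 * (k + 1) + 1) = x :: y :: alL x y (2 * k + 1) := by
      show alL x y (2 * k + 1 + 1 + 1) = _
      rfl
    rw [h, ih, alL_two_mul]
    rfl

theorem seg_cons {τ : Type} (Z : Sch τ) (t : τ) (s : GS) (m : ℕ) (ms : List ℕ) (t' : τ)
    (h : Z.seg t s (m :: ms) = some t') :
    ∃ t₁, Z.cont t s m = some t₁ ∧ Z.seg t₁ (nx s m) ms = some t' := by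
  have h' : (match Z.cont t s m with
      | none => none
      | some t₁ => Z.seg t₁ (nx s m) ms) = some t' := h
  cases hc : Z.cont t s m with
  | none => rw [hc] at h'; cases h'
  | some t₁ => rw [hc] at h'; exact ⟨t₁, rfl, h'⟩

theorem std_seg (Y : Modes) : ∀ (l : List ℕ) (t : Ty) (s : GS) (t' : Ty),
    (std Y).seg t s l = some t' →
    (t = Ty.o → l = [] ∧ t' = Ty.o) ∧
    (t = Ty.A → l = alL 3 3 l.length ∧ t' = Ty.A) ∧
    (t = Ty.B → l = alL 2 2 l.length ∧ t' = Ty.B) ∧
    (∀ k, t = Ty.P k → l = alL 3 k l.length ∧ t' = if l.length % 2 = 0 then Ty.P k else Ty.Q k) ∧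
    (∀ k, t = Ty.Q k → l = alL k 3 l.length ∧ t' = if l.length % 2 = 0 then Ty.Q k else Ty.P k) := by
  intro l
  induction l with
  | nil =>
    intro t s t' h
    have h' : t = t' := by
      have : some t = some t' := h
      cases this
      rfl
    subst h'
    refine ⟨fun h => ⟨rfl, h⟩, fun h => ⟨rfl, h⟩, fun h => ⟨rfl, h⟩, fun k h => ⟨rfl, ?_⟩,
      fun k h => ⟨rfl, ?_⟩⟩
    · simp [h]
    · simp [h]
  | cons m l ih =>
    intro t s t' h
    obtain ⟨t₁, h1, h2⟩ := seg_cons (std Y) t s m l t' h
    obtain ⟨i1, i2, i3, i4, i5⟩ := ih t₁ _ t' h2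
    have hpar : ∀ (a b : Ty), (if (m :: l).length % 2 = 0 then a else b) =
        if l.length % 2 = 0 then b else a := by
      intro a b
      rw [List.length_cons]
      rcases Nat.mod_two_eq_zero_or_one l.length with h | h
      · have h' : (l.length + 1) % 2 = 1 := by omega
        rw [if_neg (by omega), if_pos h]
      · have h' : (l.length + 1) % 2 = 0 := by omega
        rw [if_pos h', if_neg (by omega)]
    refine ⟨?_, ?_, ?_, ?_, ?_⟩
    · rintro rfl
      cases h1
    · rintro rfl
      by_cases hm : m = 3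
      · have h1' : (if m = 3 then some Ty.A else none) = some t₁ := h1
        rw [if_pos hm] at h1'
        cases h1'
        obtain ⟨e1, e2⟩ := i2 rfl
        refine ⟨?_, e2⟩
        rw [List.length_cons, alL, ← e1, hm]
      · have h1' : (if m = 3 then some Ty.A else none) = some t₁ := h1
        rw [if_neg hm] at h1'
        cases h1'
    · rintro rfl
      by_cases hm : m = 2
      · have h1' : (if m = 2 then some Ty.B else none) = some t₁ := h1
        rw [if_pos hm] at h1'
        cases h1'
        obtain ⟨e1, e2⟩ := i3 rfl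
        refine ⟨?_, e2⟩
        rw [List.length_cons, alL, ← e1, hm]
      · have h1' : (if m = 2 then some Ty.B else none) = some t₁ := h1
        rw [if_neg hm] at h1'
        cases h1'
    · rintro k rfl
      by_cases hm : m = 3
      · have h1' : (if m = 3 then some (Ty.Q k) else none) = some t₁ := h1
        rw [if_pos hm] at h1'
        cases h1'
        obtain ⟨e1, e2⟩ := i5 k rfl
        refine ⟨?_, ?_⟩
        · rw [List.length_cons, alL, ← e1, hm]
        · rw [e2, hpar]
      · have h1' : (if m = 3 then some (Ty.Q k) else none) = some t₁ := h1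
        rw [if_neg hm] at h1'
        cases h1'
    · rintro k rfl
      by_cases hm : m = k
      · have h1' : (if m = k then some (Ty.P k) else none) = some t₁ := h1
        rw [if_pos hm] at h1'
        cases h1'
        obtain ⟨e1, e2⟩ := i4 k rfl
        refine ⟨?_, ?_⟩
        · rw [List.length_cons, alL, ← e1, hm]
        · rw [e2, hpar]
      · have h1' : (if m = k then some (Ty.P k) else none) = some t₁ := h1
        rw [if_neg hm] at h1'
        cases h1'

/-- forbidden next run after a block of type `t` -/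
def Ty.forb : Ty → ℕ
  | Ty.o => 0
  | Ty.A => 3
  | Ty.B => 2
  | Ty.P _ => 3
  | Ty.Q k => k

/-- THE BLOCKS of the standard scheme -/
theorem std_blk (Y : Modes) (p q r : ℕ) (o : Option Ty) (f : Bool) (s : GS) (m : ℕ) (ms : List ℕ)
    (t : Ty) (h : (std Y).Blk p q r o f s m ms t) :
    (∀ t₀, o = some t₀ → m = 0 ∨ m ≠ t₀.forb) ∧ okD p q r f s (m :: ms) ∧
    ((t = Ty.o ∧ ms = [] ∧ ¬ (m = 3 ∧ Y.A s = true) ∧ ¬ (m = 2 ∧ Y.B s = true) ∧ Y.C s m = false) ∨
     (t = Ty.A ∧ Y.A s = true ∧ m :: ms = alL 3 3 (ms.length + 1)) ∨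
     (t = Ty.B ∧ Y.B s = true ∧ m :: ms = alL 2 2 (ms.length + 1)) ∨
     (Y.C s m = true ∧ m :: ms = alL m 3 (ms.length + 1) ∧
       t = if ms.length % 2 = 0 then Ty.P m else Ty.Q m)) := by
  obtain ⟨h1, h2, h3⟩ := h
  refine ⟨?_, h2, ?_⟩
  · rintro t₀ rfl
    have h4 := h1 t₀ rfl
    cases t₀ with
    | o =>
      rcases Nat.eq_zero_or_pos m with h | h
      · exact Or.inl h
      · right
        show m ≠ 0
        omega
    | A =>
      right
      intro h
      have h' : m = 3 := h
      have h4' : (if m = 3 then some Ty.A else none) = none := h4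
      rw [if_pos h'] at h4'
      cases h4'
    | B =>
      right
      intro h
      have h' : m = 2 := h
      have h4' : (if m = 2 then some Ty.B else none) = none := h4
      rw [if_pos h'] at h4'
      cases h4'
    | P k =>
      right
      intro h
      have h' : m = 3 := h
      have h4' : (if m = 3 then some (Ty.Q k) else none) = none := h4
      rw [if_pos h'] at h4'
      cases h4'
    | Q k =>
      right
      intro h
      have h' : m = k := h
      have h4' : (if m = k then some (Ty.P k) else none) = none := h4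
      rw [if_pos h'] at h4'
      cases h4'
  · obtain ⟨i1, i2, i3, i4, i5⟩ := std_seg Y ms _ _ t h3
    have hst : (std Y).start s m = if m = 3 ∧ Y.A s = true then Ty.A
      else if m = 2 ∧ Y.B s = true then Ty.B
      else if Y.C s m = true then Ty.P m
      else Ty.o := rfl
    by_cases hA : m = 3 ∧ Y.A s = true
    · right; left
      rw [if_pos hA] at hst
      obtain ⟨e1, e2⟩ := i2 hst
      refine ⟨e2, hA.2, ?_⟩
      rw [alL, ← e1, hA.1]
    · rw [if_neg hA] at hst
      by_cases hBm : m = 2 ∧ Y.B s = true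
      · right; right; left
        rw [if_pos hBm] at hst
        obtain ⟨e1, e2⟩ := i3 hst
        refine ⟨e2, hBm.2, ?_⟩
        rw [alL, ← e1, hBm.1]
      · rw [if_neg hBm] at hst
        by_cases hC : Y.C s m = true
        · right; right; right
          rw [if_pos hC] at hst
          obtain ⟨e1, e2⟩ := i4 m hst
          refine ⟨hC, ?_, e2⟩
          rw [alL, ← e1]
        · left
          rw [if_neg hC] at hst
          obtain ⟨e1, e2⟩ := i1 hst
          refine ⟨e2, e1, hA, hBm, ?_⟩
          revert hC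
          cases Y.C s m <;> simp

/-! ### powers -/

theorem nx_odd (s : GS) (m : ℕ) (h : m % 2 = 1) : nx s m = (s.1, s.2.2, s.2.1) := by
  obtain ⟨n, a, b⟩ := s
  unfold nx nxD
  rw [if_neg (by omega)]

theorem nx_even (s : GS) (m : ℕ) (h : m % 2 = 0) : nx s m = (s.2.1, s.2.2, s.1) := by
  obtain ⟨n, a, b⟩ := s
  unfold nx nxD
  rw [if_pos h]

theorem nx_odd_odd (s : GS) (x y : ℕ) (hx : x % 2 = 1) (hy : y % 2 = 1) : nx (nx s x) y = s := by
  rw [nx_odd s x hx, nx_odd _ y hy]

theorem sD_alL (s : GS) (x y : ℕ) (hx : x % 2 = 1) (hy : y % 2 = 1) (k : ℕ) :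
    sD s (alL x y (2 * k)) = s := by
  induction k with
  | zero => exact sD_nil s
  | succ k ih => rw [alL_two_mul, sD_cons, sD_cons, nx_odd_odd s x y hx hy, ih]

/-- even superblocks of type A and C are powers -/
theorem gM_alL (RM : GS → ℕ → ℂ → Matrix (Fin 3) (Fin 3) ℂ) (s : GS) (x y : ℕ) (hx : x % 2 = 1)
    (hy : y % 2 = 1) (w : ℂ) (k : ℕ) :
    gM RM s (alL x y (2 * k)) w = (RM (nx s x) y w * RM s x w) ^ k := by
  induction k with
  | zero => simp [alL, gM]
  | succ k ih =>
    rw [alL_two_mul]
    simp only [gM]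
    rw [nx_odd_odd s x y hx hy, ih, pow_succ, Matrix.mul_assoc]

/-- odd superblocks -/
theorem gM_alL_odd (RM : GS → ℕ → ℂ → Matrix (Fin 3) (Fin 3) ℂ) (s : GS) (x y : ℕ)
    (hx : x % 2 = 1) (hy : y % 2 = 1) (w : ℂ) (k : ℕ) :
    gM RM s (alL x y (2 * k + 1)) w = RM s x w * (RM (nx s x) y w * RM s x w) ^ k := by
  rw [alL_odd, gM_append, sD_alL s x y hx hy, gM_alL RM s x y hx hy]
  simp [gM]

theorem sD_alL_odd (s : GS) (x y : ℕ) (hx : x % 2 = 1) (hy : y % 2 = 1) (k : ℕ) :
    sD s (alL x y (2 * k + 1)) = nx s x := by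
  rw [alL_odd, sD_append, sD_alL s x y hx hy, sD_cons, sD_nil]

theorem nx_even3 (s : GS) (x : ℕ) (hx : x % 2 = 0) : nx (nx (nx s x) x) x = s := by
  rw [nx_even s x hx, nx_even _ x hx, nx_even _ x hx]

theorem replicate3 (x k : ℕ) :
    List.replicate (3 * (k + 1)) x = x :: x :: x :: List.replicate (3 * k) x := by
  show List.replicate (3 * k + 1 + 1 + 1) x = _
  rfl

theorem sD_rep (s : GS) (x : ℕ) (hx : x % 2 = 0) (k : ℕ) :
    sD s (List.replicate (3 * k) x) = s := by
  induction k with
  | zero => exact sD_nil s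
  | succ k ih => rw [replicate3, sD_cons, sD_cons, sD_cons, nx_even3 s x hx, ih]

/-- superblocks of type B: three runs of two letters form one period -/
theorem gM_rep (RM : GS → ℕ → ℂ → Matrix (Fin 3) (Fin 3) ℂ) (s : GS) (x : ℕ) (hx : x % 2 = 0)
    (w : ℂ) (k : ℕ) :
    gM RM s (List.replicate (3 * k) x) w =
      (RM (nx (nx s x) x) x w * RM (nx s x) x w * RM s x w) ^ k := by
  induction k with
  | zero => simp [gM]
  | succ k ih =>
    rw [replicate3]
    simp only [gM]
    rw [nx_even3 s x hx, ih, pow_succ]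
    simp only [Matrix.mul_assoc]

/-- and the rest -/
theorem gM_rep_add (RM : GS → ℕ → ℂ → Matrix (Fin 3) (Fin 3) ℂ) (s : GS) (x : ℕ) (hx : x % 2 = 0)
    (w : ℂ) (k j : ℕ) :
    gM RM s (List.replicate (3 * k + j) x) w = gM RM s (List.replicate j x) w *
      (RM (nx (nx s x) x) x w * RM (nx s x) x w * RM s x w) ^ k := by
  rw [List.replicate_add, gM_append, sD_rep s x hx, gM_rep RM s x hx]

end Pool.Agent.Helper21.SUP
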