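import Pool.Agent.Helper12.CX.Defs
import Pool.Agent.Helper39.C75.LineC

/-!
Row PATHSB: regrouping of a canonical list of runs into superblocks, and the corresponding chain.

A scheme says which runs are glued together: `start s m` is the type of a block opened by a run of
`m` letters at the geometric state `s`, and `cont t s m` says whether the open block of type `t` is
continued by the next run. Blocks are maximal, so a block is never followed by a run which would
continue it.
-/

set_option autoImplicit false

namespace Pool.Agent.Helper21.SUP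

open Pool.Agent.Helper6.MONO (nxD sD okD dw mm)
open Pool.Agent.Helper39.C75 (Chain)

/-- geometric states: wall, in-star, out-star -/
abbrev GS : Type := Fin 3 × Fin 3 × Fin 3

/-- the state after a run of `m` letters -/
def nx (s : GS) (m : ℕ) : GS := nxD m s.1 s.2.1 s.2.2

theorem sD_cons (s : GS) (m : ℕ) (ms : List ℕ) : sD s (m :: ms) = sD (nx s m) ms := by
  obtain ⟨n, a, b⟩ := s
  rfl

theorem sD_nil (s : GS) : sD s [] = s := by
  obtain ⟨n, a, b⟩ := s
  rfl

theorem sD_append (s : GS) (l l' : List ℕ) : sD s (l ++ l') = sD (sD s l) l' := by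
  induction l generalizing s with
  | nil => rw [List.nil_append, sD_nil]
  | cons m l ih => rw [List.cons_append, sD_cons, sD_cons, ih]

/-- the flag after a list of runs: was the last run full? -/
def fD (p q r : ℕ) : Bool → GS → List ℕ → Bool
  | f, _, [] => f
  | _, s, m :: ms => fD p q r (decide (m = mm p q r s.1 s.2.1)) (nx s m) ms

theorem fD_append (p q r : ℕ) (f : Bool) (s : GS) (l l' : List ℕ) :
    fD p q r f s (l ++ l') = fD p q r (fD p q r f s l) (sD s l) l' := by
  induction l generalizing s f with
  | nil => rw [List.nil_append, sD_nil]; rfl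
  | cons m l ih => rw [List.cons_append, sD_cons]; exact ih _ _

/-- one run may follow -/
def ok1 (p q r : ℕ) (f : Bool) (s : GS) (m : ℕ) : Prop :=
  2 ≤ m ∧ m ≤ mm p q r s.1 s.2.1 ∧ (f = true → 3 ≤ m)

theorem okD_cons (p q r : ℕ) (f : Bool) (s : GS) (m : ℕ) (ms : List ℕ) :
    okD p q r f s (m :: ms) ↔
      ok1 p q r f s m ∧ okD p q r (decide (m = mm p q r s.1 s.2.1)) (nx s m) ms := by
  obtain ⟨n, a, b⟩ := s
  unfold ok1
  constructor
  · rintro ⟨h1, h2, h3, h4⟩
    exact ⟨⟨h1, h2, h3⟩, h4⟩
  · rintro ⟨⟨h1, h2, h3⟩, h4⟩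
    exact ⟨h1, h2, h3, h4⟩

theorem okD_append (p q r : ℕ) (f : Bool) (s : GS) (l l' : List ℕ) :
    okD p q r f s (l ++ l') ↔
      okD p q r f s l ∧ okD p q r (fD p q r f s l) (sD s l) l' := by
  induction l generalizing s f with
  | nil =>
    rw [List.nil_append, sD_nil]
    obtain ⟨n, a, b⟩ := s
    simp only [fD]
    constructor
    · intro h
      exact ⟨trivial, h⟩
    · intro h
      exact h.2
  | cons m l ih =>
    rw [List.cons_append, okD_cons, okD_cons, ih, sD_cons, and_assoc]
    exact Iff.rfl

/-! ### schemes -/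

/-- which runs are glued together -/
structure Sch (τ : Type) where
  start : GS → ℕ → τ
  cont : τ → GS → ℕ → Option τ

variable {τ : Type}

/-- the type of the open block after further runs (`none` if one of them does not continue it) -/
def Sch.seg (Z : Sch τ) : τ → GS → List ℕ → Option τ
  | t, _, [] => some t
  | t, s, m :: ms =>
    match Z.cont t s m with
    | none => none
    | some t' => Z.seg t' (nx s m) ms

/-- the run `m` does not continue the last block -/
def Sch.new (Z : Sch τ) (o : Option τ) (s : GS) (m : ℕ) : Prop :=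
  ∀ t, o = some t → Z.cont t s m = none

/-- a block: nonempty list of runs, accepted, glued, not continuing the last block -/
structure Sch.Blk (Z : Sch τ) (p q r : ℕ) (o : Option τ) (f : Bool) (s : GS) (m : ℕ) (ms : List ℕ)
    (t : τ) : Prop where
  new : Z.new o s m
  ok : okD p q r f s (m :: ms)
  seg : Z.seg (Z.start s m) (nx s m) ms = some t

/-- paths in the superblock automaton: list of blocks and type of the last block -/
def Sch.Path (Z : Sch τ) (p q r : ℕ) : Option τ → Bool → GS → List (List ℕ) → Option τ → Prop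
  | o, _, _, [], o' => o' = o
  | o, f, s, l :: ls, o' => ∃ m ms t, l = m :: ms ∧ Z.Blk p q r o f s m ms t ∧
      Z.Path p q r (some t) (fD p q r f s l) (sD s l) ls o'

/-- the longest continuation of an open block -/
theorem Sch.split (Z : Sch τ) : ∀ (ms : List ℕ) (t : τ) (s : GS), ∃ (l l' : List ℕ) (t' : τ),
    ms = l ++ l' ∧ Z.seg t s l = some t' ∧ ∀ m ms', l' = m :: ms' → Z.cont t' (sD s l) m = none := by
  intro ms
  induction ms with
  | nil =>
    intro t s
    exact ⟨[], [], t, rfl, rfl, by intro m ms' h; cases h⟩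
  | cons m ms ih =>
    intro t s
    cases hc : Z.cont t s m with
    | none =>
      refine ⟨[], m :: ms, t, rfl, rfl, ?_⟩
      intro m' ms' h
      rw [sD_nil]
      cases h
      exact hc
    | some t₁ =>
      obtain ⟨l, l', t', h1, h2, h3⟩ := ih t₁ (nx s m)
      refine ⟨m :: l, l', t', by rw [h1]; rfl, ?_, ?_⟩
      · show (match Z.cont t s m with
          | none => none
          | some t' => Z.seg t' (nx s m) l) = some t'
        rw [hc]
        exact h2
      · rw [sD_cons]
        exact h3

/-- REGROUPING: every canonical list of runs is a path in the superblock automaton. -/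
theorem Sch.regroup (Z : Sch τ) (p q r : ℕ) : ∀ (L : ℕ) (ms : List ℕ), ms.length ≤ L →
    ∀ (o : Option τ) (f : Bool) (s : GS), okD p q r f s ms →
    (∀ m ms', ms = m :: ms' → Z.new o s m) →
    ∃ (ls : List (List ℕ)) (o' : Option τ), ls.flatten = ms ∧ Z.Path p q r o f s ls o' := by
  intro L
  induction L with
  | zero =>
    intro ms hL o f s _ _
    have : ms = [] := List.length_eq_zero_iff.1 (Nat.le_zero.1 hL)
    subst this
    exact ⟨[], o, rfl, rfl⟩
  | succ L ih =>
    intro ms hL o f s hok hnew
    match ms, hL, hok, hnew with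
    | [], _, _, _ => exact ⟨[], o, rfl, rfl⟩
    | m :: ms, hL, hok, hnew =>
      obtain ⟨l, l', t', h1, h2, h3⟩ := Z.split ms (Z.start s m) (nx s m)
      subst h1
      have hok' : okD p q r f s ((m :: l) ++ l') := hok
      rw [okD_append] at hok'
      obtain ⟨ls, o', e1, e2⟩ := ih l' (by
        simp only [List.length_cons, List.length_append] at hL
        omega) (some t') _ _ hok'.2 (by
          intro m' ms' h
          intro t ht
          cases ht
          rw [sD_cons]
          exact h3 m' ms' h)
      refine ⟨(m :: l) :: ls, o', ?_, m, l, t', rfl, ⟨hnew m _ rfl, hok'.1, h2⟩, e2⟩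
      rw [List.flatten_cons, e1]
      rfl

/-! ### matrices -/

/-- the matrix of a list of runs -/
def gM (RM : GS → ℕ → ℂ → Matrix (Fin 3) (Fin 3) ℂ) : GS → List ℕ → ℂ → Matrix (Fin 3) (Fin 3) ℂ
  | _, [], _ => 1
  | s, m :: ms, w => gM RM (nx s m) ms w * RM s m w

theorem gM_append (RM : GS → ℕ → ℂ → Matrix (Fin 3) (Fin 3) ℂ) (s : GS) (l l' : List ℕ) (w : ℂ) :
    gM RM s (l ++ l') w = gM RM (sD s l) l' w * gM RM s l w := by
  induction l generalizing s with
  | nil => rw [List.nil_append, sD_nil]; simp [gM]
  | cons m l ih =>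
    rw [List.cons_append, sD_cons]
    simp only [gM]
    rw [ih, Matrix.mul_assoc]

/-! ### chains -/

/-- THE CHAIN of a canonical list of runs. `S` and `B` are the states and blocks of the certificate,
`st` gives the state of the certificate, and every block of the scheme is a block of the
certificate, with a matrix which may differ by a scalar factor different from zero. -/
theorem chain_of_okD {S B : Type} {src tgt : B → S} {M : B → ℂ → Matrix (Fin 3) (Fin 3) ℂ}
    {Start : S → (ℂ → Fin 3 → ℂ) → Prop} (Z : Sch τ) (p q r : ℕ)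
    (RM : GS → ℕ → ℂ → Matrix (Fin 3) (Fin 3) ℂ) (K : Set ℂ) (D : GS → Prop)
    (hD : ∀ s m, D s → D (nx s m))
    (st : GS → Bool → Option τ → S)
    (hB : ∀ (o : Option τ) (f : Bool) (s : GS) (m : ℕ) (ms : List ℕ) (t : τ), D s →
      Z.Blk p q r o f s m ms t → ∃ b : B, src b = st s f o ∧
        tgt b = st (sD s (m :: ms)) (fD p q r f s (m :: ms)) (some t) ∧
        ∀ w ∈ K, ∃ g : ℂ, g ≠ 0 ∧ M b w = g • gM RM s (m :: ms) w)
    (s : GS) (hs : D s) (v : ℂ → Fin 3 → ℂ) (hv : Start (st s false none) v)
    (ms : List ℕ) (hok : okD p q r false s ms) :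
    ∃ (o : Option τ) (u : ℂ → Fin 3 → ℂ),
      Chain src tgt M Start (st (sD s ms) (fD p q r false s ms) o) u ∧
      ∀ w ∈ K, ∃ g : ℂ, g ≠ 0 ∧ u w = g • (gM RM s ms w).mulVec (v w) := by
  have hDs : ∀ (l : List ℕ) (s : GS), D s → D (sD s l) := by
    intro l
    induction l with
    | nil => intro s h; rw [sD_nil]; exact h
    | cons m l ih => intro s h; rw [sD_cons]; exact ih _ (hD s m h)
  have key : ∀ (ls : List (List ℕ)) (o : Option τ) (f : Bool) (s : GS) (o' : Option τ)
      (v : ℂ → Fin 3 → ℂ), D s → Z.Path p q r o f s ls o' →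
      Chain src tgt M Start (st s f o) v →
      ∃ u : ℂ → Fin 3 → ℂ,
        Chain src tgt M Start (st (sD s ls.flatten) (fD p q r f s ls.flatten) o') u ∧
        ∀ w ∈ K, ∃ g : ℂ, g ≠ 0 ∧ u w = g • (gM RM s ls.flatten w).mulVec (v w) := by
    intro ls
    induction ls with
    | nil =>
      intro o f s o' v _ hp hc
      have : o' = o := hp
      subst this
      refine ⟨v, ?_, fun w _ => ⟨1, one_ne_zero, ?_⟩⟩
      · rw [List.flatten_nil, sD_nil]
        exact hc
      · simp [gM]
    | cons l ls ih =>
      intro o f s o' v hs hp hc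
      obtain ⟨m, ms, t, rfl, hb, hp'⟩ := hp
      obtain ⟨b, h1, h2, h3⟩ := hB o f s m ms t hs hb
      have hc' : Chain src tgt M Start (src b) v := by rw [h1]; exact hc
      have hc2 := Chain.step b hc'
      rw [h2] at hc2
      obtain ⟨u, hu1, hu2⟩ := ih _ _ _ o' _ (hDs _ _ hs) hp' hc2
      refine ⟨u, ?_, ?_⟩
      · rw [List.flatten_cons, sD_append, fD_append]
        exact hu1
      · intro w hw
        obtain ⟨g, hg, e⟩ := hu2 w hw
        obtain ⟨g', hg', e'⟩ := h3 w hw
        refine ⟨g * g', mul_ne_zero hg hg', ?_⟩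
        rw [e, List.flatten_cons, gM_append, ← Matrix.mulVec_mulVec]
        show g • (gM RM _ ls.flatten w).mulVec ((M b w).mulVec (v w)) = _
        rw [e', Matrix.smul_mulVec, Matrix.mulVec_smul, smul_smul]
  obtain ⟨ls, o', e1, e2⟩ := Z.regroup p q r ms.length ms le_rfl none false s hok
    (by intro m ms' _ t ht; cases ht)
  obtain ⟨u, hu1, hu2⟩ := key ls none false s o' v hs e2 (Chain.start hv)
  rw [e1] at hu1 hu2
  exact ⟨o', u, hu1, hu2⟩

end Pool.Agent.Helper21.SUP
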